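import Pool.Agent.T2H19.ZA.Stm
import Pool.Agent.Helper240.ZU.E1

/-! # Project ZA, package APX

The zeta function is close to its Euler product on almost all segments. -/

set_option autoImplicit false

namespace Pool.Agent.T2H19.ZA

open Finset Filter Topology MeasureTheory Pool.Agent.H306R2

namespace PkgAPX

/-- the function which is small in mean square -/
noncomputable def GG (M : ℕ) (z : ℂ) : ℂ := riemannZeta z * ZU.EM M (fun _ => 1) z - 1

theorem GG_diff (M : ℕ) (z : ℂ) (hz : z.re < 1) : DifferentiableAt ℂ (GG M) z := by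
  have hz1 : z ≠ 1 := by
    intro h
    rw [h, Complex.one_re] at hz
    exact lt_irrefl _ hz
  exact ((differentiableAt_riemannZeta hz1).mul (ZU.J_e1.de_EM_diff M _ z)).sub_const 1

theorem dir_one (t : ℝ) : ZU.Dir {1} (fun _ => 1) t = 1 := by
  unfold ZU.Dir
  simp

/-- Markov's inequality for the area integral -/
theorem markov (A : ℝ → ℝ) (hA : Continuous A) (hA0 : ∀ t, 0 ≤ A t) (c H V : ℝ) (hc : 0 < c) (hH : 0 ≤ H)
    (hV : ∫ t in (0 : ℝ)..H, A t ≤ c * V) :
    volume {α : ℝ | 0 ≤ α ∧ α ≤ H ∧ c ≤ A α} ≤ ENNReal.ofReal V := by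
  have hint : Integrable A (volume.restrict (Set.Icc 0 H)) :=
    hA.continuousOn.integrableOn_compact isCompact_Icc
  have h1 := mul_meas_ge_le_integral_of_nonneg (μ := volume.restrict (Set.Icc 0 H))
    (Eventually.of_forall hA0) hint c
  have hm : MeasurableSet {x | c ≤ A x} := (isClosed_le continuous_const hA).measurableSet
  have e1 : (volume.restrict (Set.Icc 0 H)) {x | c ≤ A x} = volume {α : ℝ | 0 ≤ α ∧ α ≤ H ∧ c ≤ A α} := by
    rw [Measure.restrict_apply hm]
    congr 1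
    ext x
    simp only [Set.mem_inter_iff, Set.mem_ofPred_eq, Set.mem_Icc]
    tauto
  have e2 : ∫ x, A x ∂(volume.restrict (Set.Icc 0 H)) = ∫ t in (0 : ℝ)..H, A t := by
    rw [intervalIntegral.integral_of_le hH, integral_Icc_eq_integral_Ioc]
  rw [e2, Measure.real, e1] at h1
  have h2 : (volume {α : ℝ | 0 ≤ α ∧ α ≤ H ∧ c ≤ A α}).toReal ≤ V :=
    le_of_mul_le_mul_left (h1.trans hV) hc
  have hfin : volume {α : ℝ | 0 ≤ α ∧ α ≤ H ∧ c ≤ A α} ≠ ⊤ := by
    refine ne_top_of_le_ne_top (b := volume (Set.Icc 0 H)) ?_ (measure_mono fun x hx => ⟨hx.1, hx.2.1⟩)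
    rw [Real.volume_Icc]
    exact ENNReal.ofReal_ne_top
  rw [← ENNReal.ofReal_toReal hfin]
  exact ENNReal.ofReal_le_ofReal h2

end PkgAPX

open PkgAPX in
theorem T_APX : P_APX := by
  intro δ T ρ ε hδ hδ4 hT hρ hε
  obtain ⟨C, hC, hCs⟩ := ZU.sup_le_area (1 / 2 + δ) (1 / 2 + δ) (1 / 2 + δ / 2) (1 / 2 + 3 * δ / 2) T (T + 1)
    (by linarith) le_rfl (by linarith) hT (by linarith)
  have hσ : (1 : ℝ) / 2 < 1 / 2 + δ / 2 := by linarith
  -- the area of the rectangle
  set κ : ℝ := (1 / 2 + 3 * δ / 2 - (1 / 2 + δ / 2)) * (2 * (T + 1)) with hκ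
  have hκ0 : 0 < κ := by
    rw [hκ]
    have h1 : 0 < 1 / 2 + 3 * δ / 2 - (1 / 2 + δ / 2) := by linarith
    positivity
  set c : ℝ := ρ ^ 2 / C with hc
  have hc0 : 0 < c := by positivity
  set η : ℝ := c * ε / κ with hη
  have hη0 : 0 < η := by positivity
  obtain ⟨M₀, hM₀⟩ : ∃ M0 : ℕ, ∀ M ≥ M0, ZU.tail (1 / 2 + δ / 2) M < η / 8 :=
    Filter.eventually_atTop.mp
      ((ZU.tail_tendsto _ hσ).1.eventually (gt_mem_nhds (show (0 : ℝ) < η / 8 by positivity)))
  refine ⟨M₀, fun M hM => ?_⟩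
  have htail := hM₀ M hM
  obtain ⟨H₀, hH₀, hmv⟩ := ZU.rough_mv (1 / 2 + δ / 2) (1 / 2 + 3 * δ / 2) hσ (by linarith) (by linarith) (T + 1)
    (by linarith) M {1} (by
      intro n hn
      rw [Finset.mem_singleton] at hn
      subst hn
      refine ⟨le_rfl, fun p hp hp1 => ?_⟩
      exact absurd (Nat.dvd_one.1 hp1) hp.one_lt.ne') (fun _ => 1) (fun _ _ => norm_one) (η / 2) (by positivity)
  refine ⟨H₀, hH₀, fun H hH => ?_⟩
  have hH0 : 0 < H := hH₀.trans_le hH
  have hGcont : ContinuousOn (GG M) {z : ℂ | 1 / 2 + δ / 2 ≤ z.re ∧ z.re ≤ 1 / 2 + 3 * δ / 2} := by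
    intro z hz
    exact (GG_diff M z (lt_of_le_of_lt hz.2 (by linarith))).continuousAt.continuousWithinAt
  obtain ⟨hAc, hAi⟩ := ZU.fubini_bound (1 / 2 + δ / 2) (1 / 2 + 3 * δ / 2) (T + 1) (by linarith) (by linarith)
    (GG M) hGcont (fun _ => 1) continuous_const H hH0.le (H * η) (by
      intro s hs
      have h1 := hmv H hH s hs
      simp only [dir_one, norm_one, one_pow, one_mul, Finset.card_singleton, Nat.cast_one] at h1
      have h2 : ∫ t in (0 : ℝ)..H, 1 * ‖GG M (s + t * Complex.I)‖ ^ 2 =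
          ∫ t in (0 : ℝ)..H, ‖riemannZeta (s + t * Complex.I) * ZU.EM M (fun _ => 1) (s + t * Complex.I) - 1‖ ^ 2 := by
        refine intervalIntegral.integral_congr fun t _ => ?_
        simp only [one_mul]
        rfl
      rw [h2]
      refine h1.trans (mul_le_mul_of_nonneg_left ?_ hH0.le)
      linarith)
  have hV : ∫ α in (0 : ℝ)..H, (∫ w in ZU.rect (1 / 2 + δ / 2) (1 / 2 + 3 * δ / 2) (T + 1),
      ‖GG M (w + α * Complex.I)‖ ^ 2) ≤ c * (ε * H) := by
    have e : (1 / 2 + 3 * δ / 2 - (1 / 2 + δ / 2)) * (2 * (T + 1)) * (H * η) = c * (ε * H) := by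
      rw [← hκ, hη]
      field_simp
    rw [← e]
    refine le_trans (le_of_eq ?_) hAi
    refine intervalIntegral.integral_congr fun t _ => ?_
    simp only [one_mul]
  refine le_trans (measure_mono ?_) (markov _ hAc (fun t => integral_nonneg fun w => by positivity) c H (ε * H)
    hc0 hH0.le hV)
  rintro α ⟨h0, h1, t, ht0, htT, hlt⟩
  refine ⟨h0, h1, ?_⟩
  have hre : ∀ z : ℂ, (z + α * Complex.I).re = z.re := by
    intro z
    simp
  have h6 := hCs (fun z => GG M (z + α * Complex.I)) {z : ℂ | z.re < 1}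
    (isOpen_lt Complex.continuous_re continuous_const)
    (fun z hz => lt_of_le_of_lt hz.2.1 (by linarith))
    (fun z hz => by
      have hz' : (z + α * Complex.I).re < 1 := by
        rw [hre]; exact hz
      have h7 : DifferentiableAt ℂ (fun z : ℂ => GG M (z + α * Complex.I)) z :=
        DifferentiableAt.comp z (GG_diff M _ hz') (differentiableAt_id.add_const _)
      exact h7.differentiableWithinAt) (((1 / 2 + δ : ℝ) : ℂ) + (t : ℂ) * Complex.I) (by
        refine ⟨?_, ?_, ?_⟩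
        · simp
        · simp
        · simp only [Complex.add_im, Complex.ofReal_im, Complex.mul_im, Complex.I_im, Complex.ofReal_re, mul_one,
            Complex.I_re, mul_zero, add_zero, zero_add]
          rw [abs_of_nonneg ht0]
          exact htT)
  have e3 : ((1 / 2 + δ : ℝ) : ℂ) + (t : ℂ) * Complex.I + (α : ℂ) * Complex.I =
      ((1 / 2 + δ : ℝ) : ℂ) + ((α + t : ℝ) : ℂ) * Complex.I := by
    push_cast
    ring
  rw [e3] at h6
  have h7 : ρ ^ 2 ≤ ‖GG M (((1 / 2 + δ : ℝ) : ℂ) + ((α + t : ℝ) : ℂ) * Complex.I)‖ ^ 2 :=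
    pow_le_pow_left₀ hρ.le hlt.le 2
  rw [hc, div_le_iff₀ hC, mul_comm]
  exact h7.trans h6

end Pool.Agent.T2H19.ZA
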