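import Pool.Agent.T2H19.ZA.Stm

set_option autoImplicit false

namespace Pool.Agent.T2H19.ZA

open Finset Filter Topology MeasureTheory Pool.Agent.H306R2

namespace PkgHALF

theorem len_mul {a b : ℕ} (ha : a ≠ 0) (hb : b ≠ 0) :
    (a * b).primeFactorsList.length = a.primeFactorsList.length + b.primeFactorsList.length := by
  rw [(Nat.perm_primeFactorsList_mul ha hb).length_eq, List.length_append]

theorem len_prime {p : ℕ} (hp : p.Prime) : p.primeFactorsList.length = 1 := by
  rw [Nat.primeFactorsList_prime hp]
  rfl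

end PkgHALF

theorem T_HALF : P_HALF := by
  intro r
  induction r using Nat.strong_induction_on with
  | _ r ih =>
    intro hr
    by_cases h1 : r = 1
    · subst h1
      exact ⟨1, one_dvd _, le_refl _, by simp⟩
    have hp : (Nat.minFac r).Prime := Nat.minFac_prime h1
    obtain ⟨m, hm⟩ := Nat.minFac_dvd r
    have hm0 : m ≠ 0 := by
      rintro rfl
      rw [mul_zero] at hm
      omega
    by_cases hm1 : m = 1
    · refine ⟨1, one_dvd _, by omega, ?_⟩
      have h2 : r.Prime := by
        rw [hm1, mul_one] at hm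
        rw [hm]
        exact hp
      rw [PkgHALF.len_prime h2]
      omega
    have hq : (Nat.minFac m).Prime := Nat.minFac_prime hm1
    obtain ⟨r', hr'⟩ := Nat.minFac_dvd m
    have hr0 : r' ≠ 0 := by
      rintro rfl
      rw [mul_zero] at hr'
      exact hm0 hr'
    have hpq : Nat.minFac r ≤ Nat.minFac m := by
      refine Nat.minFac_le_of_dvd hq.two_le ((Nat.minFac_dvd m).trans ?_)
      exact ⟨Nat.minFac r, by rw [mul_comm]; exact hm⟩
    have hlt : r' < r := by
      have h3 : r = Nat.minFac r * (Nat.minFac m * r') := by rw [← hr']; exact hm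
      have h4 := hp.two_le
      have h5 := hq.two_le
      have h6 : 0 < r' := Nat.pos_of_ne_zero hr0
      calc r' < 2 * r' := by omega
        _ ≤ Nat.minFac m * r' := Nat.mul_le_mul_right _ h5
        _ ≤ Nat.minFac r * (Nat.minFac m * r') := Nat.le_mul_of_pos_left _ (by omega)
        _ = r := h3.symm
    obtain ⟨e, he1, he2, he3⟩ := ih r' hlt (Nat.pos_of_ne_zero hr0)
    have he0 : e ≠ 0 := by
      rintro rfl
      exact hr0 (zero_dvd_iff.1 he1)
    have hreq : r = Nat.minFac r * (Nat.minFac m * r') := by rw [← hr']; exact hm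
    refine ⟨Nat.minFac r * e, ?_, ?_, ?_⟩
    · conv_rhs => rw [hreq]
      exact mul_dvd_mul_left _ (he1.trans (dvd_mul_left _ _))
    · conv_rhs => rw [hreq]
      calc Nat.minFac r * e * (Nat.minFac r * e) = Nat.minFac r * (Nat.minFac r * (e * e)) := by ring
        _ ≤ Nat.minFac r * (Nat.minFac m * r') :=
          Nat.mul_le_mul_left _ (Nat.mul_le_mul hpq he2)
    · have h7 : r.primeFactorsList.length = 1 + (1 + r'.primeFactorsList.length) := by
        conv_lhs => rw [hreq]
        rw [PkgHALF.len_mul hp.ne_zero (mul_ne_zero hq.ne_zero hr0), PkgHALF.len_mul hq.ne_zero hr0,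
          PkgHALF.len_prime hp, PkgHALF.len_prime hq]
      rw [PkgHALF.len_mul hp.ne_zero he0, PkgHALF.len_prime hp, h7]
      omega

end Pool.Agent.T2H19.ZA
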