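import Pool.Agent.T2H19.ZA.Stm
import Pool.Agent.H306R2.EPLim

/-! # Package LIM: the limit of `(2δ)^(k^2) ∑ d_k(n)^2 n^(-1-2δ)` -/

set_option autoImplicit false

namespace Pool.Agent.T2H19.ZA

open Finset Filter Topology MeasureTheory Pool.Agent.H306R2

namespace PkgLIM

lemma cf_eq (k δ : ℝ) (n : ℕ) :
    cf (ι := Fin 1) (fun _ => k) (fun _ => 2 / δ⁻¹) n = dv k n ^ 2 * (n : ℝ) ^ (-(1 + 2 * δ)) := by
  rcases Nat.eq_zero_or_pos n with h0 | h0
  · subst h0
    simp [cf, dv]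
  · have hn : (0 : ℝ) < n := by exact_mod_cast h0
    unfold cf Gs
    simp only [univ_unique, sum_const, card_singleton, one_smul, prod_const, pow_one, tw_apply]
    rw [show (-(1 + 2 * δ) : ℝ) = -(2 / δ⁻¹) - 1 by rw [div_inv_eq_mul]; ring,
      Real.rpow_sub hn, Real.rpow_one]
    ring

end PkgLIM

open PkgLIM

theorem T_LIM : P_LIM := by
  intro k hk
  have h := cf_tsum_tendsto (ι := Fin 1) (fun _ => k) (fun _ => hk) (fun _ => 2) (fun _ => two_pos)
  simp only [univ_unique, sum_const, card_singleton, one_smul, prod_const, pow_one] at h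
  have h2 := h.comp tendsto_inv_nhdsGT_zero
  have h3 := h2.const_mul ((2 : ℝ) ^ (k ^ 2))
  have e : (2 : ℝ) ^ (k ^ 2) * (aF k * 2 ^ (-(k * k))) = aF k := by
    rw [mul_left_comm, ← Real.rpow_add two_pos, show k ^ 2 + -(k * k) = 0 by ring,
      Real.rpow_zero, mul_one]
  rw [e] at h3
  refine h3.congr' ?_
  filter_upwards [self_mem_nhdsWithin] with δ hδ
  have hδ' : (0 : ℝ) < δ := hδ
  simp only [Function.comp_apply]
  have e2 : ∑' n : ℕ, cf (ι := Fin 1) (fun _ => k) (fun _ => 2 / δ⁻¹) n = mo k δ :=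
    tsum_congr fun n => cf_eq k δ n
  rw [e2, Real.inv_rpow hδ'.le, div_inv_eq_mul, Real.mul_rpow zero_le_two hδ'.le]
  ring

end Pool.Agent.T2H19.ZA
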