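import Pool.Agent.T2H19.ZA.Stm
import Pool.Agent.H306R2.Arith

/-! # Package MMM: the mean of the smooth parts -/

set_option autoImplicit false

namespace Pool.Agent.T2H19.ZA

open Finset Filter Topology MeasureTheory Pool.Agent.H306R2

namespace PkgMMM

lemma co_sq_of (k δ : ℝ) (M n : ℕ) (h : n ≠ 0 ∧ ∀ p : ℕ, p.Prime → p ∣ n → p ≤ M) :
    co k (1 / 2 + δ) M n ^ 2 = dv k n ^ 2 * (n : ℝ) ^ (-(1 + 2 * δ)) := by
  unfold co
  rw [if_pos h, mul_pow, ← Real.rpow_natCast ((n : ℝ) ^ (-(1 / 2 + δ))) 2,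
    ← Real.rpow_mul (Nat.cast_nonneg n)]
  congr 2
  push_cast
  ring

lemma co_sq_not (k δ : ℝ) (M n : ℕ) (h : ¬ (n ≠ 0 ∧ ∀ p : ℕ, p.Prime → p ∣ n → p ≤ M)) :
    co k (1 / 2 + δ) M n ^ 2 = 0 := by
  unfold co
  rw [if_neg h]
  ring

lemma co_sq_le (k δ : ℝ) (M n : ℕ) :
    co k (1 / 2 + δ) M n ^ 2 ≤ dv k n ^ 2 * (n : ℝ) ^ (-(1 + 2 * δ)) := by
  by_cases h : n ≠ 0 ∧ ∀ p : ℕ, p.Prime → p ∣ n → p ≤ M
  · exact (co_sq_of k δ M n h).le
  · rw [co_sq_not k δ M n h]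
    positivity

end PkgMMM

open PkgMMM

theorem T_MMM (hS : P_SUMM) : P_MMM := by
  intro k δ hk hδ hδ2
  obtain ⟨C, hC, hC2⟩ := hS k hk
  have hsum := (hC2 δ hδ hδ2).1
  refine ⟨?_, ?_, ?_⟩
  · refine tendsto_tsum_of_dominated_convergence hsum (fun n => ?_) ?_
    · refine tendsto_const_nhds.congr' ?_
      filter_upwards [eventually_ge_atTop n] with M hM
      rcases Nat.eq_zero_or_pos n with h0 | h0
      · rw [co_sq_not k δ M n (by simp [h0]), h0]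
        simp [dv]
      · exact (co_sq_of k δ M n ⟨h0.ne', fun p _ hp => (Nat.le_of_dvd h0 hp).trans hM⟩).symm
    · filter_upwards with M n
      rw [Real.norm_of_nonneg (sq_nonneg _)]
      exact co_sq_le k δ M n
  · have h := hsum.le_tsum 1 (fun n _ => by positivity)
    rw [dv_one, Nat.cast_one, Real.one_rpow, one_pow, mul_one] at h
    exact h
  · intro M
    have hs : Summable (fun n : ℕ => co k (1 / 2 + δ) M n ^ 2) :=
      Summable.of_nonneg_of_le (fun n => sq_nonneg _) (co_sq_le k δ M) hsum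
    have h := hs.le_tsum 1 (fun n _ => sq_nonneg _)
    rw [co_sq_of k δ M 1 ⟨one_ne_zero, fun p hp h1 => absurd (Nat.dvd_one.mp h1) hp.one_lt.ne'⟩]
      at h
    simpa [dv_one] using h

end Pool.Agent.T2H19.ZA
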