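import Pool.Agent.T2H19.ZA.Stm

/-!
# Package MS of project ZA: the mean square over `α` of the mean over `[α, α + T]`
-/

set_option autoImplicit false

namespace Pool.Agent.T2H19.ZA

open Finset Filter Topology MeasureTheory Pool.Agent.H306R2

namespace PkgMS

/-- `exp (-i l t)` -/
noncomputable def ee (l t : ℝ) : ℂ := Complex.exp (-((l * t : ℝ) : ℂ) * Complex.I)

theorem norm_ee (l t : ℝ) : ‖ee l t‖ = 1 := by
  unfold ee
  rw [← Complex.ofReal_neg, Complex.norm_exp_ofReal_mul_I]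

theorem ee_add (l s t : ℝ) : ee l (s + t) = ee l s * ee l t := by
  unfold ee
  rw [← Complex.exp_add]
  congr 1
  push_cast
  ring

theorem ee_mul (l m t : ℝ) : ee l t * ee m t = ee (l + m) t := by
  unfold ee
  rw [← Complex.exp_add]
  congr 1
  push_cast
  ring

theorem ee_conj (l t : ℝ) : (starRingEnd ℂ) (ee l t) = ee (-l) t := by
  unfold ee
  rw [← Complex.exp_conj, map_mul, map_neg, Complex.conj_ofReal, Complex.conj_I]
  congr 1
  push_cast
  ring

theorem ee_zero (t : ℝ) : ee 0 t = 1 := by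
  unfold ee
  rw [zero_mul, Complex.ofReal_zero, neg_zero, zero_mul, Complex.exp_zero]

theorem cont_ee (l : ℝ) : Continuous (ee l) := by
  unfold ee
  fun_prop

theorem cpow_eq {n : ℕ} (hn : n ≠ 0) (τ : ℝ) :
    (n : ℂ) ^ (-((τ : ℂ) * Complex.I)) = ee (Real.log n) τ := by
  unfold ee
  rw [Complex.cpow_def_of_ne_zero (Nat.cast_ne_zero.mpr hn), ← Complex.natCast_log]
  congr 1
  push_cast
  ring

/-- the mean of `exp (-i l t)` over `[0, T]` -/
noncomputable def ph (T l : ℝ) : ℂ := ((1 / T : ℝ) : ℂ) * ∫ t in (0 : ℝ)..T, ee l t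

theorem ph_le_one {T : ℝ} (hT : 0 < T) (l : ℝ) : ‖ph T l‖ ≤ 1 := by
  unfold ph
  rw [norm_mul, Complex.norm_real, Real.norm_of_nonneg (by positivity)]
  have h : ‖∫ t in (0 : ℝ)..T, ee l t‖ ≤ 1 * |T - 0| := by
    apply intervalIntegral.norm_integral_le_of_norm_le_const
    intro t _
    rw [norm_ee]
  rw [sub_zero, abs_of_pos hT, one_mul] at h
  calc 1 / T * ‖∫ t in (0 : ℝ)..T, ee l t‖ ≤ 1 / T * T := by gcongr
    _ = 1 := by field_simp

theorem ph_zero {T : ℝ} (hT : 0 < T) : ph T 0 = 1 := by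
  unfold ph
  simp only [ee_zero]
  rw [intervalIntegral.integral_const, sub_zero]
  have hT' : (T : ℂ) ≠ 0 := Complex.ofReal_ne_zero.mpr hT.ne'
  rw [Complex.real_smul, mul_one]
  push_cast
  field_simp

theorem ph_sq_le {T : ℝ} (hT : 0 < T) {l : ℝ} (hl : l ≠ 0) : ‖ph T l‖ ^ 2 ≤ 4 / (T * l) ^ 2 := by
  have hint : ∫ t in (0 : ℝ)..T, ee l t
      = (Complex.exp (-((l : ℂ) * Complex.I) * (T : ℂ)) -
          Complex.exp (-((l : ℂ) * Complex.I) * ((0 : ℝ) : ℂ))) / (-((l : ℂ) * Complex.I)) := by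
    rw [← integral_exp_mul_complex]
    · apply intervalIntegral.integral_congr
      intro t _
      unfold ee
      simp only
      congr 1
      push_cast
      ring
    · apply neg_ne_zero.mpr
      exact mul_ne_zero (Complex.ofReal_ne_zero.mpr hl) Complex.I_ne_zero
  have h2 : ‖∫ t in (0 : ℝ)..T, ee l t‖ ≤ 2 / |l| := by
    rw [hint, norm_div, norm_neg, norm_mul, Complex.norm_I, mul_one, Complex.norm_real,
      Real.norm_eq_abs]
    have h3 : ‖Complex.exp (-((l : ℂ) * Complex.I) * (T : ℂ)) -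
          Complex.exp (-((l : ℂ) * Complex.I) * ((0 : ℝ) : ℂ))‖ ≤ 2 := by
      refine (norm_sub_le _ _).trans ?_
      have e1 : -((l : ℂ) * Complex.I) * (T : ℂ) = ((-(l * T) : ℝ) : ℂ) * Complex.I := by
        push_cast
        ring
      rw [e1, Complex.norm_exp_ofReal_mul_I, Complex.ofReal_zero, mul_zero, Complex.exp_zero,
        norm_one]
      norm_num
    gcongr
  have h4 : ‖ph T l‖ ≤ 2 / (T * |l|) := by
    unfold ph
    rw [norm_mul, Complex.norm_real, Real.norm_of_nonneg (by positivity)]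
    have hl' : 0 < |l| := abs_pos.mpr hl
    calc 1 / T * ‖∫ t in (0 : ℝ)..T, ee l t‖ ≤ 1 / T * (2 / |l|) := by gcongr
      _ = 2 / (T * |l|) := by field_simp
  calc ‖ph T l‖ ^ 2 ≤ (2 / (T * |l|)) ^ 2 := by gcongr
    _ = 4 / (T * l) ^ 2 := by
        rw [div_pow, mul_pow, sq_abs, mul_pow]
        norm_num

section main

variable {c : ℕ → ℝ}

theorem sum_w (hc : ∀ n, 0 ≤ c n) (hs : Summable c) :
    Summable (fun p : ℕ × ℕ => c p.1 * c p.2) :=
  hs.mul_of_nonneg hs hc hc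

theorem norm_sq_eq (h0 : c 0 = 0) (hc : ∀ n, 0 ≤ c n) (hs : Summable c) (τ : ℝ) :
    (((‖∑' n : ℕ, (c n : ℂ) * (n : ℂ) ^ (-((τ : ℂ) * Complex.I))‖ ^ 2 : ℝ)) : ℂ) =
      ∑' p : ℕ × ℕ, ((c p.1 * c p.2 : ℝ) : ℂ) * ee (Real.log p.1 - Real.log p.2) τ := by
  have hF : ∀ n : ℕ, (c n : ℂ) * (n : ℂ) ^ (-((τ : ℂ) * Complex.I))
      = (c n : ℂ) * ee (Real.log n) τ := by
    intro n
    by_cases hn : n = 0
    · rw [hn, h0, Complex.ofReal_zero, zero_mul, zero_mul]
    · rw [cpow_eq hn]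
  simp only [hF]
  set F := ∑' n : ℕ, (c n : ℂ) * ee (Real.log n) τ with hFdef
  have hsum1 : Summable (fun n : ℕ => ‖(c n : ℂ) * ee (Real.log n) τ‖) := by
    refine hs.congr ?_
    intro n
    rw [norm_mul, norm_ee, mul_one, Complex.norm_real, Real.norm_of_nonneg (hc n)]
  have hsum2 : Summable (fun n : ℕ => ‖(c n : ℂ) * ee (-Real.log n) τ‖) := by
    refine hs.congr ?_
    intro n
    rw [norm_mul, norm_ee, mul_one, Complex.norm_real, Real.norm_of_nonneg (hc n)]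
  have hconj : (starRingEnd ℂ) F = ∑' n : ℕ, (c n : ℂ) * ee (-Real.log n) τ := by
    rw [hFdef, Complex.conj_tsum]
    apply tsum_congr
    intro n
    rw [map_mul, Complex.conj_ofReal, ee_conj]
  have h1 : (((‖F‖ ^ 2 : ℝ)) : ℂ) = F * (starRingEnd ℂ) F := by
    rw [Complex.mul_conj, Complex.normSq_eq_norm_sq]
  rw [h1, hconj, hFdef, tsum_mul_tsum_of_summable_norm hsum1 hsum2]
  apply tsum_congr
  rintro ⟨m, n⟩
  have h2 := ee_mul (Real.log m) (-Real.log n) τ
  simp only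
  rw [sub_eq_add_neg, ← h2]
  push_cast
  ring

theorem JD_eq (h0 : c 0 = 0) (hc : ∀ n, 0 ≤ c n) (hs : Summable c) {T : ℝ} (hT : 0 < T) (α : ℝ) :
    ((JD c T α : ℝ) : ℂ) =
      ∑' p : ℕ × ℕ, ((c p.1 * c p.2 : ℝ) : ℂ) * ph T (Real.log p.1 - Real.log p.2) *
        ee (Real.log p.1 - Real.log p.2) α := by
  unfold JD
  have hw := sum_w hc hs
  have hpt : ∀ t : ℝ, (((‖∑' n : ℕ, (c n : ℂ) *
      (n : ℂ) ^ (-(((α + t : ℝ) : ℂ) * Complex.I))‖ ^ 2 : ℝ)) : ℂ) =
      ∑' p : ℕ × ℕ, ((c p.1 * c p.2 : ℝ) : ℂ) * ee (Real.log p.1 - Real.log p.2) (α + t) := by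
    intro t
    exact norm_sq_eq h0 hc hs (α + t)
  have hsumpt : ∀ t : ℝ, HasSum
      (fun p : ℕ × ℕ => ((c p.1 * c p.2 : ℝ) : ℂ) * ee (Real.log p.1 - Real.log p.2) (α + t))
      (((‖∑' n : ℕ, (c n : ℂ) * (n : ℂ) ^ (-(((α + t : ℝ) : ℂ) * Complex.I))‖ ^ 2 : ℝ)) : ℂ) := by
    intro t
    rw [hpt t]
    apply Summable.hasSum
    apply Summable.of_norm
    refine hw.congr ?_
    intro p
    rw [norm_mul, norm_ee, mul_one, Complex.norm_real,
      Real.norm_of_nonneg (mul_nonneg (hc _) (hc _))]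
  have key := intervalIntegral.hasSum_integral_of_dominated_convergence
    (μ := volume) (a := (0 : ℝ)) (b := T)
    (F := fun (p : ℕ × ℕ) (t : ℝ) =>
      ((c p.1 * c p.2 : ℝ) : ℂ) * ee (Real.log p.1 - Real.log p.2) (α + t))
    (f := fun t : ℝ => (((‖∑' n : ℕ, (c n : ℂ) *
      (n : ℂ) ^ (-(((α + t : ℝ) : ℂ) * Complex.I))‖ ^ 2 : ℝ)) : ℂ))
    (fun (p : ℕ × ℕ) (_ : ℝ) => c p.1 * c p.2)
    (by
      intro p
      apply Continuous.aestronglyMeasurable
      exact continuous_const.mul ((cont_ee _).comp (continuous_const.add continuous_id)))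
    (by
      intro p
      apply Filter.Eventually.of_forall
      intro t _
      rw [norm_mul, norm_ee, mul_one, Complex.norm_real,
        Real.norm_of_nonneg (mul_nonneg (hc _) (hc _))])
    (by
      apply Filter.Eventually.of_forall
      intro t _
      exact hw)
    (by exact intervalIntegrable_const)
    (by
      apply Filter.Eventually.of_forall
      intro t _
      exact hsumpt t)
  rw [Complex.ofReal_mul, ← intervalIntegral.integral_ofReal, ← key.tsum_eq, ← tsum_mul_left]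
  apply tsum_congr
  intro p
  have e1 : ∫ t in (0 : ℝ)..T, ((c p.1 * c p.2 : ℝ) : ℂ) *
      ee (Real.log p.1 - Real.log p.2) (α + t)
      = ((c p.1 * c p.2 : ℝ) : ℂ) * ee (Real.log p.1 - Real.log p.2) α *
        ∫ t in (0 : ℝ)..T, ee (Real.log p.1 - Real.log p.2) t := by
    rw [← intervalIntegral.integral_const_mul]
    apply intervalIntegral.integral_congr
    intro t _
    simp only
    rw [ee_add]
    ring
  rw [e1]
  unfold ph
  ring

/-- coprime pairs of positive integers -/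
abbrev IX : Type := {q : ℕ × ℕ // 1 ≤ q.1 ∧ 1 ≤ q.2 ∧ q.1.Coprime q.2}

/-- the pair `(1, 1)` -/
def q0 : IX := ⟨(1, 1), le_refl 1, le_refl 1, Nat.coprime_one_left 1⟩

/-- the exponent -/
noncomputable def lam (q : IX) : ℝ := Real.log q.1.1 - Real.log q.1.2

theorem lam_eq (q : IX) : lam q = Real.log ((q.1.1 : ℝ) / q.1.2) := by
  unfold lam
  rw [Real.log_div]
  · exact Nat.cast_ne_zero.mpr (by have := q.2.1; omega)
  · exact Nat.cast_ne_zero.mpr (by have := q.2.2.1; omega)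

theorem ix_eq {a b a' b' : ℕ} (ha : 1 ≤ a) (_hb : 1 ≤ b) (hab : a.Coprime b)
    (hab' : a'.Coprime b') (h : a * b' = a' * b) : a = a' ∧ b = b' := by
  have h1 : a ∣ a' := by
    have : a ∣ a' * b := ⟨b', h.symm⟩
    exact hab.dvd_of_dvd_mul_right this
  have h2 : a' ∣ a := by
    have : a' ∣ a * b' := ⟨b, h⟩
    exact hab'.dvd_of_dvd_mul_right this
  have h3 : a = a' := Nat.dvd_antisymm h1 h2
  subst h3
  refine ⟨rfl, ?_⟩
  exact (Nat.eq_of_mul_eq_mul_left (by omega) h).symm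

theorem lam_inj : Function.Injective lam := by
  intro q q' h
  rw [lam_eq, lam_eq] at h
  have p1 : (0 : ℝ) < q.1.1 := by exact_mod_cast q.2.1
  have p2 : (0 : ℝ) < q.1.2 := by exact_mod_cast q.2.2.1
  have p3 : (0 : ℝ) < q'.1.1 := by exact_mod_cast q'.2.1
  have p4 : (0 : ℝ) < q'.1.2 := by exact_mod_cast q'.2.2.1
  have h2 := Real.log_injOn_pos (Set.mem_Ioi.mpr (div_pos p1 p2))
    (Set.mem_Ioi.mpr (div_pos p3 p4)) h
  rw [div_eq_div_iff p2.ne' p4.ne'] at h2
  have h3 : q.1.1 * q'.1.2 = q'.1.1 * q.1.2 := by exact_mod_cast h2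
  obtain ⟨e1, e2⟩ := ix_eq q.2.1 q.2.2.1 q.2.2.2 q'.2.2.2 h3
  apply Subtype.ext
  exact Prod.ext e1 e2

theorem lam_ne {q : IX} (h : q ≠ q0) : q.1.1 ≠ q.1.2 ∧ lam q ≠ 0 := by
  have h1 : q.1.1 ≠ q.1.2 := by
    intro he
    apply h
    have hc := q.2.2.2
    rw [← he, Nat.coprime_self] at hc
    apply Subtype.ext
    apply Prod.ext
    · exact hc
    · rw [← he]
      exact hc
  refine ⟨h1, ?_⟩
  have h0 : lam q0 = 0 := by
    unfold lam q0
    simp
  intro hl
  exact h (lam_inj (hl.trans h0.symm))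

/-- the parametrisation of the pairs of positive integers -/
def psi (x : IX × ℕ) : ℕ × ℕ := ((x.2 + 1) * x.1.1.1, (x.2 + 1) * x.1.1.2)

theorem psi_inj : Function.Injective psi := by
  rintro ⟨q, g⟩ ⟨q', g'⟩ h
  unfold psi at h
  rw [Prod.mk.injEq] at h
  obtain ⟨h1, h2⟩ := h
  simp only at h1 h2
  have hcross : q.1.1 * q'.1.2 = q'.1.1 * q.1.2 := by
    have h3 : ((g + 1) * (g' + 1)) * (q.1.1 * q'.1.2) = ((g + 1) * (g' + 1)) * (q'.1.1 * q.1.2) := by
      calc ((g + 1) * (g' + 1)) * (q.1.1 * q'.1.2)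
          = ((g + 1) * q.1.1) * ((g' + 1) * q'.1.2) := by ring
        _ = ((g' + 1) * q'.1.1) * ((g + 1) * q.1.2) := by rw [h1, h2]
        _ = ((g + 1) * (g' + 1)) * (q'.1.1 * q.1.2) := by ring
    exact Nat.eq_of_mul_eq_mul_left (by positivity) h3
  obtain ⟨e1, e2⟩ := ix_eq q.2.1 q.2.2.1 q.2.2.2 q'.2.2.2 hcross
  have e3 : q = q' := Subtype.ext (Prod.ext e1 e2)
  subst e3
  have e4 : g + 1 = g' + 1 := Nat.eq_of_mul_eq_mul_right (by have := q.2.1; omega) h1
  rw [Prod.mk.injEq]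
  exact ⟨rfl, by omega⟩

theorem mem_range_psi {p : ℕ × ℕ} (h1 : p.1 ≠ 0) (h2 : p.2 ≠ 0) : p ∈ Set.range psi := by
  have hg : 0 < Nat.gcd p.1 p.2 := Nat.gcd_pos_of_pos_left _ (Nat.pos_of_ne_zero h1)
  refine ⟨(⟨(p.1 / Nat.gcd p.1 p.2, p.2 / Nat.gcd p.1 p.2), ?_, ?_, ?_⟩, Nat.gcd p.1 p.2 - 1), ?_⟩
  · exact Nat.div_pos (Nat.le_of_dvd (Nat.pos_of_ne_zero h1) (Nat.gcd_dvd_left _ _)) hg
  · exact Nat.div_pos (Nat.le_of_dvd (Nat.pos_of_ne_zero h2) (Nat.gcd_dvd_right _ _)) hg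
  · exact Nat.coprime_div_gcd_div_gcd hg
  · unfold psi
    simp only
    rw [Nat.sub_add_cancel hg, Nat.mul_div_cancel' (Nat.gcd_dvd_left _ _),
      Nat.mul_div_cancel' (Nat.gcd_dvd_right _ _)]

theorem lam_psi (q : IX) (g : ℕ) :
    Real.log ((psi (q, g)).1 : ℕ) - Real.log ((psi (q, g)).2 : ℕ) = lam q := by
  unfold psi lam
  simp only
  have p0 : ((g + 1 : ℕ) : ℝ) ≠ 0 := Nat.cast_ne_zero.mpr (by omega)
  have p1 : ((q.1.1 : ℕ) : ℝ) ≠ 0 := Nat.cast_ne_zero.mpr (by have := q.2.1; omega)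
  have p2 : ((q.1.2 : ℕ) : ℝ) ≠ 0 := Nat.cast_ne_zero.mpr (by have := q.2.2.1; omega)
  rw [Nat.cast_mul, Nat.cast_mul, Real.log_mul p0 p1, Real.log_mul p0 p2]
  ring

/-- the coefficient -/
noncomputable def co2 (c : ℕ → ℝ) (q : IX) : ℝ := ∑' g : ℕ, c (g * q.1.1) * c (g * q.1.2)

theorem sum_psi (hc : ∀ n, 0 ≤ c n) (hs : Summable c) :
    Summable (fun x : IX × ℕ => c (psi x).1 * c (psi x).2) :=
  (sum_w hc hs).comp_injective psi_inj

theorem sum_g (hc : ∀ n, 0 ≤ c n) (hs : Summable c) (q : IX) :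
    Summable (fun g : ℕ => c ((g + 1) * q.1.1) * c ((g + 1) * q.1.2)) :=
  (sum_psi hc hs).comp_injective (i := fun g : ℕ => (q, g)) (fun g g' h => (Prod.mk.inj h).2)

theorem co2_eq (h0 : c 0 = 0) (hc : ∀ n, 0 ≤ c n) (hs : Summable c) (q : IX) :
    HasSum (fun g : ℕ => c ((g + 1) * q.1.1) * c ((g + 1) * q.1.2)) (co2 c q) := by
  have h1 := sum_g hc hs q
  have h2 : Summable (fun g : ℕ => c (g * q.1.1) * c (g * q.1.2)) := by
    rw [← summable_nat_add_iff 1]
    exact h1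
  have h3 := h2.tsum_eq_zero_add
  unfold co2
  rw [h3]
  rw [zero_mul, zero_mul, h0, mul_zero, zero_add]
  exact h1.hasSum

theorem co2_nonneg (hc : ∀ n, 0 ≤ c n) (q : IX) : 0 ≤ co2 c q :=
  tsum_nonneg fun _ => mul_nonneg (hc _) (hc _)

theorem sum_co2 (h0 : c 0 = 0) (hc : ∀ n, 0 ≤ c n) (hs : Summable c) : Summable (co2 c) := by
  have h := (summable_prod_of_nonneg (f := fun x : IX × ℕ => c (psi x).1 * c (psi x).2)
    (fun x => mul_nonneg (hc _) (hc _))).mp (sum_psi hc hs)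
  refine h.2.congr ?_
  intro q
  exact (co2_eq h0 hc hs q).tsum_eq

theorem co2_q0 : co2 c q0 = ∑' n : ℕ, c n ^ 2 := by
  unfold co2 q0
  apply tsum_congr
  intro g
  simp only [mul_one]
  ring

theorem JD_eq2 (h0 : c 0 = 0) (hc : ∀ n, 0 ≤ c n) (hs : Summable c) {T : ℝ} (hT : 0 < T) (α : ℝ) :
    HasSum (fun q : IX => ((co2 c q : ℝ) : ℂ) * ph T (lam q) * ee (lam q) α)
      ((JD c T α : ℝ) : ℂ) := by
  set f : ℕ × ℕ → ℂ := fun p => ((c p.1 * c p.2 : ℝ) : ℂ) * ph T (Real.log p.1 - Real.log p.2) *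
        ee (Real.log p.1 - Real.log p.2) α with hf
  have hfs : Summable f := by
    apply Summable.of_norm
    refine Summable.of_nonneg_of_le (fun _ => norm_nonneg _) ?_ (sum_w hc hs)
    intro p
    rw [hf]
    simp only
    rw [norm_mul, norm_mul, norm_ee, mul_one, Complex.norm_real,
      Real.norm_of_nonneg (mul_nonneg (hc _) (hc _))]
    exact mul_le_of_le_one_right (mul_nonneg (hc _) (hc _)) (ph_le_one hT _)
  have hsupp : Function.support f ⊆ Set.range psi := by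
    intro p hp
    rw [Function.mem_support] at hp
    apply mem_range_psi
    · intro h1
      apply hp
      rw [hf]
      simp only
      rw [h1, h0, zero_mul, Complex.ofReal_zero, zero_mul, zero_mul]
    · intro h1
      apply hp
      rw [hf]
      simp only
      rw [h1, h0, mul_zero, Complex.ofReal_zero, zero_mul, zero_mul]
  have h1 : HasSum f ((JD c T α : ℝ) : ℂ) := by
    rw [JD_eq h0 hc hs hT α]
    exact hfs.hasSum
  have h2 : HasSum (f ∘ psi) ((JD c T α : ℝ) : ℂ) :=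
    (Function.Injective.hasSum_iff psi_inj (fun x hx => by
      by_contra hne
      exact hx (hsupp hne))).mpr h1
  have h3 : ∀ q : IX, HasSum (fun g : ℕ => (f ∘ psi) (q, g))
      (((co2 c q : ℝ) : ℂ) * ph T (lam q) * ee (lam q) α) := by
    intro q
    have h4 : HasSum (fun g : ℕ => ((c ((g + 1) * q.1.1) * c ((g + 1) * q.1.2) : ℝ) : ℂ))
        ((co2 c q : ℝ) : ℂ) := by
      rw [Complex.hasSum_ofReal]
      exact co2_eq h0 hc hs q
    have h5 := (h4.mul_right (ph T (lam q))).mul_right (ee (lam q) α)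
    refine h5.congr_fun ?_
    intro g
    rw [Function.comp_apply, hf]
    simp only
    rw [lam_psi q g]
    rfl
  exact h2.prod_fiberwise h3

end main

end PkgMS

open PkgMS in
theorem T_MS (hP : P_PAR) : P_MS := by
  intro c h0 hc hs T hT W hW hWs hbound ε hε
  classical
  set x : IX → ℂ := fun q => if q = q0 then 0 else ((co2 c q : ℝ) : ℂ) * ph T (lam q) with hx
  have hxn : ∀ q, ‖x q‖ ≤ co2 c q := by
    intro q
    rw [hx]
    simp only
    split_ifs with h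
    · rw [norm_zero]
      exact co2_nonneg hc q
    · rw [norm_mul, Complex.norm_real, Real.norm_of_nonneg (co2_nonneg hc q)]
      exact mul_le_of_le_one_right (co2_nonneg hc q) (ph_le_one hT _)
  have hxs : Summable (fun q => ‖x q‖) :=
    Summable.of_nonneg_of_le (fun _ => norm_nonneg _) hxn (sum_co2 h0 hc hs)
  have hlim := hP IX x lam hxs lam_inj
  have hle : ∑' q, ‖x q‖ ^ 2 ≤ ∑' q : ℕ × ℕ, W q := by
    have h1 : ∀ q : IX, ‖x q‖ ^ 2 ≤ W q.1 := by
      intro q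
      rw [hx]
      simp only
      split_ifs with h
      · rw [norm_zero]
        norm_num
        exact hW _
      · obtain ⟨hne, hl⟩ := lam_ne h
        refine le_trans ?_ (hbound q.1.1 q.1.2 q.2.1 q.2.2.1 q.2.2.2 hne)
        rw [norm_mul, Complex.norm_real, Real.norm_of_nonneg (co2_nonneg hc q), mul_pow]
        apply mul_le_mul_of_nonneg_left _ (sq_nonneg _)
        unfold ker
        rw [le_min_iff]
        refine ⟨?_, ?_⟩
        · exact pow_le_one₀ (norm_nonneg _) (ph_le_one hT _)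
        · rw [← lam_eq]
          exact ph_sq_le hT hl
    have hWsub : Summable (fun q : IX => W q.1) := hWs.comp_injective Subtype.val_injective
    have h2 : Summable (fun q : IX => ‖x q‖ ^ 2) :=
      Summable.of_nonneg_of_le (fun _ => sq_nonneg _) h1 hWsub
    calc ∑' q, ‖x q‖ ^ 2 ≤ ∑' q : IX, W q.1 := h2.tsum_le_tsum h1 hWsub
      _ ≤ ∑' q : ℕ × ℕ, W q := Summable.tsum_subtype_le W _ hW hWs
  have hev : ∀ᶠ H : ℝ in atTop,
      1 / H * ∫ α in (0 : ℝ)..H, ‖∑' q, x q * Complex.exp (-((lam q * α : ℝ) : ℂ) * Complex.I)‖ ^ 2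
        < ∑' q : ℕ × ℕ, W q + ε :=
    hlim.eventually_lt_const (by linarith)
  obtain ⟨H₁, hH₁⟩ := Filter.eventually_atTop.mp hev
  refine ⟨max H₁ 1, lt_of_lt_of_le one_pos (le_max_right _ _), ?_⟩
  intro H hH
  have hHpos : 0 < H := lt_of_lt_of_le one_pos ((le_max_right _ _).trans hH)
  have h3 := hH₁ H ((le_max_left _ _).trans hH)
  have hid : ∀ α : ℝ, (JD c T α - ∑' n : ℕ, c n ^ 2) ^ 2
      = ‖∑' q, x q * Complex.exp (-((lam q * α : ℝ) : ℂ) * Complex.I)‖ ^ 2 := by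
    intro α
    have h4 := JD_eq2 h0 hc hs hT α
    have h5 : ∑' q, x q * Complex.exp (-((lam q * α : ℝ) : ℂ) * Complex.I)
        = ((JD c T α - ∑' n : ℕ, c n ^ 2 : ℝ) : ℂ) := by
      have h6 := h4.summable.tsum_eq_add_tsum_ite q0
      rw [h4.tsum_eq] at h6
      have h7 : ((co2 c q0 : ℝ) : ℂ) * ph T (lam q0) * ee (lam q0) α
          = ((∑' n : ℕ, c n ^ 2 : ℝ) : ℂ) := by
        have hl0 : lam q0 = 0 := by
          unfold lam q0
          simp
        rw [hl0, ph_zero hT, ee_zero, mul_one, mul_one, co2_q0]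
      rw [h7] at h6
      rw [Complex.ofReal_sub, h6, add_sub_cancel_left]
      apply tsum_congr
      intro q
      rw [hx]
      simp only
      split_ifs with h
      · rw [zero_mul]
      · rfl
    rw [h5, Complex.norm_real, Real.norm_eq_abs, sq_abs]
  have h8 : ∫ α in (0 : ℝ)..H, (JD c T α - ∑' n : ℕ, c n ^ 2) ^ 2
      = ∫ α in (0 : ℝ)..H, ‖∑' q, x q * Complex.exp (-((lam q * α : ℝ) : ℂ) * Complex.I)‖ ^ 2 :=
    intervalIntegral.integral_congr (fun α _ => hid α)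
  rw [h8]
  have h9 : ∀ Z : ℝ, Z = (1 / H * Z) * H := fun Z => by field_simp
  rw [h9 (∫ α in (0 : ℝ)..H, ‖∑' q, x q * Complex.exp (-((lam q * α : ℝ) : ℂ) * Complex.I)‖ ^ 2)]
  exact mul_le_mul_of_nonneg_right h3.le hHpos.le

end Pool.Agent.T2H19.ZA
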