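import Pool.Agent.T2H19.ZA.Stm

/-! # Package PAR -/

set_option autoImplicit false

namespace Pool.Agent.T2H19.ZA

open Finset Filter Topology MeasureTheory Pool.Agent.H306R2

namespace PkgPAR

/-- the exponential -/
noncomputable def ex (l α : ℝ) : ℂ := Complex.exp (-((l * α : ℝ) : ℂ) * Complex.I)

lemma norm_ex (l α : ℝ) : ‖ex l α‖ = 1 := by
  unfold ex
  rw [← Complex.ofReal_neg]
  exact Complex.norm_exp_ofReal_mul_I _

lemma ex_zero (l : ℝ) : ex l 0 = 1 := by simp [ex]

lemma zero_ex (α : ℝ) : ex 0 α = 1 := by simp [ex]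

lemma ex_cont (l : ℝ) : Continuous (ex l) := by
  unfold ex
  fun_prop

lemma ex_mul_conj (l m α : ℝ) : ex l α * (starRingEnd ℂ) (ex m α) = ex (l - m) α := by
  unfold ex
  rw [← Complex.exp_conj, ← Complex.exp_add]
  congr 1
  simp only [map_mul, map_neg, Complex.conj_ofReal, Complex.conj_I]
  push_cast
  ring

lemma int_le (l : ℝ) {H : ℝ} (hH : 0 < H) : ‖(1 / (H : ℂ)) * ∫ α in (0 : ℝ)..H, ex l α‖ ≤ 1 := by
  have h1 : ‖∫ α in (0 : ℝ)..H, ex l α‖ ≤ 1 * |H - 0| :=
    intervalIntegral.norm_integral_le_of_norm_le_const fun α _ => (norm_ex l α).le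
  rw [sub_zero, abs_of_pos hH, one_mul] at h1
  rw [norm_mul, norm_div, norm_one, Complex.norm_real, Real.norm_of_nonneg hH.le, one_div,
    inv_mul_le_iff₀ hH, mul_one]
  exact h1

lemma int_tendsto {l : ℝ} (hl : l ≠ 0) :
    Tendsto (fun H : ℝ => (1 / (H : ℂ)) * ∫ α in (0 : ℝ)..H, ex l α) atTop (𝓝 0) := by
  have hc : (-((l : ℂ)) * Complex.I) ≠ 0 := by
    simp [hl]
  have h1 : ∀ H : ℝ, ∫ α in (0 : ℝ)..H, ex l α =
      (Complex.exp ((-(l : ℂ) * Complex.I) * H) - 1) / (-(l : ℂ) * Complex.I) := by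
    intro H
    have h2 := integral_exp_mul_complex (a := 0) (b := H) hc
    rw [Complex.ofReal_zero, mul_zero, Complex.exp_zero] at h2
    rw [← h2]
    refine intervalIntegral.integral_congr fun α _ => ?_
    simp only [ex]
    congr 1
    push_cast
    ring
  have h3 : ∀ᶠ H : ℝ in atTop, ‖(1 / (H : ℂ)) * ∫ α in (0 : ℝ)..H, ex l α‖ ≤
      H⁻¹ * (2 / |l|) := by
    filter_upwards [eventually_gt_atTop (0 : ℝ)] with H hH
    rw [norm_mul, norm_div, norm_one, Complex.norm_real, Real.norm_of_nonneg hH.le, one_div]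
    refine mul_le_mul_of_nonneg_left ?_ (by positivity)
    rw [h1, norm_div]
    have h4 : ‖-(l : ℂ) * Complex.I‖ = |l| := by
      rw [norm_mul, norm_neg, Complex.norm_real, Complex.norm_I, mul_one, Real.norm_eq_abs]
    rw [h4]
    refine div_le_div_of_nonneg_right ?_ (abs_nonneg l)
    have h5 : ‖Complex.exp ((-(l : ℂ) * Complex.I) * H)‖ = 1 := by
      have : (-(l : ℂ) * Complex.I) * H = ((-(l * H) : ℝ) : ℂ) * Complex.I := by
        push_cast; ring
      rw [this]
      exact Complex.norm_exp_ofReal_mul_I _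
    calc ‖Complex.exp ((-(l : ℂ) * Complex.I) * H) - 1‖
        ≤ ‖Complex.exp ((-(l : ℂ) * Complex.I) * H)‖ + ‖(1 : ℂ)‖ := norm_sub_le _ _
      _ = 2 := by rw [h5, norm_one]; norm_num
  refine squeeze_zero_norm' h3 ?_
  have h6 := (tendsto_inv_atTop_zero (𝕜 := ℝ)).mul_const (2 / |l|)
  simpa using h6

end PkgPAR

open PkgPAR

theorem T_PAR : P_PAR := by
  classical
  intro ι _ x lam hx hlam
  set F : ℝ → ℂ := fun α => ∑' i, x i * ex (lam i) α with hF
  have hsn : ∀ α : ℝ, Summable (fun i => ‖x i * ex (lam i) α‖) := by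
    intro α
    refine hx.congr fun i => ?_
    rw [norm_mul, norm_ex, mul_one]
  have hsc : ∀ α : ℝ, Summable (fun i => ‖(starRingEnd ℂ) (x i * ex (lam i) α)‖) := by
    intro α
    refine (hsn α).congr fun i => ?_
    rw [RCLike.norm_conj]
  -- the coefficients
  set c : ι × ι → ℂ := fun q => x q.1 * (starRingEnd ℂ) (x q.2) with hc
  have hcn : Summable (fun q => ‖c q‖) := by
    have hx' : Summable (fun i => ‖(starRingEnd ℂ) (x i)‖) := by
      refine hx.congr fun i => ?_
      rw [RCLike.norm_conj]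
    exact (summable_mul_of_summable_norm hx hx').norm
  have hsum : ∀ α : ℝ, HasSum (fun q : ι × ι => c q * ex (lam q.1 - lam q.2) α)
      (F α * (starRingEnd ℂ) (F α)) := by
    intro α
    have h1 : (starRingEnd ℂ) (F α) = ∑' i, (starRingEnd ℂ) (x i * ex (lam i) α) := by
      rw [hF]
      exact Complex.conj_tsum _
    have h2 := tsum_mul_tsum_of_summable_norm (hsn α) (hsc α)
    have h3 := summable_mul_of_summable_norm (hsn α) (hsc α)
    rw [h1]
    have h4 : HasSum (fun q : ι × ι => (x q.1 * ex (lam q.1) α) *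
        (starRingEnd ℂ) (x q.2 * ex (lam q.2) α))
        (F α * ∑' i, (starRingEnd ℂ) (x i * ex (lam i) α)) := by
      rw [hF]
      dsimp only
      rw [h2]
      exact h3.hasSum
    refine h4.congr_fun fun q => ?_
    rw [map_mul, ← ex_mul_conj]
    simp only [hc]
    ring
  -- the mean
  have hmean : ∀ H : ℝ, ((1 / H * ∫ α in (0 : ℝ)..H, ‖F α‖ ^ 2 : ℝ) : ℂ) =
      ∑' q : ι × ι, c q * ((1 / (H : ℂ)) * ∫ α in (0 : ℝ)..H, ex (lam q.1 - lam q.2) α) := by
    intro H
    have h1 : ((∫ α in (0 : ℝ)..H, ‖F α‖ ^ 2 : ℝ) : ℂ) =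
        ∫ α in (0 : ℝ)..H, F α * (starRingEnd ℂ) (F α) := by
      rw [← intervalIntegral.integral_ofReal]
      refine intervalIntegral.integral_congr fun α _ => ?_
      show ((‖F α‖ ^ 2 : ℝ) : ℂ) = F α * (starRingEnd ℂ) (F α)
      rw [Complex.mul_conj, Complex.normSq_eq_norm_sq]
    have h2 := intervalIntegral.hasSum_integral_of_dominated_convergence (μ := volume)
      (a := 0) (b := H)
      (F := fun (q : ι × ι) α => c q * ex (lam q.1 - lam q.2) α)
      (f := fun α => F α * (starRingEnd ℂ) (F α)) (fun q _ => ‖c q‖)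
      (fun q => ((continuous_const.mul (ex_cont _)).aestronglyMeasurable))
      (fun q => Eventually.of_forall fun t _ => by
        rw [norm_mul, norm_ex, mul_one])
      (Eventually.of_forall fun t _ => hcn) (intervalIntegrable_const)
      (Eventually.of_forall fun t _ => hsum t)
    push_cast
    rw [h1, ← h2.tsum_eq, ← tsum_mul_left]
    refine tsum_congr fun q => ?_
    rw [intervalIntegral.integral_const_mul]
    ring
  have hlim : Tendsto (fun H : ℝ => ∑' q : ι × ι,
      c q * ((1 / (H : ℂ)) * ∫ α in (0 : ℝ)..H, ex (lam q.1 - lam q.2) α)) atTop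
      (𝓝 (∑' q : ι × ι, c q * (if q.1 = q.2 then 1 else 0))) := by
    refine tendsto_tsum_of_dominated_convergence (bound := fun q => ‖c q‖) hcn ?_ ?_
    · intro q
      refine Tendsto.const_mul _ ?_
      by_cases h : q.1 = q.2
      · rw [if_pos h]
        refine tendsto_const_nhds.congr' ?_
        filter_upwards [eventually_gt_atTop (0 : ℝ)] with H hH
        have h1 : ∫ α in (0 : ℝ)..H, ex (lam q.1 - lam q.2) α = (H : ℂ) := by
          rw [h, sub_self]
          simp [zero_ex]
        rw [h1, one_div, inv_mul_cancel₀]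
        exact_mod_cast hH.ne'
      · rw [if_neg h]
        exact int_tendsto (sub_ne_zero.2 fun h' => h (hlam h'))
    · filter_upwards [eventually_gt_atTop (0 : ℝ)] with H hH q
      rw [norm_mul]
      exact mul_le_of_le_one_right (norm_nonneg _) (int_le _ hH)
  have hval : ∑' q : ι × ι, c q * (if q.1 = q.2 then 1 else 0) =
      ((∑' i, ‖x i‖ ^ 2 : ℝ) : ℂ) := by
    have hinj : Function.Injective (fun i : ι => (i, i)) := fun i j h => (Prod.ext_iff.1 h).1
    rw [← hinj.tsum_eq (f := fun q : ι × ι => c q * (if q.1 = q.2 then 1 else 0)), Complex.ofReal_tsum]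
    · refine tsum_congr fun i => ?_
      simp only [hc, if_true, mul_one]
      rw [Complex.mul_conj, Complex.normSq_eq_norm_sq]
    · intro q hq
      rw [Function.mem_support] at hq
      by_cases h : q.1 = q.2
      · exact ⟨q.1, Prod.ext rfl h⟩
      · rw [if_neg h, mul_zero] at hq
        exact absurd rfl hq
  rw [hval] at hlim
  have h1 := (Complex.continuous_re.tendsto _).comp hlim
  rw [Complex.ofReal_re] at h1
  refine h1.congr fun H => ?_
  rw [Function.comp_apply, ← hmean H, Complex.ofReal_re]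
  rfl

end Pool.Agent.T2H19.ZA
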