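import Pool.Agent.T2H19.ZA.Stm
import Pool.Agent.Y756.T.Loc

/-! # Package POW -/

set_option autoImplicit false

namespace Pool.Agent.T2H19.ZA

open Finset Filter Topology MeasureTheory Pool.Agent.H306R2

namespace PkgPOW

lemma lc_hasSum_complex (k : ℝ) {z : ℂ} (hz : ‖z‖ < 1) :
    HasSum (fun m : ℕ => ((lc k m : ℝ) : ℂ) * z ^ m) (1 / (1 - z) ^ (k : ℂ)) := by
  have h := (Complex.one_div_one_sub_cpow_hasFPowerSeriesOnBall_zero (k : ℂ)).hasSum
    (y := z) (by
      rw [← ENNReal.ofReal_one, Metric.eball_ofReal]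
      simpa using hz)
  simp only [zero_add] at h
  refine h.congr_fun fun m => ?_
  rw [FormalMultilinearSeries.ofScalars_apply_eq, smul_eq_mul, ← Pool.Agent.Y756.T.lc_choose]
  congr 1
  rw [Complex.ofReal_choose]
  push_cast
  rfl

lemma norm_tsum {k : ℝ} {z : ℂ} (hz : ‖z‖ < 1) :
    ‖∑' m : ℕ, ((lc k m : ℝ) : ℂ) * z ^ m‖ = ‖1 - z‖ ^ (-k) := by
  rw [(lc_hasSum_complex k hz).tsum_eq, norm_div, norm_one, Complex.norm_cpow_real,
    Real.rpow_neg (norm_nonneg _), one_div]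

/-- the summand -/
noncomputable def fn (k : ℝ) (s : ℂ) (n : ℕ) : ℂ := ((dv k n : ℝ) : ℂ) * (n : ℂ) ^ (-s)

lemma fn_one (k : ℝ) (s : ℂ) : fn k s 1 = 1 := by simp [fn, dv_one]

lemma fn_mul (k : ℝ) (s : ℂ) {m n : ℕ} (h : m.Coprime n) :
    fn k s (m * n) = fn k s m * fn k s n := by
  unfold fn
  have h1 : dv k (m * n) = dv k m * dv k n := by
    have := (dA_mult k).map_mul_of_coprime h
    simpa [dA_apply] using this
  rw [h1, Nat.cast_mul, Complex.natCast_mul_natCast_cpow]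
  push_cast
  ring

lemma cpow_pow (p : ℕ) (w : ℂ) (j : ℕ) : ((p ^ j : ℕ) : ℂ) ^ w = ((p : ℂ) ^ w) ^ j := by
  induction j with
  | zero => simp
  | succ j ih =>
    rw [pow_succ, Nat.cast_mul, Complex.natCast_mul_natCast_cpow, ih, pow_succ]

lemma fn_prime_pow (k : ℝ) (s : ℂ) {p : ℕ} (hp : p.Prime) (j : ℕ) :
    fn k s (p ^ j) = ((lc k j : ℝ) : ℂ) * ((p : ℂ) ^ (-s)) ^ j := by
  unfold fn
  rw [dv_prime_pow k hp, cpow_pow]

lemma norm_lt {p : ℕ} (hp : p.Prime) {s : ℂ} (hs : 0 < s.re) : ‖(p : ℂ) ^ (-s)‖ < 1 := by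
  rw [Complex.norm_natCast_cpow_of_pos hp.pos]
  refine Real.rpow_lt_one_of_one_lt_of_neg (by exact_mod_cast hp.one_lt) ?_
  simpa using hs

lemma fn_summable {k : ℝ} (hk : 0 < k) {s : ℂ} (hs : 0 < s.re) {p : ℕ} (hp : p.Prime) :
    Summable (fun n : ℕ => ‖fn k s (p ^ n)‖) := by
  have h := (Pool.Agent.Y756.T.lc_hasSum k (norm_nonneg ((p : ℂ) ^ (-s))) (norm_lt hp hs)).summable
  refine h.congr fun j => ?_
  rw [fn_prime_pow k s hp, norm_mul, norm_pow, Complex.norm_real,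
    Real.norm_of_nonneg (lc_nonneg hk.le j)]

open Classical in
lemma co_mul (k σ τ : ℝ) (M n : ℕ) :
    (co k σ M n : ℂ) * (n : ℂ) ^ (-((τ : ℂ) * Complex.I)) =
      ((M + 1).smoothNumbers : Set ℕ).indicator (fn k ((σ : ℂ) + (τ : ℂ) * Complex.I)) n := by
  have hiff : n ∈ (M + 1).smoothNumbers ↔ (n ≠ 0 ∧ ∀ p : ℕ, p.Prime → p ∣ n → p ≤ M) := by
    rw [Nat.mem_smoothNumbers']
    constructor
    · rintro h
      have h0 : n ≠ 0 := by
        rintro rfl
        obtain ⟨p, hp1, hp2⟩ := Nat.exists_infinite_primes (M + 1)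
        have := h p hp2 (dvd_zero p)
        omega
      exact ⟨h0, fun p hp hd => Nat.lt_succ_iff.1 (h p hp hd)⟩
    · rintro ⟨h0, h⟩ p hp hd
      exact Nat.lt_succ_iff.2 (h p hp hd)
  by_cases hn : n ∈ (M + 1).smoothNumbers
  · have h1 := hiff.1 hn
    rw [Set.indicator_of_mem hn]
    unfold co fn
    rw [if_pos h1]
    have hn0 : (n : ℂ) ≠ 0 := by exact_mod_cast h1.1
    rw [neg_add, Complex.cpow_add _ _ hn0]
    push_cast
    rw [Complex.ofReal_cpow (Nat.cast_nonneg n)]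
    push_cast
    ring
  · rw [Set.indicator_of_notMem hn]
    unfold co
    rw [if_neg (fun h => hn (hiff.2 h))]
    simp

end PkgPOW

open PkgPOW

theorem T_POW : P_POW := by
  intro k σ M hk hσ
  have hmain : ∀ τ : ℝ, _ := fun τ : ℝ =>
    EulerProduct.summable_and_hasSum_smoothNumbers_prod_primesBelow_tsum
      (f := fn k ((σ : ℂ) + (τ : ℂ) * Complex.I)) (fn_one k _) (fun h => fn_mul k _ h)
      (fun hp => fn_summable hk (by simpa using hσ) hp) (M + 1)
  constructor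
  · have h1 := (hmain 0).1
    have h2 : Summable (((M + 1).smoothNumbers : Set ℕ).indicator
        (fun n => ‖fn k ((σ : ℂ) + ((0 : ℝ) : ℂ) * Complex.I) n‖)) := by
      rw [← summable_subtype_iff_indicator]
      exact h1
    refine h2.congr fun n => ?_
    have h3 := co_mul k σ 0 M n
    have h4 := congrArg norm h3
    rw [norm_mul, Complex.norm_real, Real.norm_of_nonneg (by
      unfold co
      split_ifs
      · exact mul_nonneg (dv_nonneg hk.le n) (Real.rpow_nonneg (Nat.cast_nonneg n) _)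
      · exact le_rfl)] at h4
    simp only [Complex.ofReal_zero, zero_mul, neg_zero, Complex.cpow_zero, norm_one, mul_one] at h4
    rw [h4, Set.indicator, Set.indicator]
    split_ifs
    · simp
    · simp
  · intro τ
    have hs : 0 < ((σ : ℂ) + (τ : ℂ) * Complex.I).re := by simpa using hσ
    set s : ℂ := (σ : ℂ) + (τ : ℂ) * Complex.I with hsdef
    have h1 := (hmain τ).2
    have h2 : ∑' n : ℕ, (co k σ M n : ℂ) * (n : ℂ) ^ (-((τ : ℂ) * Complex.I)) =
        ∏ p ∈ (M + 1).primesBelow, ∑' n : ℕ, fn k s (p ^ n) := by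
      rw [tsum_congr (fun n => co_mul k σ τ M n), ← _root_.tsum_subtype, h1.tsum_eq]
    rw [h2, norm_prod]
    have h3 : (M + 1).primesBelow = ZU.pr M := by
      ext p
      simp only [Nat.primesBelow, ZU.pr, mem_filter, mem_range, mem_Icc]
      constructor
      · rintro ⟨h, hp⟩
        exact ⟨⟨hp.one_lt.le, by omega⟩, hp⟩
      · rintro ⟨⟨_, h⟩, hp⟩
        exact ⟨by omega, hp⟩
    rw [h3]
    have h4 : ∀ p ∈ ZU.pr M, ‖∑' n : ℕ, fn k s (p ^ n)‖ = ‖1 - (p : ℂ) ^ (-s)‖ ^ (-k) := by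
      intro p hp
      simp only [ZU.pr, mem_filter] at hp
      rw [tsum_congr (fun n => fn_prime_pow k s hp.2 n), norm_tsum (norm_lt hp.2 hs)]
    rw [Finset.prod_congr rfl h4, Real.finsetProd_rpow _ _ (fun p _ => norm_nonneg _)]
    unfold ZU.EM
    rw [norm_prod]
    simp only [one_mul]
    rw [← Real.rpow_natCast, ← Real.rpow_mul (Finset.prod_nonneg fun p _ => norm_nonneg _)]
    congr 1
    push_cast
    ring

end Pool.Agent.T2H19.ZA
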