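import Pool.Agent.T2H19.ZA.Stm
import Pool.Agent.Y705.QT0

set_option autoImplicit false

namespace Pool.Agent.T2H19.ZA

open Finset Filter Topology MeasureTheory Pool.Agent.H306R2

namespace PkgROU

/-- numbers without prime factors `≤ 2 G ^ 2` -/
def Rgh (G e : ℕ) : Prop := e ≠ 0 ∧ ∀ p : ℕ, p.Prime → p ∣ e → 2 * G ^ 2 < p

theorem rgh_mul (G a b : ℕ) : Rgh G (a * b) ↔ Rgh G a ∧ Rgh G b := by
  constructor
  · rintro ⟨h1, h2⟩
    exact ⟨⟨fun h => h1 (by rw [h, zero_mul]), fun p hp h => h2 p hp (h.mul_right b)⟩,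
      ⟨fun h => h1 (by rw [h, mul_zero]), fun p hp h => h2 p hp (h.mul_left a)⟩⟩
  · rintro ⟨⟨h1, h2⟩, ⟨h3, h4⟩⟩
    refine ⟨mul_ne_zero h1 h3, fun p hp h => ?_⟩
    rcases (Nat.Prime.dvd_mul hp).1 h with h | h
    · exact h2 p hp h
    · exact h4 p hp h

open Classical in
theorem ro_eq (G : ℕ) (δ : ℝ) (e : ℕ) : ro G δ e =
    if Rgh G e then (G : ℝ) ^ (2 * e.primeFactorsList.length) * (e : ℝ) ^ (-(1 + 2 * δ)) else 0 := by
  unfold ro Rgh
  congr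

theorem ro_nonneg (G : ℕ) (δ : ℝ) (e : ℕ) : 0 ≤ ro G δ e := by
  classical
  rw [ro_eq]
  split_ifs
  · positivity
  · exact le_refl _

theorem ro_mul (G : ℕ) (δ : ℝ) (a b : ℕ) : ro G δ (a * b) = ro G δ a * ro G δ b := by
  classical
  rw [ro_eq, ro_eq, ro_eq]
  by_cases ha : Rgh G a
  · by_cases hb : Rgh G b
    · rw [if_pos ((rgh_mul G a b).2 ⟨ha, hb⟩), if_pos ha, if_pos hb,
        (Nat.perm_primeFactorsList_mul ha.1 hb.1).length_eq, List.length_append, Nat.cast_mul,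
        Real.mul_rpow (Nat.cast_nonneg a) (Nat.cast_nonneg b), mul_add, pow_add]
      ring
    · rw [if_neg (fun h => hb ((rgh_mul G a b).1 h).2), if_neg hb, mul_zero]
  · rw [if_neg (fun h => ha ((rgh_mul G a b).1 h).1), if_neg ha, zero_mul]

theorem ro_one (G : ℕ) (δ : ℝ) : ro G δ 1 = 1 := by
  classical
  have h : Rgh G 1 := ⟨one_ne_zero, fun p hp h => absurd (Nat.dvd_one.1 h) hp.one_lt.ne'⟩
  rw [ro_eq, if_pos h]
  simp

theorem ro_zero (G : ℕ) (δ : ℝ) : ro G δ 0 = 0 := by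
  classical
  rw [ro_eq, if_neg (fun h => h.1 rfl)]

/-- `ro` as a monoid homomorphism -/
noncomputable def roH (G : ℕ) (δ : ℝ) : ℕ →* ℝ where
  toFun := ro G δ
  map_one' := ro_one G δ
  map_mul' := ro_mul G δ

theorem ro_prime (G : ℕ) {δ : ℝ} (hδ : 0 < δ) {p : ℕ} (hp : p.Prime) :
    ro G δ p ≤ (G : ℝ) ^ 2 * (p : ℝ) ^ (-(1 + 2 * δ)) ∧ ro G δ p ≤ 1 / 2 := by
  classical
  have hp1 : (1 : ℝ) ≤ p := by exact_mod_cast hp.one_lt.le
  have hp0 : (0 : ℝ) < p := by linarith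
  rw [ro_eq]
  split_ifs with h
  · have h1 : (2 * G ^ 2 : ℝ) < p := by exact_mod_cast h.2 p hp dvd_rfl
    rw [Nat.primeFactorsList_prime hp]
    simp only [List.length_singleton, mul_one]
    refine ⟨le_refl _, ?_⟩
    have h2 : (p : ℝ) ^ (-(1 + 2 * δ)) ≤ (p : ℝ) ^ (-1 : ℝ) :=
      Real.rpow_le_rpow_of_exponent_le hp1 (by linarith)
    rw [Real.rpow_neg_one] at h2
    calc (G : ℝ) ^ 2 * (p : ℝ) ^ (-(1 + 2 * δ)) ≤ (G : ℝ) ^ 2 * (p : ℝ)⁻¹ := by gcongr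
      _ ≤ 1 / 2 := by
        rw [← div_eq_mul_inv, div_le_div_iff₀ hp0 (by norm_num)]
        linarith
  · exact ⟨by positivity, by norm_num⟩

theorem inv_le {x : ℝ} (h0 : 0 ≤ x) (h1 : x ≤ 1 / 2) : (1 - x)⁻¹ ≤ Real.exp (2 * x) := by
  have h2 : 0 < 1 - x := by linarith
  rw [inv_le_comm₀ h2 (Real.exp_pos _), ← Real.exp_neg]
  have h3 : (1 : ℝ) ≤ (1 - x) * Real.exp (2 * x) := by
    have h4 := Real.add_one_le_exp (2 * x)
    have h5 : (1 - x) * (2 * x + 1) ≤ (1 - x) * Real.exp (2 * x) := by gcongr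
    nlinarith
  calc Real.exp (-(2 * x)) = 1 * Real.exp (-(2 * x)) := by ring
    _ ≤ ((1 - x) * Real.exp (2 * x)) * Real.exp (-(2 * x)) := by gcongr
    _ = 1 - x := by
      rw [mul_assoc, ← Real.exp_add]
      simp

theorem exp_le {x : ℝ} (h1 : x < 1) : Real.exp x ≤ (1 - x)⁻¹ := by
  have h2 : 0 < 1 - x := by linarith
  rw [le_inv_comm₀ (Real.exp_pos _) h2, ← Real.exp_neg]
  have := Real.add_one_le_exp (-x)
  linarith

theorem prod_le (G : ℕ) {δ : ℝ} (hδ : 0 < δ) (hδ2 : δ ≤ 1 / 2) (N : ℕ) :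
    ∏ p ∈ N.primesBelow, (1 - ro G δ p)⁻¹ ≤ (1 / δ) ^ (2 * G ^ 2) := by
  have h1 : ∀ p ∈ N.primesBelow, (1 - ro G δ p)⁻¹ ≤ ((1 - (p : ℝ) ^ (-(1 + 2 * δ)))⁻¹) ^ (2 * G ^ 2) := by
    intro p hp
    have hpp := (Nat.mem_primesBelow.mp hp).2
    obtain ⟨h2, h3⟩ := ro_prime G hδ hpp
    have hp1 : (1 : ℝ) < p := by exact_mod_cast hpp.one_lt
    have h4 : (p : ℝ) ^ (-(1 + 2 * δ)) < 1 := Real.rpow_lt_one_of_one_lt_of_neg hp1 (by linarith)
    calc (1 - ro G δ p)⁻¹ ≤ Real.exp (2 * ro G δ p) := inv_le (ro_nonneg G δ p) h3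
      _ ≤ Real.exp (((2 * G ^ 2 : ℕ) : ℝ) * (p : ℝ) ^ (-(1 + 2 * δ))) := by
        apply Real.exp_le_exp.2
        push_cast
        linarith
      _ = Real.exp ((p : ℝ) ^ (-(1 + 2 * δ))) ^ (2 * G ^ 2) := Real.exp_nat_mul _ _
      _ ≤ _ := by
        gcongr
        exact exp_le h4
  calc ∏ p ∈ N.primesBelow, (1 - ro G δ p)⁻¹
      ≤ ∏ p ∈ N.primesBelow, ((1 - (p : ℝ) ^ (-(1 + 2 * δ)))⁻¹) ^ (2 * G ^ 2) := by
        refine Finset.prod_le_prod (fun p hp => ?_) h1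
        have hpp := (Nat.mem_primesBelow.mp hp).2
        have h3 := (ro_prime G hδ hpp).2
        exact inv_nonneg.2 (by linarith)
    _ = (∏ p ∈ N.primesBelow, (1 - (p : ℝ) ^ (-(1 + 2 * δ)))⁻¹) ^ (2 * G ^ 2) := by
        rw [Finset.prod_pow]
    _ ≤ (1 + 1 / ((1 + 2 * δ) - 1)) ^ (2 * G ^ 2) := by
        refine pow_le_pow_left₀ ?_ (Pool.Agent.Y705.QT0.prod_le (by linarith) N) _
        refine Finset.prod_nonneg fun p hp => ?_
        have hpp := (Nat.mem_primesBelow.mp hp).2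
        have hp1 : (1 : ℝ) < p := by exact_mod_cast hpp.one_lt
        have h4 : (p : ℝ) ^ (-(1 + 2 * δ)) < 1 := Real.rpow_lt_one_of_one_lt_of_neg hp1 (by linarith)
        exact inv_nonneg.2 (by linarith)
    _ ≤ (1 / δ) ^ (2 * G ^ 2) := by
        refine pow_le_pow_left₀ ?_ ?_ _
        · have : 0 < (1 + 2 * δ) - 1 := by linarith
          positivity
        · rw [show (1 + 2 * δ) - 1 = 2 * δ by ring]
          have e : 1 + 1 / (2 * δ) = (2 * δ + 1) / (2 * δ) := by field_simp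
          rw [e, div_le_div_iff₀ (by positivity) hδ]
          nlinarith

theorem sum_le (G : ℕ) {δ : ℝ} (hδ : 0 < δ) (hδ2 : δ ≤ 1 / 2) (S : Finset ℕ) :
    ∑ e ∈ S, ro G δ e ≤ (1 / δ) ^ (2 * G ^ 2) := by
  classical
  have hE := EulerProduct.summable_and_hasSum_smoothNumbers_prod_primesBelow_geometric
    (f := roH G δ) (fun {p} hp => by
      show ‖ro G δ p‖ < 1
      rw [Real.norm_of_nonneg (ro_nonneg G δ p)]
      have := (ro_prime G hδ hp).2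
      linarith) (S.sup id + 1)
  have hsum : HasSum (fun m : (S.sup id + 1).smoothNumbers => ro G δ (m : ℕ))
      (∏ p ∈ (S.sup id + 1).primesBelow, (1 - ro G δ p)⁻¹) := hE.2
  have h1 : ∀ e ∈ S.filter (fun e => e ≠ 0), e ∈ (S.sup id + 1).smoothNumbers := by
    intro e he
    rw [Finset.mem_filter] at he
    have h2 : e ≤ S.sup id := Finset.le_sup (f := id) he.1
    refine Nat.mem_smoothNumbers.2 ⟨he.2, fun p hp => ?_⟩
    have h3 := Nat.le_of_mem_primeFactorsList hp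
    omega
  have h2 : ∑ e ∈ S, ro G δ e = ∑ e ∈ S.filter (fun e => e ≠ 0), ro G δ e := by
    rw [Finset.sum_filter]
    refine Finset.sum_congr rfl fun e _ => ?_
    split_ifs with h
    · rfl
    · push Not at h
      rw [h, ro_zero]
  rw [h2]
  let emb : {x // x ∈ S.filter (fun e => e ≠ 0)} ↪ (S.sup id + 1).smoothNumbers :=
    ⟨fun e => ⟨e.1, h1 e.1 e.2⟩, fun a b hab => by
      have h := congrArg (fun z : (S.sup id + 1).smoothNumbers => (z : ℕ)) hab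
      exact Subtype.ext h⟩
  let T : Finset ((S.sup id + 1).smoothNumbers) := (S.filter (fun e => e ≠ 0)).attach.map emb
  have h3 : ∑ e ∈ S.filter (fun e => e ≠ 0), ro G δ e = ∑ m ∈ T, (fun m => ro G δ (m : ℕ)) m := by
    rw [Finset.sum_map]
    exact (Finset.sum_attach _ (fun e => ro G δ e)).symm
  rw [h3]
  exact (sum_le_hasSum T (fun e _ => ro_nonneg G δ (e : ℕ)) hsum).trans (prod_le G hδ hδ2 _)

end PkgROU

theorem T_ROU : P_ROU := by
  intro G hG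
  have hG2 : (1 : ℝ) ≤ ((2 * G ^ 2 : ℕ) : ℝ) := by
    have : 1 ≤ 2 * G ^ 2 := by
      have : 1 ≤ G ^ 2 := Nat.one_le_pow _ _ hG
      omega
    exact_mod_cast this
  refine ⟨((2 * G ^ 2 : ℕ) : ℝ), by linarith, fun δ hδ hδ2 => ?_⟩
  have h1 := PkgROU.sum_le G hδ hδ2
  have hsum : Summable (ro G δ) := summable_of_sum_le (PkgROU.ro_nonneg G δ) h1
  refine ⟨hsum, (hsum.tsum_le_of_sum_le h1).trans ?_⟩
  have h2 : (1 / δ) ^ (2 * G ^ 2) = δ ^ (-((2 * G ^ 2 : ℕ) : ℝ)) := by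
    rw [Real.rpow_neg hδ.le, Real.rpow_natCast, one_div, inv_pow]
  rw [h2]
  have h3 : 0 ≤ δ ^ (-((2 * G ^ 2 : ℕ) : ℝ)) := by positivity
  nlinarith

end Pool.Agent.T2H19.ZA
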