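import Pool.Agent.T2H19.ZA.Stm
import Pool.Agent.H306R2.EP

set_option autoImplicit false

namespace Pool.Agent.T2H19.ZA

open Finset Filter Topology MeasureTheory Pool.Agent.H306R2

namespace PkgSHO

/-- the summand -/
noncomputable def FF (K : ℕ) (δ : ℝ) (b : ℕ) : ℝ := dv K b ^ 2 * (b : ℝ) ^ (-(1 + 2 * δ))

/-- the smooth weight -/
noncomputable def ff (K : ℕ) (s : ℕ) : ℝ := dv ((K : ℝ) ^ 2) s * (s : ℝ) ^ (-(1 / 2) : ℝ)

theorem FF_nonneg (K : ℕ) (δ : ℝ) (b : ℕ) : 0 ≤ FF K δ b := by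
  unfold FF; positivity

theorem ff_nonneg (K : ℕ) (b : ℕ) : 0 ≤ ff K b := by
  unfold ff
  have := dv_nonneg (α := (K : ℝ) ^ 2) (by positivity) b
  positivity

/-- splitting into a smooth and a rough part -/
theorem split (P : ℕ) (b : ℕ) : b ≠ 0 → ∃ s r : ℕ, (s ≠ 0 ∧ ∀ p : ℕ, p.Prime → p ∣ s → p ≤ P) ∧
    (r ≠ 0 ∧ ∀ p : ℕ, p.Prime → p ∣ r → P < p) ∧ b = s * r := by
  induction b using Nat.recOnMul with
  | zero => exact fun h => absurd rfl h
  | one =>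
    intro _
    exact ⟨1, 1, ⟨one_ne_zero, fun p hp h => absurd (Nat.dvd_one.1 h) hp.one_lt.ne'⟩,
      ⟨one_ne_zero, fun p hp h => absurd (Nat.dvd_one.1 h) hp.one_lt.ne'⟩, rfl⟩
  | prime p hp =>
    intro _
    by_cases h : p ≤ P
    · refine ⟨p, 1, ⟨hp.ne_zero, fun q hq hd => ?_⟩,
        ⟨one_ne_zero, fun p hp h => absurd (Nat.dvd_one.1 h) hp.one_lt.ne'⟩, (mul_one p).symm⟩
      rw [(Nat.prime_dvd_prime_iff_eq hq hp).1 hd]
      exact h
    · refine ⟨1, p, ⟨one_ne_zero, fun p hp h => absurd (Nat.dvd_one.1 h) hp.one_lt.ne'⟩,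
        ⟨hp.ne_zero, fun q hq hd => ?_⟩, (one_mul p).symm⟩
      rw [(Nat.prime_dvd_prime_iff_eq hq hp).1 hd]
      omega
  | mul a b iha ihb =>
    intro hab
    obtain ⟨s, r, ⟨h1, h2⟩, ⟨h3, h4⟩, h5⟩ := iha (fun h => hab (by rw [h, zero_mul]))
    obtain ⟨s', r', ⟨h1', h2'⟩, ⟨h3', h4'⟩, h5'⟩ := ihb (fun h => hab (by rw [h, mul_zero]))
    refine ⟨s * s', r * r', ⟨mul_ne_zero h1 h1', fun p hp h => ?_⟩,
      ⟨mul_ne_zero h3 h3', fun p hp h => ?_⟩, ?_⟩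
    · rcases (Nat.Prime.dvd_mul hp).1 h with h | h
      · exact h2 p hp h
      · exact h2' p hp h
    · rcases (Nat.Prime.dvd_mul hp).1 h with h | h
      · exact h4 p hp h
      · exact h4' p hp h
    · rw [h5, h5']; ring

theorem FF_mul (K : ℕ) (δ : ℝ) {P s r : ℕ} (hs : ∀ p : ℕ, p.Prime → p ∣ s → p ≤ P)
    (hr : ∀ p : ℕ, p.Prime → p ∣ r → P < p) : FF K δ (s * r) = FF K δ s * FF K δ r := by
  have hc : Nat.Coprime s r := by
    by_contra h
    obtain ⟨p, hp, h1, h2⟩ := Nat.Prime.not_coprime_iff_dvd.1 h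
    have h3 := hs p hp h1
    have h4 := hr p hp h2
    omega
  unfold FF
  have h1 : dv K (s * r) = dv K s * dv K r := (dA_mult (K : ℝ)).map_mul_of_coprime hc
  rw [h1, Nat.cast_mul, Real.mul_rpow (Nat.cast_nonneg s) (Nat.cast_nonneg r)]
  ring

theorem lc_le (K : ℕ) (hK : 1 ≤ K) (j : ℕ) : lc K j ≤ (K : ℝ) ^ j := by
  unfold lc
  have h : ∀ i ∈ range j, ((K : ℝ) + i) / ((i : ℝ) + 1) ≤ K := by
    intro i _
    have hK1 : (1 : ℝ) ≤ K := by exact_mod_cast hK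
    have hi : (0 : ℝ) ≤ i := Nat.cast_nonneg i
    rw [div_le_iff₀ (by positivity)]
    nlinarith
  calc ∏ i ∈ range j, ((K : ℝ) + i) / ((i : ℝ) + 1) ≤ ∏ _i ∈ range j, (K : ℝ) :=
        Finset.prod_le_prod (fun i _ => by positivity) h
    _ = (K : ℝ) ^ j := by simp

theorem dv_le (K : ℕ) (hK : 1 ≤ K) (r : ℕ) (hr : r ≠ 0) : dv K r ≤ (K : ℝ) ^ r.primeFactorsList.length := by
  unfold dv
  rw [if_neg hr]
  unfold Finsupp.prod
  calc ∏ p ∈ r.factorization.support, lc K (r.factorization p)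
      ≤ ∏ p ∈ r.factorization.support, (K : ℝ) ^ (r.factorization p) :=
        Finset.prod_le_prod (fun p _ => lc_nonneg (Nat.cast_nonneg K) _) (fun p _ => lc_le K hK _)
    _ = (K : ℝ) ^ (∑ p ∈ r.factorization.support, r.factorization p) :=
        Finset.prod_pow_eq_pow_sum _ _ _
    _ = (K : ℝ) ^ r.primeFactorsList.length := by
        congr 1
        rw [← ArithmeticFunction.cardFactors_apply, ArithmeticFunction.cardFactors_eq_sum_factorization]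
        rfl

theorem dv_sq_le' (K : ℕ) (hK : 1 ≤ K) (r : ℕ) (hr : r ≠ 0) :
    dv K r ^ 2 ≤ ((K ^ 2 : ℕ) : ℝ) ^ r.primeFactorsList.length := by
  have h1 := dv_le K hK r hr
  have h2 := dv_nonneg (α := (K : ℝ)) (Nat.cast_nonneg K) r
  calc dv K r ^ 2 ≤ ((K : ℝ) ^ r.primeFactorsList.length) ^ 2 := pow_le_pow_left₀ h2 h1 2
    _ = ((K ^ 2 : ℕ) : ℝ) ^ r.primeFactorsList.length := by
      push_cast
      rw [← pow_mul, ← pow_mul, mul_comm]

/-- multiples of `e` in an interval -/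
theorem cnt (e : ℕ) (he : 1 ≤ e) (y z : ℝ) (hy : 0 ≤ y) (hyz : y ≤ z) (R : Finset ℕ)
    (hR : ∀ r ∈ R, y ≤ r ∧ (r : ℝ) ≤ z ∧ e ∣ r) : (R.card : ℝ) ≤ (z - y) / e + 1 := by
  have he0 : (0 : ℝ) < e := by exact_mod_cast he
  rcases R.eq_empty_or_nonempty with rfl | ⟨r0, hr0⟩
  · rw [Finset.card_empty, Nat.cast_zero]
    have : 0 ≤ (z - y) / e := div_nonneg (by linarith) he0.le
    linarith
  have hinj : Set.InjOn (fun r : ℕ => r / e) (R : Set ℕ) := by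
    intro a ha b hb hab
    have h1 := Nat.div_mul_cancel (hR a ha).2.2
    have h2 := Nat.div_mul_cancel (hR b hb).2.2
    have hab' : a / e = b / e := hab
    rw [← h1, ← h2, hab']
  have hmem : ∀ r ∈ R, r / e ∈ Icc ⌈y / e⌉₊ ⌊z / e⌋₊ := by
    intro r hr
    obtain ⟨h1, h2, h3⟩ := hR r hr
    have h4 : ((r / e : ℕ) : ℝ) = (r : ℝ) / e := Nat.cast_div h3 he0.ne'
    rw [Finset.mem_Icc]
    constructor
    · apply Nat.ceil_le.2
      rw [h4]
      gcongr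
    · apply Nat.le_floor
      rw [h4]
      gcongr
  have h1 : R.card ≤ (Icc ⌈y / e⌉₊ ⌊z / e⌋₊).card :=
    Finset.card_le_card_of_injOn _ hmem hinj
  rw [Nat.card_Icc] at h1
  have h2 := Finset.mem_Icc.1 (hmem r0 hr0)
  have h3 : ⌈y / e⌉₊ ≤ ⌊z / e⌋₊ := h2.1.trans h2.2
  have h4 : (⌊z / e⌋₊ : ℝ) ≤ z / e := Nat.floor_le (div_nonneg (by linarith) he0.le)
  have h5 : y / e ≤ (⌈y / e⌉₊ : ℝ) := Nat.le_ceil _
  have h6 : (R.card : ℝ) + ⌈y / e⌉₊ ≤ ⌊z / e⌋₊ + 1 := by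
    have : R.card + ⌈y / e⌉₊ ≤ ⌊z / e⌋₊ + 1 := by omega
    exact_mod_cast this
  rw [sub_div]
  linarith

theorem term (e : ℕ) (he : 1 ≤ e) (y : ℝ) (hy : 1 ≤ y) (hey : (e : ℝ) * e ≤ 3 * y) (δ : ℝ) (hδ : 0 < δ)
    (hδ2 : δ ≤ 1 / 2) (η : ℝ) (hη : 0 < η) :
    y ^ (-(1 + 2 * δ)) * (2 * η * y / e + 1) ≤ 4 * (η + y ^ (-(1 / 2) : ℝ)) * (e : ℝ) ^ (-(1 + 2 * δ)) := by
  have he0 : (0 : ℝ) < e := by exact_mod_cast he
  have hy0 : (0 : ℝ) < y := by linarith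
  set v : ℝ := y ^ (-(1 / 2) : ℝ) with hv
  have hv0 : 0 < v := by positivity
  have hv2 : v ^ 2 = 1 / y := by
    rw [hv, ← Real.rpow_natCast, ← Real.rpow_mul hy0.le]
    norm_num
    rw [Real.rpow_neg_one]
  set u : ℝ := e / y with hu
  have hu0 : 0 < u := by positivity
  have hu2 : u ^ 2 ≤ 3 * v ^ 2 := by
    rw [hv2, hu, div_pow, div_le_iff₀ (by positivity)]
    have : 3 * (1 / y) * y ^ 2 = 3 * y := by field_simp
    rw [this]
    nlinarith
  have hs3 : Real.sqrt 3 ^ 2 = 3 := Real.sq_sqrt (by norm_num)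
  have hs30 : 0 < Real.sqrt 3 := by positivity
  have hs31 : 1 ≤ Real.sqrt 3 := by
    rw [Real.one_le_sqrt]; norm_num
  have hs32 : Real.sqrt 3 ≤ 2 := by
    rw [Real.sqrt_le_left (by norm_num)]; norm_num
  have huv : u ≤ Real.sqrt 3 * v := by
    apply le_of_sq_le_sq _ (by positivity)
    rw [mul_pow, hs3]
    exact hu2
  have hv1 : v ≤ 1 := by
    rw [hv]
    exact Real.rpow_le_one_of_one_le_of_nonpos hy (by norm_num)
  have hu3 : u ≤ Real.sqrt 3 := by nlinarith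
  have hud : u ^ (2 * δ) ≤ Real.sqrt 3 := by
    calc u ^ (2 * δ) ≤ Real.sqrt 3 ^ (2 * δ) := Real.rpow_le_rpow hu0.le hu3 (by linarith)
      _ ≤ Real.sqrt 3 ^ (1 : ℝ) := Real.rpow_le_rpow_of_exponent_le hs31 (by linarith)
      _ = Real.sqrt 3 := Real.rpow_one _
  have hid : y ^ (-(1 + 2 * δ)) = (e : ℝ) ^ (-(1 + 2 * δ)) * (u * u ^ (2 * δ)) := by
    have h1 : u * u ^ (2 * δ) = u ^ (1 + 2 * δ) := by
      rw [Real.rpow_add hu0, Real.rpow_one]
    rw [h1, hu, Real.div_rpow he0.le hy0.le, Real.rpow_neg hy0.le, Real.rpow_neg he0.le]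
    have h2 : (e : ℝ) ^ (1 + 2 * δ) ≠ 0 := by positivity
    field_simp
  have hmain : u ^ (2 * δ) * (2 * η + u) ≤ 4 * (η + v) := by
    have h0 : 0 ≤ u ^ (2 * δ) := by positivity
    calc u ^ (2 * δ) * (2 * η + u) ≤ Real.sqrt 3 * (2 * η + Real.sqrt 3 * v) := by
          gcongr
      _ = 2 * Real.sqrt 3 * η + Real.sqrt 3 ^ 2 * v := by ring
      _ ≤ 4 * (η + v) := by
        rw [hs3]
        nlinarith
  have hE : 0 < (e : ℝ) ^ (-(1 + 2 * δ)) := by positivity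
  calc y ^ (-(1 + 2 * δ)) * (2 * η * y / e + 1)
      = (e : ℝ) ^ (-(1 + 2 * δ)) * (u ^ (2 * δ) * (u * (2 * η * y / e + 1))) := by rw [hid]; ring
    _ = (e : ℝ) ^ (-(1 + 2 * δ)) * (u ^ (2 * δ) * (2 * η + u)) := by
        congr 2
        rw [hu]
        field_simp
    _ ≤ (e : ℝ) ^ (-(1 + 2 * δ)) * (4 * (η + v)) := by gcongr
    _ = _ := by ring

theorem ro_nonneg (G : ℕ) (δ : ℝ) (e : ℕ) : 0 ≤ ro G δ e := by
  unfold ro
  split_ifs
  · positivity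
  · exact le_refl _

theorem ro_eq (G : ℕ) (δ : ℝ) (e : ℕ) (he : e ≠ 0) (h : ∀ p : ℕ, p.Prime → p ∣ e → 2 * G ^ 2 < p) :
    ro G δ e = (G : ℝ) ^ (2 * e.primeFactorsList.length) * (e : ℝ) ^ (-(1 + 2 * δ)) := by
  unfold ro
  rw [if_pos ⟨he, h⟩]

/-- the rough part -/
theorem inner (hH : P_HALF) (K : ℕ) (hK : 1 ≤ K) (δ : ℝ) (hδ : 0 < δ) (hδ2 : δ ≤ 1 / 2)
    (hsum : Summable (ro (K ^ 2) δ)) (η : ℝ) (hη : 0 < η) (hη1 : η ≤ 1) (y : ℝ) (hy : 1 ≤ y) (R : Finset ℕ)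
    (hR : ∀ r ∈ R, y ≤ r ∧ (r : ℝ) ≤ y * Real.exp η ∧ ∀ p : ℕ, p.Prime → p ∣ r → 2 * (K ^ 2) ^ 2 < p) :
    ∑ r ∈ R, FF K δ r ≤ 4 * (K : ℝ) ^ 2 * (η + y ^ (-(1 / 2) : ℝ)) * ∑' e, ro (K ^ 2) δ e := by
  classical
  have hy0 : (0 : ℝ) < y := by linarith
  have hex : ∀ r : ℕ, ∃ e : ℕ, 1 ≤ r → (e ∣ r ∧ e * e ≤ r ∧
      r.primeFactorsList.length ≤ 2 * e.primeFactorsList.length + 1) := by
    intro r
    by_cases h : 1 ≤ r
    · obtain ⟨e, he⟩ := hH r h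
      exact ⟨e, fun _ => he⟩
    · exact ⟨0, fun h' => absurd h' h⟩
  choose ee hee using hex
  have hr1 : ∀ r ∈ R, 1 ≤ r := by
    intro r hr
    have h1 : (1 : ℝ) ≤ r := hy.trans (hR r hr).1
    exact_mod_cast h1
  set G : ℕ := K ^ 2 with hG
  have hG1 : (1 : ℝ) ≤ (G : ℝ) := by
    have : 1 ≤ G := Nat.one_le_pow _ _ hK
    exact_mod_cast this
  let hh : ℕ → ℝ := fun e => (G : ℝ) * (G : ℝ) ^ (2 * e.primeFactorsList.length) * y ^ (-(1 + 2 * δ))
  have hh0 : ∀ e, 0 ≤ hh e := fun e => by positivity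
  have hexp : y * Real.exp η - y ≤ 2 * η * y := by
    have h1 := Real.abs_exp_sub_one_le (x := η) (by rw [abs_of_pos hη]; exact hη1)
    rw [abs_of_pos hη] at h1
    have h2 := le_abs_self (Real.exp η - 1)
    nlinarith
  have hexp3 : Real.exp η ≤ 3 := by
    have h1 := Real.exp_le_exp.2 hη1
    have h2 := Real.exp_one_lt_d9
    linarith
  have step1 : ∑ r ∈ R, FF K δ r ≤ ∑ r ∈ R, hh (ee r) := by
    refine Finset.sum_le_sum fun r hr => ?_
    have hr0 : r ≠ 0 := by have := hr1 r hr; omega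
    obtain ⟨h1, h2, h3⟩ := hee r (hr1 r hr)
    obtain ⟨h4, h5, h6⟩ := hR r hr
    have h7 := dv_sq_le' K hK r hr0
    have h8 : (r : ℝ) ^ (-(1 + 2 * δ)) ≤ y ^ (-(1 + 2 * δ)) :=
      Real.rpow_le_rpow_of_nonpos hy0 h4 (by linarith)
    have h9 : (G : ℝ) ^ r.primeFactorsList.length ≤ (G : ℝ) ^ (2 * (ee r).primeFactorsList.length + 1) :=
      pow_le_pow_right₀ hG1 h3
    show dv K r ^ 2 * (r : ℝ) ^ (-(1 + 2 * δ)) ≤
      (G : ℝ) * (G : ℝ) ^ (2 * (ee r).primeFactorsList.length) * y ^ (-(1 + 2 * δ))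
    calc dv K r ^ 2 * (r : ℝ) ^ (-(1 + 2 * δ))
        ≤ (G : ℝ) ^ (2 * (ee r).primeFactorsList.length + 1) * y ^ (-(1 + 2 * δ)) := by
          refine mul_le_mul (h7.trans h9) h8 (by positivity) (by positivity)
      _ = _ := by rw [pow_succ]; ring
  have step2 : ∑ r ∈ R, hh (ee r) = ∑ e ∈ R.image ee, ((R.filter (fun r => ee r = e)).card : ℝ) * hh e := by
    rw [Finset.sum_comp]
    refine Finset.sum_congr rfl fun e _ => ?_
    rw [nsmul_eq_mul]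
  have step3 : ∀ e ∈ R.image ee, ((R.filter (fun r => ee r = e)).card : ℝ) * hh e ≤
      4 * (K : ℝ) ^ 2 * (η + y ^ (-(1 / 2) : ℝ)) * ro G δ e := by
    intro e he
    obtain ⟨r, hr, rfl⟩ := Finset.mem_image.1 he
    have hr0 : r ≠ 0 := by have := hr1 r hr; omega
    obtain ⟨h1, h2, h3⟩ := hee r (hr1 r hr)
    obtain ⟨h4, h5, h6⟩ := hR r hr
    have he0 : ee r ≠ 0 := by
      intro h
      rw [h] at h1
      exact hr0 (zero_dvd_iff.1 h1)
    have he1 : 1 ≤ ee r := Nat.pos_of_ne_zero he0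
    have hcard := cnt (ee r) he1 y (y * Real.exp η) hy0.le
      (by nlinarith [Real.add_one_le_exp η]) (R.filter (fun r' => ee r' = ee r)) (by
        intro r' hr'
        rw [Finset.mem_filter] at hr'
        obtain ⟨h4', h5', _⟩ := hR r' hr'.1
        refine ⟨h4', h5', ?_⟩
        rw [← hr'.2]
        exact (hee r' (hr1 r' hr'.1)).1)
    have hepos : (0 : ℝ) < (ee r : ℝ) := by exact_mod_cast he1
    have hcard2 : ((R.filter (fun r' => ee r' = ee r)).card : ℝ) ≤ 2 * η * y / (ee r) + 1 := by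
      refine hcard.trans ?_
      gcongr
    have hey : ((ee r : ℕ) : ℝ) * (ee r) ≤ 3 * y := by
      have h7 : ((ee r : ℕ) : ℝ) * (ee r) ≤ r := by exact_mod_cast h2
      have h8 : y * Real.exp η ≤ y * 3 := by gcongr
      linarith
    have ht := term (ee r) he1 y hy hey δ hδ hδ2 η hη
    rw [ro_eq G δ (ee r) he0 (fun p hp hd => h6 p hp (hd.trans h1))]
    calc ((R.filter (fun r' => ee r' = ee r)).card : ℝ) * hh (ee r)
        ≤ (2 * η * y / (ee r) + 1) * hh (ee r) := by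
          have := hh0 (ee r)
          gcongr
      _ = (G : ℝ) * (G : ℝ) ^ (2 * (ee r).primeFactorsList.length) *
          (y ^ (-(1 + 2 * δ)) * (2 * η * y / (ee r) + 1)) := by
          show (2 * η * y / (ee r) + 1) *
            ((G : ℝ) * (G : ℝ) ^ (2 * (ee r).primeFactorsList.length) * y ^ (-(1 + 2 * δ))) = _
          ring
      _ ≤ (G : ℝ) * (G : ℝ) ^ (2 * (ee r).primeFactorsList.length) *
          (4 * (η + y ^ (-(1 / 2) : ℝ)) * ((ee r : ℕ) : ℝ) ^ (-(1 + 2 * δ))) := by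
          gcongr
      _ = _ := by
          rw [hG]
          push_cast
          ring
  calc ∑ r ∈ R, FF K δ r ≤ ∑ r ∈ R, hh (ee r) := step1
    _ = ∑ e ∈ R.image ee, ((R.filter (fun r => ee r = e)).card : ℝ) * hh e := step2
    _ ≤ ∑ e ∈ R.image ee, 4 * (K : ℝ) ^ 2 * (η + y ^ (-(1 / 2) : ℝ)) * ro G δ e :=
        Finset.sum_le_sum step3
    _ = 4 * (K : ℝ) ^ 2 * (η + y ^ (-(1 / 2) : ℝ)) * ∑ e ∈ R.image ee, ro G δ e := by
        rw [Finset.mul_sum]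
    _ ≤ 4 * (K : ℝ) ^ 2 * (η + y ^ (-(1 / 2) : ℝ)) * ∑' e, ro G δ e := by
        have h0 : 0 ≤ 4 * (K : ℝ) ^ 2 * (η + y ^ (-(1 / 2) : ℝ)) := by positivity
        exact mul_le_mul_of_nonneg_left
          (hsum.sum_le_tsum _ fun e _ => ro_nonneg G δ e) h0

/-- the smooth part -/
theorem smooth_sum (K : ℕ) (hK : 1 ≤ K) (P : ℕ) : ∃ Cs : ℝ, 0 < Cs ∧ ∀ S : Finset ℕ,
    (∀ s ∈ S, s ≠ 0 ∧ ∀ p : ℕ, p.Prime → p ∣ s → p ≤ P) → ∑ s ∈ S, ff K s ≤ Cs := by
  have hK2 : (0 : ℝ) < (K : ℝ) ^ 2 := by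
    have : (1 : ℝ) ≤ K := by exact_mod_cast hK
    positivity
  have hE := (EulerProduct.summable_and_hasSum_smoothNumbers_prod_primesBelow_tsum (f := ff K)
    (by unfold ff; simp [dv_one])
    (by
      intro m n hmn
      unfold ff
      have h1 : dv ((K : ℝ) ^ 2) (m * n) = dv ((K : ℝ) ^ 2) m * dv ((K : ℝ) ^ 2) n :=
        (dA_mult ((K : ℝ) ^ 2)).map_mul_of_coprime hmn
      rw [h1, Nat.cast_mul, Real.mul_rpow (Nat.cast_nonneg m) (Nat.cast_nonneg n)]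
      ring)
    (by
      intro p hp
      have hp0 : (0 : ℝ) < p := by exact_mod_cast hp.pos
      have hp1 : (1 : ℝ) < p := by exact_mod_cast hp.one_lt
      have hx : (p : ℝ) ^ (-(1 / 2) : ℝ) < 1 := Real.rpow_lt_one_of_one_lt_of_neg hp1 (by norm_num)
      refine (lc_summable hK2 (x := (p : ℝ) ^ (-(1 / 2) : ℝ)) (by positivity) hx).congr fun n => ?_
      rw [Real.norm_of_nonneg (ff_nonneg K _)]
      unfold ff
      have hpow : ((p : ℝ) ^ (-(1 / 2) : ℝ)) ^ n = ((p : ℝ) ^ n) ^ (-(1 / 2) : ℝ) := by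
        rw [← Real.rpow_natCast, ← Real.rpow_mul hp0.le, ← Real.rpow_natCast, ← Real.rpow_mul hp0.le,
          mul_comm]
      rw [dv_prime_pow _ hp, Nat.cast_pow, hpow])
    (P + 1)).1
  have hs : Summable (fun m : (P + 1).smoothNumbers => ff K (m : ℕ)) := by
    refine hE.congr fun m => ?_
    rw [Real.norm_of_nonneg (ff_nonneg K _)]
  have hn0 : 0 ≤ ∑' m : (P + 1).smoothNumbers, ff K (m : ℕ) := tsum_nonneg fun m => ff_nonneg K _
  refine ⟨∑' m : (P + 1).smoothNumbers, ff K (m : ℕ) + 1, by linarith, fun S hS => ?_⟩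
  have h1 : ∀ s ∈ S, s ∈ (P + 1).smoothNumbers := by
    intro s hs'
    refine Nat.mem_smoothNumbers.2 ⟨(hS s hs').1, fun p hp => ?_⟩
    have h2 := (hS s hs').2 p (Nat.prime_of_mem_primeFactorsList hp) (Nat.dvd_of_mem_primeFactorsList hp)
    omega
  let emb : {x // x ∈ S} ↪ (P + 1).smoothNumbers :=
    ⟨fun e => ⟨e.1, h1 e.1 e.2⟩, fun a b hab => by
      have h := congrArg (fun z : (P + 1).smoothNumbers => (z : ℕ)) hab
      exact Subtype.ext h⟩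
  let T : Finset ((P + 1).smoothNumbers) := S.attach.map emb
  have h3 : ∑ e ∈ S, ff K e = ∑ m ∈ T, (fun m => ff K (m : ℕ)) m := by
    rw [Finset.sum_map]
    exact (Finset.sum_attach _ (fun e => ff K e)).symm
  rw [h3]
  have h4 := hs.sum_le_tsum T (fun e _ => ff_nonneg K (e : ℕ))
  linarith

end PkgSHO

open PkgSHO in
theorem T_SHO (hS : P_SUMM) (hR : P_ROU) (hH : P_HALF) : P_SHO := by
  classical
  intro K hK
  have hK1 : (1 : ℝ) ≤ K := by exact_mod_cast hK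
  set G : ℕ := K ^ 2 with hG
  have hG1 : 1 ≤ G := Nat.one_le_pow _ _ hK
  set P : ℕ := 2 * G ^ 2 with hP
  obtain ⟨C1, hC1, hS1⟩ := hS K (by linarith)
  obtain ⟨C2, hC2, hR2⟩ := hR G hG1
  obtain ⟨Cs, hCs, hCs2⟩ := smooth_sum K hK P
  have hsplit : ∀ b : ℕ, ∃ q : ℕ × ℕ, b ≠ 0 → (q.1 ≠ 0 ∧ ∀ p : ℕ, p.Prime → p ∣ q.1 → p ≤ P) ∧
      (q.2 ≠ 0 ∧ ∀ p : ℕ, p.Prime → p ∣ q.2 → P < p) ∧ b = q.1 * q.2 := by
    intro b
    by_cases h : b = 0
    · exact ⟨(0, 0), fun h' => absurd h h'⟩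
    · obtain ⟨s, r, h1, h2, h3⟩ := split P b h
      exact ⟨(s, r), fun _ => ⟨h1, h2, h3⟩⟩
  choose φ hφ using hsplit
  set A : ℝ := Cs * C1 + 4 * (K : ℝ) ^ 2 * Cs * C2 with hA
  have hA0 : 0 < A := by positivity
  refine ⟨C1 + C2 + A, by positivity, fun δ hδ hδ2 x hx η hη hη1 => ?_⟩
  have hx0 : (0 : ℝ) < x := by linarith
  obtain ⟨hsm, hmo⟩ := hS1 δ hδ hδ2
  obtain ⟨hrs, hro⟩ := hR2 δ hδ hδ2
  set I : Finset ℕ := Icc ⌈x⌉₊ ⌊x * Real.exp η⌋₊ with hI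
  have hIb : ∀ b ∈ I, b ≠ 0 ∧ x ≤ (b : ℝ) ∧ (b : ℝ) ≤ x * Real.exp η := by
    intro b hb
    rw [hI, Finset.mem_Icc] at hb
    have h1 : x ≤ (b : ℝ) := Nat.ceil_le.1 hb.1
    have h2 : (b : ℝ) ≤ x * Real.exp η := (Nat.le_floor_iff (by positivity)).1 hb.2
    refine ⟨?_, h1, h2⟩
    rintro rfl
    rw [Nat.cast_zero] at h1
    linarith
  have hFb : ∀ b ∈ I, FF K δ b = FF K δ (φ b).1 * FF K δ (φ b).2 := by
    intro b hb
    obtain ⟨h1, h2, h3⟩ := hφ b (hIb b hb).1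
    conv_lhs => rw [h3]
    exact FF_mul K δ h1.2 h2.2
  have hsh : sh K δ x η = ∑ b ∈ I, FF K δ (φ b).1 * FF K δ (φ b).2 := by
    unfold sh
    exact Finset.sum_congr rfl hFb
  set w : ℝ := x ^ (-(1 / 4) : ℝ) with hw
  have hw0 : 0 < w := by positivity
  have hsq : (0 : ℝ) < Real.sqrt x := Real.sqrt_pos.2 hx0
  have hsqw : Real.sqrt x ^ (-(1 / 2) : ℝ) = w := by
    rw [Real.sqrt_eq_rpow, ← Real.rpow_mul hx0.le, hw]
    norm_num
  have hinj : Set.InjOn φ (I : Set ℕ) := by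
    intro a ha b hb hab
    have h1 := (hφ a (hIb a ha).1).2.2
    have h2 := (hφ b (hIb b hb).1).2.2
    rw [h1, h2, hab]
  have hFf : ∀ s : ℕ, s ≠ 0 → FF K δ s ≤ ff K s := by
    intro s hs
    have hs1 : (1 : ℝ) ≤ s := by exact_mod_cast Nat.pos_of_ne_zero hs
    unfold FF ff
    have h1 := dv_sq_le (κ := (K : ℝ)) (by linarith) s
    have h2 : (s : ℝ) ^ (-(1 + 2 * δ)) ≤ (s : ℝ) ^ (-(1 / 2) : ℝ) :=
      Real.rpow_le_rpow_of_exponent_le hs1 (by linarith)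
    have h3 := dv_nonneg (α := (K : ℝ) ^ 2) (by positivity) s
    exact mul_le_mul h1 h2 (by positivity) h3
  have hFf2 : ∀ s : ℕ, s ≠ 0 → Real.sqrt x < s → FF K δ s ≤ w * ff K s := by
    intro s hs hsx
    have hs1 : (1 : ℝ) ≤ s := by exact_mod_cast Nat.pos_of_ne_zero hs
    have hs0 : (0 : ℝ) < s := by linarith
    unfold FF ff
    have h1 := dv_sq_le (κ := (K : ℝ)) (by linarith) s
    have h2 : (s : ℝ) ^ (-(1 + 2 * δ)) ≤ (s : ℝ) ^ (-(1 : ℝ)) :=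
      Real.rpow_le_rpow_of_exponent_le hs1 (by linarith)
    have h4 : (s : ℝ) ^ (-(1 : ℝ)) = (s : ℝ) ^ (-(1 / 2) : ℝ) * (s : ℝ) ^ (-(1 / 2) : ℝ) := by
      rw [← Real.rpow_add hs0]
      norm_num
    have h5 : (s : ℝ) ^ (-(1 / 2) : ℝ) ≤ w := by
      rw [← hsqw]
      exact Real.rpow_le_rpow_of_nonpos hsq hsx.le (by norm_num)
    have h3 := dv_nonneg (α := (K : ℝ) ^ 2) (by positivity) s
    calc dv K s ^ 2 * (s : ℝ) ^ (-(1 + 2 * δ))
        ≤ dv ((K : ℝ) ^ 2) s * ((s : ℝ) ^ (-(1 / 2) : ℝ) * (s : ℝ) ^ (-(1 / 2) : ℝ)) := by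
          rw [← h4]
          exact mul_le_mul h1 h2 (by positivity) h3
      _ ≤ dv ((K : ℝ) ^ 2) s * ((s : ℝ) ^ (-(1 / 2) : ℝ) * w) := by gcongr
      _ = _ := by ring
  have hFsum : ∀ R : Finset ℕ, ∑ r ∈ R, FF K δ r ≤ C1 * δ ^ (-C1) := fun R =>
    (hsm.sum_le_tsum R fun r _ => FF_nonneg K δ r).trans hmo
  -- the two parts
  have hpartA : ∑ b ∈ I.filter (fun b => Real.sqrt x < ((φ b).1 : ℝ)), FF K δ (φ b).1 * FF K δ (φ b).2 ≤
      w * (Cs * (C1 * δ ^ (-C1))) := by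
    set J := I.filter (fun b => Real.sqrt x < ((φ b).1 : ℝ)) with hJ
    have hJI : ∀ b ∈ J, b ∈ I ∧ Real.sqrt x < ((φ b).1 : ℝ) := fun b hb => by
      rw [hJ, Finset.mem_filter] at hb
      exact hb
    calc ∑ b ∈ J, FF K δ (φ b).1 * FF K δ (φ b).2
        ≤ ∑ b ∈ J, w * (ff K (φ b).1 * FF K δ (φ b).2) := by
          refine Finset.sum_le_sum fun b hb => ?_
          obtain ⟨h1, h2⟩ := hJI b hb
          have h3 := hFf2 (φ b).1 (hφ b (hIb b h1).1).1.1 h2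
          have h4 := FF_nonneg K δ (φ b).2
          calc FF K δ (φ b).1 * FF K δ (φ b).2 ≤ (w * ff K (φ b).1) * FF K δ (φ b).2 := by gcongr
            _ = _ := by ring
      _ = w * ∑ b ∈ J, ff K (φ b).1 * FF K δ (φ b).2 := by rw [Finset.mul_sum]
      _ = w * ∑ q ∈ J.image φ, ff K q.1 * FF K δ q.2 := by
          rw [Finset.sum_image]
          intro a ha b hb hab
          exact hinj (hJI a ha).1 (hJI b hb).1 hab
      _ ≤ w * ∑ q ∈ (J.image (fun b => (φ b).1)) ×ˢ (J.image (fun b => (φ b).2)), ff K q.1 * FF K δ q.2 := by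
          refine mul_le_mul_of_nonneg_left ?_ hw0.le
          refine Finset.sum_le_sum_of_subset_of_nonneg ?_ fun q _ _ =>
            mul_nonneg (ff_nonneg K _) (FF_nonneg K δ _)
          intro q hq
          obtain ⟨b, hb, rfl⟩ := Finset.mem_image.1 hq
          exact Finset.mem_product.2 ⟨Finset.mem_image_of_mem (fun b => (φ b).1) hb,
            Finset.mem_image_of_mem (fun b => (φ b).2) hb⟩
      _ = w * ((∑ s ∈ J.image (fun b => (φ b).1), ff K s) * ∑ r ∈ J.image (fun b => (φ b).2), FF K δ r) := by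
          rw [Finset.sum_mul_sum, Finset.sum_product]
      _ ≤ w * (Cs * (C1 * δ ^ (-C1))) := by
          have h5 : ∑ s ∈ J.image (fun b => (φ b).1), ff K s ≤ Cs := by
            refine hCs2 _ fun s hs => ?_
            obtain ⟨b, hb, rfl⟩ := Finset.mem_image.1 hs
            exact (hφ b (hIb b (hJI b hb).1).1).1
          have h6 := hFsum (J.image (fun b => (φ b).2))
          have h7 : 0 ≤ ∑ r ∈ J.image (fun b => (φ b).2), FF K δ r :=
            Finset.sum_nonneg fun r _ => FF_nonneg K δ r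
          refine mul_le_mul_of_nonneg_left (mul_le_mul h5 h6 h7 hCs.le) hw0.le
  have hpartB : ∑ b ∈ I.filter (fun b => ¬ Real.sqrt x < ((φ b).1 : ℝ)), FF K δ (φ b).1 * FF K δ (φ b).2 ≤
      Cs * (4 * (K : ℝ) ^ 2 * (η + w) * (C2 * δ ^ (-C2))) := by
    set J := I.filter (fun b => ¬ Real.sqrt x < ((φ b).1 : ℝ)) with hJ
    have hJI : ∀ b ∈ J, b ∈ I ∧ ((φ b).1 : ℝ) ≤ Real.sqrt x := fun b hb => by
      rw [hJ, Finset.mem_filter] at hb
      exact ⟨hb.1, not_lt.1 hb.2⟩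
    have hro0 : 0 ≤ ∑' e, ro G δ e := tsum_nonneg fun e => ro_nonneg G δ e
    have hin : ∀ s ∈ J.image (fun b => (φ b).1), ∑ b ∈ J.filter (fun b => (φ b).1 = s), FF K δ (φ b).2 ≤
        4 * (K : ℝ) ^ 2 * (η + w) * (C2 * δ ^ (-C2)) := by
      intro s hs
      obtain ⟨b0, hb0, rfl⟩ := Finset.mem_image.1 hs
      set s := (φ b0).1 with hs_def
      have hs0 : s ≠ 0 := (hφ b0 (hIb b0 (hJI b0 hb0).1).1).1.1
      have hspos : (0 : ℝ) < s := by exact_mod_cast Nat.pos_of_ne_zero hs0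
      have hsx : (s : ℝ) ≤ Real.sqrt x := (hJI b0 hb0).2
      have hy1 : Real.sqrt x ≤ x / s := by
        rw [le_div_iff₀ hspos]
        calc Real.sqrt x * s ≤ Real.sqrt x * Real.sqrt x := by gcongr
          _ = x := Real.mul_self_sqrt hx0.le
      have hsq1 : 1 ≤ Real.sqrt x := Real.one_le_sqrt.2 hx
      have hy : 1 ≤ x / s := hsq1.trans hy1
      have himg : ∑ b ∈ J.filter (fun b => (φ b).1 = s), FF K δ (φ b).2 =
          ∑ r ∈ (J.filter (fun b => (φ b).1 = s)).image (fun b => (φ b).2), FF K δ r := by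
        rw [Finset.sum_image]
        intro a ha b hb hab
        have ha' := Finset.mem_filter.1 ha
        have hb' := Finset.mem_filter.1 hb
        apply hinj (hJI a ha'.1).1 (hJI b hb'.1).1
        exact Prod.ext (ha'.2.trans hb'.2.symm) hab
      rw [himg]
      have h1 := inner hH K hK δ hδ hδ2 hrs η hη hη1 (x / s) hy
        ((J.filter (fun b => (φ b).1 = s)).image (fun b => (φ b).2)) (by
          intro r hr
          obtain ⟨b, hb, rfl⟩ := Finset.mem_image.1 hr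
          rw [Finset.mem_filter] at hb
          obtain ⟨h2, h3, h4⟩ := hIb b (hJI b hb.1).1
          obtain ⟨h5, h6, h7⟩ := hφ b h2
          have h8 : (b : ℝ) = s * ((φ b).2 : ℝ) := by
            rw [← hb.2]
            exact_mod_cast h7
          refine ⟨?_, ?_, h6.2⟩
          · rw [div_le_iff₀ hspos, mul_comm, ← h8]
            exact h3
          · rw [div_mul_eq_mul_div, le_div_iff₀ hspos, mul_comm, ← h8]
            exact h4)
      refine h1.trans ?_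
      have h9 : (x / s) ^ (-(1 / 2) : ℝ) ≤ w := by
        rw [← hsqw]
        exact Real.rpow_le_rpow_of_nonpos hsq hy1 (by norm_num)
      have h10 : 4 * (K : ℝ) ^ 2 * (η + (x / s) ^ (-(1 / 2) : ℝ)) ≤ 4 * (K : ℝ) ^ 2 * (η + w) := by gcongr
      refine mul_le_mul h10 hro hro0 (by positivity)
    calc ∑ b ∈ J, FF K δ (φ b).1 * FF K δ (φ b).2
        = ∑ s ∈ J.image (fun b => (φ b).1), ∑ b ∈ J.filter (fun b => (φ b).1 = s),
            FF K δ (φ b).1 * FF K δ (φ b).2 := by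
          rw [Finset.sum_fiberwise_of_maps_to]
          exact fun b hb => Finset.mem_image_of_mem _ hb
      _ = ∑ s ∈ J.image (fun b => (φ b).1), FF K δ s * ∑ b ∈ J.filter (fun b => (φ b).1 = s),
            FF K δ (φ b).2 := by
          refine Finset.sum_congr rfl fun s _ => ?_
          rw [Finset.mul_sum]
          refine Finset.sum_congr rfl fun b hb => ?_
          rw [(Finset.mem_filter.1 hb).2]
      _ ≤ ∑ s ∈ J.image (fun b => (φ b).1), ff K s * (4 * (K : ℝ) ^ 2 * (η + w) * (C2 * δ ^ (-C2))) := by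
          refine Finset.sum_le_sum fun s hs => ?_
          obtain ⟨b, hb, hbs⟩ := Finset.mem_image.1 hs
          have h1 := hFf s (by rw [← hbs]; exact (hφ b (hIb b (hJI b hb).1).1).1.1)
          exact mul_le_mul h1 (hin s hs) (Finset.sum_nonneg fun b _ => FF_nonneg K δ _) (ff_nonneg K s)
      _ = (∑ s ∈ J.image (fun b => (φ b).1), ff K s) * (4 * (K : ℝ) ^ 2 * (η + w) * (C2 * δ ^ (-C2))) := by
          rw [Finset.sum_mul]
      _ ≤ Cs * (4 * (K : ℝ) ^ 2 * (η + w) * (C2 * δ ^ (-C2))) := by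
          refine mul_le_mul_of_nonneg_right ?_ (by positivity)
          refine hCs2 _ fun s hs => ?_
          obtain ⟨b, hb, rfl⟩ := Finset.mem_image.1 hs
          exact (hφ b (hIb b (hJI b hb).1).1).1
  have hδ1 : δ ≤ 1 := by linarith
  set C := C1 + C2 + A with hC
  have hd1 : δ ^ (-C1) ≤ δ ^ (-C) :=
    Real.rpow_le_rpow_of_exponent_ge hδ hδ1 (by linarith)
  have hd2 : δ ^ (-C2) ≤ δ ^ (-C) :=
    Real.rpow_le_rpow_of_exponent_ge hδ hδ1 (by linarith)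
  have hdC : 0 < δ ^ (-C) := by positivity
  rw [hsh, ← Finset.sum_filter_add_sum_filter_not I (fun b => Real.sqrt x < ((φ b).1 : ℝ))]
  calc _ ≤ w * (Cs * (C1 * δ ^ (-C1))) + Cs * (4 * (K : ℝ) ^ 2 * (η + w) * (C2 * δ ^ (-C2))) :=
        add_le_add hpartA hpartB
    _ ≤ (η + w) * (Cs * (C1 * δ ^ (-C))) + Cs * (4 * (K : ℝ) ^ 2 * (η + w) * (C2 * δ ^ (-C))) := by
        have h1 : w ≤ η + w := by linarith
        gcongr
    _ = A * (η + w) * δ ^ (-C) := by rw [hA]; ring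
    _ ≤ C * (η + w) * δ ^ (-C) := by
        have h1 : A ≤ C := by rw [hC]; linarith
        have h2 : 0 ≤ η + w := by linarith
        gcongr

end Pool.Agent.T2H19.ZA
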