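import Pool.Agent.T2H19.ZA.Stm
import Pool.Agent.H306R2.Arith

/-! # Package SUBM: `d_k(g a) ≤ d_k(g) d_K(a)` -/

set_option autoImplicit false

namespace Pool.Agent.T2H19.ZA

open Finset Filter Topology MeasureTheory Pool.Agent.H306R2

namespace PkgSUBM

lemma lc_sub {k : ℝ} {K : ℕ} (hk : 0 < k) (hK : 1 ≤ K) (hkK : k ≤ K) (i j : ℕ) :
    lc k (i + j) ≤ lc k i * lc K j := by
  induction j with
  | zero => simp [lc_zero]
  | succ j ih =>
    rw [← add_assoc, lc_succ, lc_succ]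
    have hK' : (1 : ℝ) ≤ K := by exact_mod_cast hK
    have h1 : (k + ((i + j : ℕ) : ℝ)) / (((i + j : ℕ) : ℝ) + 1) ≤ ((K : ℝ) + j) / ((j : ℝ) + 1) := by
      rw [div_le_div_iff₀ (by positivity) (by positivity)]
      push_cast
      have h2 : 0 ≤ (i : ℝ) * ((K : ℝ) - 1) := mul_nonneg (Nat.cast_nonneg i) (by linarith)
      have h3 : 0 ≤ ((K : ℝ) - k) * ((j : ℝ) + 1) := mul_nonneg (by linarith) (by positivity)
      nlinarith
    calc lc k (i + j) * ((k + ((i + j : ℕ) : ℝ)) / (((i + j : ℕ) : ℝ) + 1))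
        ≤ (lc k i * lc K j) * (((K : ℝ) + j) / ((j : ℝ) + 1)) :=
          mul_le_mul ih h1 (by positivity)
            (mul_nonneg (lc_nonneg hk.le i) (lc_nonneg (Nat.cast_nonneg K) j))
      _ = _ := by ring

lemma dv_eq (α : ℝ) {n : ℕ} (hn : n ≠ 0) {S : Finset ℕ} (hS : n.primeFactors ⊆ S) :
    dv α n = ∏ p ∈ S, lc α (n.factorization p) := by
  unfold dv
  rw [if_neg hn]
  refine Finsupp.prod_of_support_subset _ ?_ _ fun p _ => lc_zero α
  rw [Nat.support_factorization]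
  exact hS

end PkgSUBM

open PkgSUBM

theorem T_SUBM : P_SUBM := by
  intro k K hk hK hkK g a
  rcases eq_or_ne g 0 with rfl | hg
  · simp [dv]
  rcases eq_or_ne a 0 with rfl | ha
  · simp [dv]
  have hga : g * a ≠ 0 := mul_ne_zero hg ha
  rw [dv_eq k hga (Finset.Subset.refl _),
    dv_eq k hg (Nat.primeFactors_mono (dvd_mul_right g a) hga),
    dv_eq K ha (Nat.primeFactors_mono (dvd_mul_left a g) hga), ← Finset.prod_mul_distrib]
  refine Finset.prod_le_prod (fun p _ => lc_nonneg hk.le _) fun p _ => ?_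
  rw [Nat.factorization_mul hg ha, Finsupp.add_apply]
  exact lc_sub hk hK hkK _ _

end Pool.Agent.T2H19.ZA
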