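import Pool.Agent.T2H19.ZA.Stm
import Pool.Agent.H306R2.EP

/-! # Package SUMM: the sum of `d_κ(n)^2 n^(-1-2δ)` -/

set_option autoImplicit false

namespace Pool.Agent.T2H19.ZA

open Finset Filter Topology MeasureTheory Pool.Agent.H306R2

namespace PkgSUMM

lemma zeta_norm_le {σ : ℝ} (hσ : 0 < σ) : ‖riemannZeta ((1 + σ : ℝ) : ℂ)‖ ≤ 1 + 1 / σ := by
  have h := ZetaAsymptotics.zeta_limit_aux1 (s := 1 + σ) (by linarith)
  have h2 : 0 ≤ ZetaAsymptotics.termTSum (1 + σ) :=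
    tsum_nonneg fun n => ZetaAsymptotics.term_nonneg _ _
  have h2' : 0 ≤ (1 + σ) * ZetaAsymptotics.termTSum (1 + σ) := mul_nonneg (by linarith) h2
  have h3 : ∑' n : ℕ, 1 / (n + 1 : ℝ) ^ (1 + σ) ≤ 1 + 1 / σ := by
    have : 1 + σ - 1 = σ := by ring
    rw [this] at h
    linarith
  have h4 : ∀ n : ℕ, ‖1 / ((n : ℂ) + 1) ^ ((1 + σ : ℝ) : ℂ)‖ = 1 / (n + 1 : ℝ) ^ (1 + σ) := by
    intro n
    have e : ((n : ℂ) + 1) = ((n + 1 : ℕ) : ℂ) := by push_cast; ring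
    rw [norm_div, norm_one, e, Complex.norm_natCast_cpow_of_pos (Nat.succ_pos n)]
    rw [Complex.ofReal_re]
    push_cast
    ring
  rw [zeta_eq_tsum_one_div_nat_add_one_cpow (s := ((1 + σ : ℝ) : ℂ)) (by
    rw [Complex.ofReal_re]; linarith)]
  have hs : Summable (fun n : ℕ => 1 / (n + 1 : ℝ) ^ (1 + σ)) := by
    have h5 := (Real.summable_one_div_nat_rpow (p := 1 + σ)).mpr (by linarith)
    have h6 := (summable_nat_add_iff 1).mpr h5
    refine h6.congr fun n => ?_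
    push_cast
    ring
  refine (norm_tsum_le_tsum_norm ?_).trans ?_
  · exact hs.congr fun n => (h4 n).symm
  · rw [tsum_congr h4]
    exact h3

lemma dvJ_tsum (J : ℕ) {σ : ℝ} (hσ : 0 < σ) :
    ∑' n : ℕ, dv J n * (n : ℝ) ^ (-1 - σ) ≤ (1 + 1 / σ) ^ J := by
  have h := zetaA_hasSum J 1 1 (by
    intro n hn
    rw [ArithmeticFunction.one_apply_ne]
    rintro rfl
    simp at hn) ((1 + σ : ℝ) : ℂ) (by simp [hσ])
  have hD : Dp (1 : ArithmeticFunction ℝ) 1 ((1 + σ : ℝ) : ℂ) = 1 := by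
    unfold Dp; simp
  rw [hD] at h
  have h1 : ∀ n : ℕ, (((zR ^ J * 1) n : ℝ) : ℂ) * (n : ℂ) ^ (-((1 + σ : ℝ) : ℂ)) =
      ((dv J n * (n : ℝ) ^ (-1 - σ) : ℝ) : ℂ) := by
    intro n
    rw [mul_one, ← dA_nat, dA_apply]
    rcases Nat.eq_zero_or_pos n with h0 | h0
    · subst h0; simp [dv]
    · rw [Complex.ofReal_mul, Complex.ofReal_cpow (Nat.cast_nonneg n)]
      congr 2
      push_cast
      ring
  have h2 : HasSum (fun n : ℕ => ((dv J n * (n : ℝ) ^ (-1 - σ) : ℝ) : ℂ))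
      (riemannZeta ((1 + σ : ℝ) : ℂ) ^ J) := by
    rw [mul_one (riemannZeta ((1 + σ : ℝ) : ℂ) ^ J)] at h
    refine h.congr_fun ?_
    intro n
    exact (h1 n).symm
  have h3 := h2.tsum_eq
  rw [← Complex.ofReal_tsum] at h3
  have h4 := congrArg (fun z : ℂ => ‖z‖) h3
  simp only [Complex.norm_real, norm_pow] at h4
  calc ∑' n : ℕ, dv J n * (n : ℝ) ^ (-1 - σ)
      ≤ ‖∑' n : ℕ, dv J n * (n : ℝ) ^ (-1 - σ)‖ := Real.le_norm_self _
    _ = ‖riemannZeta ((1 + σ : ℝ) : ℂ)‖ ^ J := h4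
    _ ≤ _ := pow_le_pow_left₀ (norm_nonneg _) (zeta_norm_le hσ) J

end PkgSUMM

open PkgSUMM

theorem T_SUMM : P_SUMM := by
  intro κ hκ
  obtain ⟨J, hJ⟩ := exists_nat_ge (κ ^ 2)
  have hterm : ∀ (δ : ℝ) (n : ℕ), dv κ n ^ 2 * (n : ℝ) ^ (-(1 + 2 * δ)) ≤
      dv J n * (n : ℝ) ^ (-1 - 2 * δ) := by
    intro δ n
    rw [neg_add']
    exact mul_le_mul_of_nonneg_right ((dv_sq_le hκ.le n).trans (dv_mono (by positivity) hJ n))
      (by positivity)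
  refine ⟨J + 1, by positivity, fun δ hδ hδ2 => ?_⟩
  have hsum := dvJ_summable J (σ := 2 * δ) (by linarith)
  have hS : Summable (fun n : ℕ => dv κ n ^ 2 * (n : ℝ) ^ (-(1 + 2 * δ))) :=
    Summable.of_nonneg_of_le (fun n => by positivity) (hterm δ) hsum
  refine ⟨hS, ?_⟩
  calc mo κ δ ≤ ∑' n : ℕ, dv J n * (n : ℝ) ^ (-1 - 2 * δ) := hS.tsum_le_tsum (hterm δ) hsum
    _ ≤ (1 + 1 / (2 * δ)) ^ J := dvJ_tsum J (by linarith)
    _ ≤ (δ⁻¹) ^ J := by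
        refine pow_le_pow_left₀ (by positivity) ?_ J
        rw [show (1 : ℝ) + 1 / (2 * δ) = (2 * δ + 1) / (2 * δ) by field_simp,
          div_le_iff₀ (by linarith)]
        field_simp
        linarith
    _ = δ ^ (-(J : ℝ)) := by rw [Real.rpow_neg hδ.le, Real.rpow_natCast, inv_pow]
    _ ≤ δ ^ (-((J : ℝ) + 1)) :=
        Real.rpow_le_rpow_of_exponent_ge hδ (by linarith) (by linarith)
    _ ≤ ((J : ℝ) + 1) * δ ^ (-((J : ℝ) + 1)) := by
        have h1 : 0 ≤ δ ^ (-((J : ℝ) + 1)) := by positivity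
        have h2 : (0 : ℝ) ≤ J := Nat.cast_nonneg J
        nlinarith

end Pool.Agent.T2H19.ZA
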