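import Pool.Agent.T2H19.ZA.Stm
import Pool.Agent.H306R2.Arith

set_option autoImplicit false

namespace Pool.Agent.T2H19.ZA.Fin

open Finset Filter Topology MeasureTheory Pool.Agent.H306R2

/-- the function whose mean is `JD` -/
noncomputable def gF (c : ℕ → ℝ) (τ : ℝ) : ℝ :=
  ‖∑' n : ℕ, (c n : ℂ) * (n : ℂ) ^ (-((τ : ℂ) * Complex.I))‖ ^ 2

lemma gF_cont (c : ℕ → ℝ) (h0 : c 0 = 0) (hc : ∀ n, 0 ≤ c n) (hs : Summable c) : Continuous (gF c) := by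
  unfold gF
  apply Continuous.pow
  apply Continuous.norm
  refine continuous_tsum (u := c) ?_ hs ?_
  · intro n
    rcases Nat.eq_zero_or_pos n with rfl | hn
    · simp only [h0, Complex.ofReal_zero, zero_mul]
      exact continuous_const
    · have hn0 : (n:ℂ) ≠ 0 := by exact_mod_cast hn.ne'
      refine continuous_const.mul ?_
      refine Continuous.const_cpow ?_ (Or.inl hn0)
      fun_prop
  · intro n τ
    rcases Nat.eq_zero_or_pos n with rfl | hn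
    · simp [h0]
    · rw [norm_mul, Complex.norm_real, Real.norm_eq_abs, abs_of_nonneg (hc n)]
      have : ‖(n:ℂ) ^ (-((τ:ℂ) * Complex.I))‖ = 1 := by
        rw [Complex.norm_natCast_cpow_of_pos hn]
        simp
      rw [this, mul_one]

lemma JD_eq (c : ℕ → ℝ) (T α : ℝ) : JD c T α = 1 / T * ∫ t in (0:ℝ)..T, gF c (α + t) := rfl

lemma JD_cont (c : ℕ → ℝ) (T : ℝ) (h0 : c 0 = 0) (hc : ∀ n, 0 ≤ c n) (hs : Summable c) :
    Continuous (fun α => JD c T α) := by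
  simp only [JD_eq]
  refine continuous_const.mul ?_
  refine intervalIntegral.continuous_parametric_intervalIntegral_of_continuous' ?_ 0 T
  exact (gF_cont c h0 hc hs).comp (by fun_prop)

lemma co_zero (k σ : ℝ) (M : ℕ) : co k σ M 0 = 0 := by simp [co]

lemma co_nonneg {k : ℝ} (hk : 0 ≤ k) (σ : ℝ) (M n : ℕ) : 0 ≤ co k σ M n := by
  unfold co
  split_ifs
  · exact mul_nonneg (dv_nonneg hk n) (Real.rpow_nonneg (Nat.cast_nonneg _) _)
  · exact le_rfl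

lemma co_mul (hSub : P_SUBM) {k : ℝ} {K : ℕ} (hk : 0 < k) (hK : 1 ≤ K) (hkK : k ≤ K) (σ : ℝ) (M g a : ℕ) :
    co k σ M (g * a) ≤ co k σ M g * (dv K a * (a:ℝ) ^ (-σ)) := by
  by_cases h : g * a ≠ 0 ∧ ∀ p : ℕ, p.Prime → p ∣ g * a → p ≤ M
  · have hg : g ≠ 0 ∧ ∀ p : ℕ, p.Prime → p ∣ g → p ≤ M :=
      ⟨left_ne_zero_of_mul h.1, fun p hp hd => h.2 p hp (hd.mul_right a)⟩
    unfold co
    rw [if_pos h, if_pos hg]
    push_cast
    rw [Real.mul_rpow (Nat.cast_nonneg _) (Nat.cast_nonneg _)]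
    have h1 := hSub k K hk hK hkK g a
    have h2 : (0:ℝ) ≤ (g:ℝ) ^ (-σ) * (a:ℝ) ^ (-σ) :=
      mul_nonneg (Real.rpow_nonneg (Nat.cast_nonneg _) _) (Real.rpow_nonneg (Nat.cast_nonneg _) _)
    calc dv k (g * a) * ((g:ℝ) ^ (-σ) * (a:ℝ) ^ (-σ)) ≤ (dv k g * dv K a) * ((g:ℝ) ^ (-σ) * (a:ℝ) ^ (-σ)) :=
          mul_le_mul_of_nonneg_right h1 h2
      _ = _ := by ring
  · have : co k σ M (g * a) = 0 := by
      unfold co
      rw [if_neg h]
    rw [this]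
    exact mul_nonneg (co_nonneg hk.le _ _ _)
      (mul_nonneg (dv_nonneg (Nat.cast_nonneg K) a) (Real.rpow_nonneg (Nat.cast_nonneg _) _))

lemma sq_summable {c : ℕ → ℝ} (hc : ∀ n, 0 ≤ c n) (hs : Summable c) : Summable (fun n => c n ^ 2) := by
  refine Summable.of_nonneg_of_le (fun n => sq_nonneg _) (fun n => ?_) (hs.mul_left (∑' n, c n))
  rw [pow_two]
  exact mul_le_mul_of_nonneg_right (hs.le_tsum n (fun m _ => hc m)) (hc n)

lemma ratio_le (hSub : P_SUBM) {k δ T : ℝ} {K : ℕ} (hk : 0 < k) (hK : 1 ≤ K) (hkK : k ≤ K) (M : ℕ)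
    (hs : Summable (co k (1 / 2 + δ) M)) (a b : ℕ) (ha : 1 ≤ a) (hb : 1 ≤ b) (hab : a ≠ b) :
    (∑' g : ℕ, co k (1 / 2 + δ) M (g * a) * co k (1 / 2 + δ) M (g * b)) ^ 2 * ker T a b ≤
      (∑' n : ℕ, co k (1 / 2 + δ) M n ^ 2) ^ 2 * WW K T δ (a, b) := by
  set σ := 1 / 2 + δ with hσ
  set c := co k σ M with hcdef
  have hc : ∀ n, 0 ≤ c n := co_nonneg hk.le _ _
  have hs2 := sq_summable hc hs
  set Da := dv K a * (a:ℝ) ^ (-σ) with hDa
  set Db := dv K b * (b:ℝ) ^ (-σ) with hDb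
  have hDa0 : 0 ≤ Da := mul_nonneg (dv_nonneg (Nat.cast_nonneg K) a) (Real.rpow_nonneg (Nat.cast_nonneg _) _)
  have hDb0 : 0 ≤ Db := mul_nonneg (dv_nonneg (Nat.cast_nonneg K) b) (Real.rpow_nonneg (Nat.cast_nonneg _) _)
  have hterm : ∀ g, c (g * a) * c (g * b) ≤ Da * Db * c g ^ 2 := by
    intro g
    have h1 := co_mul hSub hk hK hkK σ M g a
    have h2 := co_mul hSub hk hK hkK σ M g b
    calc c (g * a) * c (g * b) ≤ (c g * Da) * (c g * Db) :=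
          mul_le_mul h1 h2 (hc _) (mul_nonneg (hc g) hDa0)
      _ = _ := by ring
  have hS : Summable (fun g => c (g * a) * c (g * b)) :=
    Summable.of_nonneg_of_le (fun g => mul_nonneg (hc _) (hc _)) hterm (hs2.mul_left _)
  have h1 : ∑' g, c (g * a) * c (g * b) ≤ Da * Db * ∑' g, c g ^ 2 := by
    rw [← tsum_mul_left]
    exact hS.tsum_le_tsum hterm (hs2.mul_left _)
  have h0 : 0 ≤ ∑' g, c (g * a) * c (g * b) := tsum_nonneg fun g => mul_nonneg (hc _) (hc _)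
  have hker : 0 ≤ ker T a b := le_min zero_le_one (by positivity)
  have hWW : WW K T δ (a, b) = (Da * Db) ^ 2 * ker T a b := by
    unfold WW
    rw [if_pos ⟨ha, hb, hab⟩]
    simp only []
    have e1 : ((a:ℝ) * b) ^ (-(1 + 2 * δ)) = ((a:ℝ) ^ (-σ) * (b:ℝ) ^ (-σ)) ^ 2 := by
      rw [← Real.mul_rpow (Nat.cast_nonneg _) (Nat.cast_nonneg _), ← Real.rpow_natCast, ← Real.rpow_mul (by positivity)]
      congr 1
      rw [hσ]
      push_cast
      ring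
    rw [e1, hDa, hDb]
    ring
  rw [hWW]
  calc (∑' g, c (g * a) * c (g * b)) ^ 2 * ker T a b ≤ (Da * Db * ∑' g, c g ^ 2) ^ 2 * ker T a b := by
        gcongr
    _ = _ := by ring

lemma cheb (f : ℝ → ℝ) (hf : Continuous f) (H lam B : ℝ) (hH : 0 ≤ H) (hl : 0 < lam)
    (h : ∫ α in (0:ℝ)..H, (f α) ^ 2 ≤ B) :
    volume {α : ℝ | 0 ≤ α ∧ α ≤ H ∧ lam < |f α|} ≤ ENNReal.ofReal (B / lam ^ 2) := by
  have hint : IntegrableOn (fun α => f α ^ 2) (Set.Icc 0 H) volume := (hf.pow 2).continuousOn.integrableOn_Icc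
  have h1 := mul_meas_ge_le_integral_of_nonneg (μ := volume.restrict (Set.Icc 0 H)) (f := fun α => f α ^ 2)
    (Eventually.of_forall fun _ => sq_nonneg _) hint (lam ^ 2)
  rw [integral_Icc_eq_integral_Ioc, ← intervalIntegral.integral_of_le hH] at h1
  have hms : MeasurableSet {x : ℝ | lam ^ 2 ≤ f x ^ 2} := measurableSet_le measurable_const (hf.pow 2).measurable
  have h2 : volume {α : ℝ | 0 ≤ α ∧ α ≤ H ∧ lam < |f α|} ≤ (volume.restrict (Set.Icc 0 H)) {x | lam ^ 2 ≤ f x ^ 2} := by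
    rw [Measure.restrict_apply hms]
    apply measure_mono
    intro α hα
    obtain ⟨ha, hb, hc⟩ := hα
    refine ⟨?_, ha, hb⟩
    show lam ^ 2 ≤ f α ^ 2
    rw [← sq_abs (f α)]
    gcongr
  refine h2.trans ?_
  rw [← ENNReal.ofReal_toReal (measure_ne_top (volume.restrict (Set.Icc 0 H)) {x | lam ^ 2 ≤ f x ^ 2})]
  apply ENNReal.ofReal_le_ofReal
  rw [le_div_iff₀ (by positivity)]
  have h3 : (volume.restrict (Set.Icc 0 H)).real {x | lam ^ 2 ≤ f x ^ 2} =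
    ((volume.restrict (Set.Icc 0 H)) {x | lam ^ 2 ≤ f x ^ 2}).toReal := rfl
  rw [h3] at h1
  linarith

lemma near {k ρ η : ℝ} {z w : ℂ} {g : ℝ} (hk : 0 < k) (hρ : 0 < ρ) (hρ1 : ρ < 1) (h : ‖z * w - 1‖ ≤ ρ)
    (h1 : (1 + ρ) ^ (2 * k) ≤ 1 + η) (h2 : 1 - η ≤ (1 - ρ) ^ (2 * k)) (hw : ‖w‖ ^ (-(2 * k)) = g) :
    (1 - η) * g ≤ ‖z‖ ^ (2 * k) ∧ ‖z‖ ^ (2 * k) ≤ (1 + η) * g := by
  have ha : ‖z * w‖ ≤ 1 + ρ := by
    calc ‖z * w‖ = ‖(z * w - 1) + 1‖ := by ring_nf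
      _ ≤ ‖z * w - 1‖ + ‖(1:ℂ)‖ := norm_add_le _ _
      _ ≤ 1 + ρ := by rw [norm_one]; linarith
  have hb : 1 - ρ ≤ ‖z * w‖ := by
    have : ‖(1:ℂ)‖ ≤ ‖z * w‖ + ‖z * w - 1‖ := by
      calc ‖(1:ℂ)‖ = ‖z * w - (z * w - 1)‖ := by ring_nf
        _ ≤ _ := norm_sub_le _ _
    rw [norm_one] at this
    linarith
  have hw0 : 0 < ‖w‖ := by
    rcases (norm_nonneg w).lt_or_eq with h0 | h0
    · exact h0
    · exfalso
      rw [norm_mul, ← h0, mul_zero] at hb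
      linarith
  have hg : 0 < g := by rw [← hw]; positivity
  have hz : ‖z‖ ^ (2 * k) = ‖z * w‖ ^ (2 * k) * g := by
    rw [← hw, norm_mul, Real.mul_rpow (norm_nonneg _) (norm_nonneg _), mul_assoc, ← Real.rpow_add hw0]
    simp
  rw [hz]
  constructor
  · refine mul_le_mul_of_nonneg_right (h2.trans ?_) hg.le
    exact Real.rpow_le_rpow (by linarith) hb (by positivity)
  · refine mul_le_mul_of_nonneg_right (le_trans ?_ h1) hg.le
    exact Real.rpow_le_rpow (norm_nonneg _) ha (by positivity)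

end Pool.Agent.T2H19.ZA.Fin
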