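import Pool.Agent.T2H19.ZA.FINA

set_option autoImplicit false

namespace Pool.Agent.T2H19.ZA.Fin

open Finset Filter Topology MeasureTheory Pool.Agent.H306R2

lemma exists_rho {k η : ℝ} (hη : 0 < η) :
    ∃ ρ : ℝ, 0 < ρ ∧ ρ < 1 ∧ (1 + ρ) ^ (2 * k) ≤ 1 + η ∧ 1 - η ≤ (1 - ρ) ^ (2 * k) := by
  have h1 : Tendsto (fun ρ : ℝ => (1 + ρ) ^ (2 * k)) (𝓝 0) (𝓝 1) := by
    have : ContinuousAt (fun ρ : ℝ => (1 + ρ) ^ (2 * k)) 0 := by
      refine ContinuousAt.rpow_const (by fun_prop) (Or.inl (by norm_num))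
    have h := this.tendsto
    simpa using h
  have h2 : Tendsto (fun ρ : ℝ => (1 - ρ) ^ (2 * k)) (𝓝 0) (𝓝 1) := by
    have : ContinuousAt (fun ρ : ℝ => (1 - ρ) ^ (2 * k)) 0 := by
      refine ContinuousAt.rpow_const (by fun_prop) (Or.inl (by norm_num))
    have h := this.tendsto
    simpa using h
  have h3 : ∀ᶠ ρ : ℝ in 𝓝[>] 0, (1 + ρ) ^ (2 * k) ≤ 1 + η ∧ 1 - η ≤ (1 - ρ) ^ (2 * k) := by
    have ha := h1.eventually (eventually_le_nhds (show (1:ℝ) < 1 + η by linarith))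
    have hb := h2.eventually (eventually_ge_nhds (show 1 - η < (1:ℝ) by linarith))
    exact (ha.and hb).filter_mono nhdsWithin_le_nhds
  have h4 : ∀ᶠ ρ : ℝ in 𝓝[>] 0, ρ < 1 := (eventually_lt_nhds one_pos).filter_mono nhdsWithin_le_nhds
  have h5 : ∀ᶠ ρ : ℝ in 𝓝[>] 0, 0 < ρ := eventually_mem_nhdsWithin
  obtain ⟨ρ, ⟨h6, h7⟩, h8, h9⟩ := (h3.and (h4.and h5)).exists
  exact ⟨ρ, h9, h8, h6, h7⟩

/-- the value of zeta to the power `2k` -/
noncomputable def Z (k δ τ : ℝ) : ℝ :=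
  ‖riemannZeta (((1 / 2 + δ : ℝ) : ℂ) + (τ : ℂ) * Complex.I)‖ ^ (2 * k)

lemma Z_cont {k δ : ℝ} (hk : 0 < k) (hδ : δ < 1 / 4) : Continuous (Z k δ) := by
  unfold Z
  refine Continuous.rpow_const ?_ (fun _ => Or.inr (by positivity))
  refine Continuous.norm ?_
  refine continuous_iff_continuousAt.2 fun τ => ?_
  have hs : (((1 / 2 + δ : ℝ) : ℂ) + (τ : ℂ) * Complex.I) ≠ 1 := by
    intro h
    have := congrArg Complex.re h
    simp at this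
    linarith
  have h1 : ContinuousAt riemannZeta (((1 / 2 + δ : ℝ) : ℂ) + (τ : ℂ) * Complex.I) :=
    (differentiableAt_riemannZeta hs).continuousAt
  exact ContinuousAt.comp (f := fun τ : ℝ => (((1 / 2 + δ : ℝ) : ℂ) + (τ : ℂ) * Complex.I)) h1 (by fun_prop)

/-- comparison of the two means -/
lemma mean_near {k δ T α ρ η : ℝ} {M : ℕ} (hk : 0 < k) (hδ : δ < 1 / 4) (hT : 0 < T) (hρ : 0 < ρ) (hρ1 : ρ < 1)
    (h1 : (1 + ρ) ^ (2 * k) ≤ 1 + η) (h2 : 1 - η ≤ (1 - ρ) ^ (2 * k))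
    (hcs : Summable (co k (1 / 2 + δ) M))
    (hpow : ∀ τ : ℝ, ‖ZU.EM M (fun _ => 1) (((1 / 2 + δ : ℝ) : ℂ) + (τ : ℂ) * Complex.I)‖ ^ (-(2 * k)) =
      gF (co k (1 / 2 + δ) M) τ)
    (hz : ∀ t : ℝ, 0 ≤ t → t ≤ T → ‖riemannZeta (((1 / 2 + δ : ℝ) : ℂ) + ((α + t : ℝ) : ℂ) * Complex.I) *
        ZU.EM M (fun _ => 1) (((1 / 2 + δ : ℝ) : ℂ) + ((α + t : ℝ) : ℂ) * Complex.I) - 1‖ ≤ ρ) :
    (1 - η) * JD (co k (1 / 2 + δ) M) T α ≤ 1 / T * ∫ t in α..(α + T), Z k δ t ∧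
      1 / T * ∫ t in α..(α + T), Z k δ t ≤ (1 + η) * JD (co k (1 / 2 + δ) M) T α := by
  set c := co k (1 / 2 + δ) M with hc
  have hg : Continuous (gF c) := gF_cont c (co_zero _ _ _) (co_nonneg hk.le _ _) hcs
  have hZ : Continuous (Z k δ) := Z_cont hk hδ
  have e1 : ∫ t in α..(α + T), Z k δ t = ∫ t in (0:ℝ)..T, Z k δ (α + t) := by
    rw [intervalIntegral.integral_comp_add_left (fun t => Z k δ t) α, add_zero]
  rw [e1, JD_eq]
  have hpt : ∀ t ∈ Set.Icc (0:ℝ) T, (1 - η) * gF c (α + t) ≤ Z k δ (α + t) ∧ Z k δ (α + t) ≤ (1 + η) * gF c (α + t) := by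
    intro t ht
    exact near hk hρ hρ1 (hz t ht.1 ht.2) h1 h2 (hpow (α + t))
  have hgi : IntervalIntegrable (fun t => gF c (α + t)) volume 0 T := (hg.comp (by fun_prop)).intervalIntegrable _ _
  have hZi : IntervalIntegrable (fun t => Z k δ (α + t)) volume 0 T := (hZ.comp (by fun_prop)).intervalIntegrable _ _
  have hT' : 0 < 1 / T := by positivity
  constructor
  · have : (1 - η) * (1 / T * ∫ t in (0:ℝ)..T, gF c (α + t)) = 1 / T * ∫ t in (0:ℝ)..T, (1 - η) * gF c (α + t) := by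
      rw [intervalIntegral.integral_const_mul]
      ring
    rw [this]
    refine mul_le_mul_of_nonneg_left ?_ hT'.le
    exact intervalIntegral.integral_mono_on hT.le (hgi.const_mul _) hZi (fun t ht => (hpt t ht).1)
  · have : (1 + η) * (1 / T * ∫ t in (0:ℝ)..T, gF c (α + t)) = 1 / T * ∫ t in (0:ℝ)..T, (1 + η) * gF c (α + t) := by
      rw [intervalIntegral.integral_const_mul]
      ring
    rw [this]
    refine mul_le_mul_of_nonneg_left ?_ hT'.le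
    exact intervalIntegral.integral_mono_on hT.le hZi (hgi.const_mul _) (fun t ht => (hpt t ht).2)

lemma final_ineq2 {η J S m I : ℝ} (hη : 0 < η) (hη1 : η ≤ 1 / 2) (hm : 0 < m)
    (hJ : |J - S| ≤ η * S) (hS : |S - m| ≤ η * m) (h1 : (1 - η) * J ≤ I) (h2 : I ≤ (1 + η) * J) :
    |I / m - 1| ≤ 7 * η := by
  rw [abs_le] at hJ hS
  have hI1 : I ≤ (1 + 7 * η) * m := by
    have a1 : J ≤ (1 + η) * S := by linarith [hJ.2]
    have a2 : S ≤ (1 + η) * m := by linarith [hS.2]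
    calc I ≤ (1 + η) * J := h2
      _ ≤ (1 + η) * ((1 + η) * S) := by gcongr
      _ ≤ (1 + η) * ((1 + η) * ((1 + η) * m)) := by gcongr
      _ = (1 + 3 * η + 3 * η ^ 2 + η ^ 3) * m := by ring
      _ ≤ (1 + 7 * η) * m := by
        refine mul_le_mul_of_nonneg_right ?_ hm.le
        nlinarith [mul_pos hη hη, mul_pos (mul_pos hη hη) hη]
  have hI2 : (1 - 7 * η) * m ≤ I := by
    have a1 : (1 - η) * S ≤ J := by linarith [hJ.1]
    have a2 : (1 - η) * m ≤ S := by linarith [hS.1]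
    have h0 : 0 ≤ 1 - η := by linarith
    calc (1 - 7 * η) * m ≤ (1 - 3 * η + 3 * η ^ 2 - η ^ 3) * m := by
          refine mul_le_mul_of_nonneg_right ?_ hm.le
          nlinarith [mul_pos hη hη, mul_pos (mul_pos hη hη) hη]
      _ = (1 - η) * ((1 - η) * ((1 - η) * m)) := by ring
      _ ≤ (1 - η) * ((1 - η) * S) := by gcongr
      _ ≤ (1 - η) * J := by gcongr
      _ ≤ I := h1
  rw [abs_le]
  constructor
  · have : 1 - 7 * η ≤ I / m := by rw [le_div_iff₀ hm]; exact hI2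
    linarith
  · have : I / m ≤ 1 + 7 * η := by rw [div_le_iff₀ hm]; exact hI1
    linarith

/-- the strong form: relative error `ε = δ ^ (-C) T ^ (-1/24)` outside a set of proportion `ε` -/
theorem fin (hMS : P_MS) (hSub : P_SUBM) (hVB : P_VB) (hPOW : P_POW) (hAPX : P_APX) (hMMM : P_MMM)
    (k : ℝ) (hk : 0 < k) :
    ∃ C : ℝ, 0 < C ∧ ∀ δ : ℝ, 0 < δ → δ ≤ 1 / 8 → ∀ T : ℝ, 1 ≤ T →
      ∃ H₀ : ℝ, ∀ H : ℝ, H₀ ≤ H →
        volume {α : ℝ | 0 ≤ α ∧ α ≤ H ∧ δ ^ (-C) * T ^ (-(1 / 24) : ℝ) < |(1 / T * ∫ t in α..(α + T),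
          ‖riemannZeta (1 / 2 + (δ : ℂ) + (t : ℂ) * Complex.I)‖ ^ (2 * k)) / mo k δ - 1|} ≤
            ENNReal.ofReal (δ ^ (-C) * T ^ (-(1 / 24) : ℝ) * H) := by
  set K : ℕ := ⌈k⌉₊ with hK
  have hK1 : 1 ≤ K := Nat.ceil_pos.2 hk
  have hkK : k ≤ K := Nat.le_ceil k
  obtain ⟨C₁, hC₁, hV⟩ := hVB K hK1
  obtain ⟨D, hD⟩ : ∃ D : ℕ, C₁ * (1 / 8 : ℝ) ^ D ≤ 1 / 400 := by
    obtain ⟨D, hD⟩ := exists_pow_lt_of_lt_one (show 0 < 1 / (400 * C₁) by positivity) (show (1 / 8 : ℝ) < 1 by norm_num)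
    refine ⟨D, ?_⟩
    rw [lt_div_iff₀ (by positivity)] at hD
    linarith
  refine ⟨C₁ + D, by positivity, fun δ hδ hδ8 T hT1 => ?_⟩
  have hT0 : 0 < T := by linarith
  set ε : ℝ := δ ^ (-(C₁ + D)) * T ^ (-(1 / 24) : ℝ) with hεdef
  have hε : 0 < ε := mul_pos (Real.rpow_pos_of_pos hδ _) (Real.rpow_pos_of_pos hT0 _)
  by_cases hε1 : 1 ≤ ε
  · refine ⟨0, fun H hH => ?_⟩
    calc _ ≤ volume (Set.Icc (0:ℝ) H) := measure_mono fun α hα => ⟨hα.1, hα.2.1⟩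
      _ = ENNReal.ofReal H := by rw [Real.volume_Icc, sub_zero]
      _ ≤ ENNReal.ofReal (ε * H) := ENNReal.ofReal_le_ofReal (by nlinarith)
  have hε1 : ε ≤ 1 := le_of_not_ge hε1
  set η : ℝ := ε / 7 with hηdef
  have hη0 : 0 < η := by positivity
  have hη1 : η ≤ 1 / 2 := by linarith
  obtain ⟨ρ, hρ0, hρ1, hρa, hρb⟩ := exists_rho (k := k) hη0
  obtain ⟨hWs, hWle⟩ := hV δ hδ (by linarith) T hT1
  have hWle' : ∑' q : ℕ × ℕ, WW K T δ q ≤ 1 / 400 * ε ^ 3 := by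
    refine hWle.trans ?_
    have h3 : ε ^ 3 = δ ^ (-(3 * (C₁ + D))) * T ^ (-(1 / 8) : ℝ) := by
      rw [hεdef, mul_pow, ← Real.rpow_natCast, ← Real.rpow_mul hδ.le, ← Real.rpow_natCast, ← Real.rpow_mul hT0.le]
      congr 1
      · congr 1
        push_cast
        ring
      · congr 1
        push_cast
        norm_num
    have h4 : δ ^ (-C₁) * (8:ℝ) ^ D ≤ δ ^ (-(3 * (C₁ + D))) := by
      have h5 : (8:ℝ) ^ D ≤ δ ^ (-(D:ℝ)) := by
        rw [Real.rpow_neg hδ.le, Real.rpow_natCast, ← inv_pow]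
        refine pow_le_pow_left₀ (by norm_num) ?_ D
        rw [le_inv_comm₀ (by norm_num) hδ]
        linarith
      calc δ ^ (-C₁) * (8:ℝ) ^ D ≤ δ ^ (-C₁) * δ ^ (-(D:ℝ)) := by gcongr
        _ = δ ^ (-(C₁ + D)) := by
            rw [← Real.rpow_add hδ]
            congr 1
            ring
        _ ≤ δ ^ (-(3 * (C₁ + D))) := by
            refine Real.rpow_le_rpow_of_exponent_ge hδ (by linarith) ?_
            have : 0 ≤ C₁ + D := by positivity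
            linarith
    have h6 : C₁ ≤ 1 / 400 * (8:ℝ) ^ D := by
      have h7 : (1 / 8 : ℝ) ^ D * (8:ℝ) ^ D = 1 := by rw [← mul_pow]; norm_num
      calc C₁ = C₁ * (1 / 8 : ℝ) ^ D * (8:ℝ) ^ D := by rw [mul_assoc, h7, mul_one]
        _ ≤ _ := by gcongr
    rw [h3]
    have h8 : 0 ≤ T ^ (-(1 / 8) : ℝ) := Real.rpow_nonneg hT0.le _
    have h9 : 0 ≤ δ ^ (-C₁) := Real.rpow_nonneg hδ.le _
    calc C₁ * T ^ (-(1 / 8) : ℝ) * δ ^ (-C₁) ≤ (1 / 400 * (8:ℝ) ^ D) * T ^ (-(1 / 8) : ℝ) * δ ^ (-C₁) := by gcongr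
      _ = 1 / 400 * ((δ ^ (-C₁) * (8:ℝ) ^ D) * T ^ (-(1 / 8) : ℝ)) := by ring
      _ ≤ _ := by gcongr
  obtain ⟨M₀, hM₀⟩ := hAPX δ T ρ (ε / 2) hδ (by linarith) hT0 hρ0 (by positivity)
  obtain ⟨hm1, hm2, hm3⟩ := hMMM k δ hk hδ (by linarith)
  have hm0 : 0 < mo k δ := by linarith
  obtain ⟨M, hM1, hM2⟩ : ∃ M : ℕ, M₀ ≤ M ∧ |∑' n, co k (1 / 2 + δ) M n ^ 2 - mo k δ| ≤ η * mo k δ := by
    obtain ⟨N, hN⟩ := (Metric.tendsto_atTop.1 hm1) (η * mo k δ) (by positivity)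
    refine ⟨max M₀ N, le_max_left _ _, ?_⟩
    have := hN (max M₀ N) (le_max_right _ _)
    rw [Real.dist_eq] at this
    exact this.le
  obtain ⟨hcs, hpow⟩ := hPOW k (1 / 2 + δ) M hk (by linarith)
  have hS1 := hm3 M
  set c := co k (1 / 2 + δ) M with hc
  set S := ∑' n, c n ^ 2 with hS
  have hS0 : 0 < S := by linarith
  have hc0 : c 0 = 0 := co_zero _ _ _
  have hcn : ∀ n, 0 ≤ c n := co_nonneg hk.le _ _
  obtain ⟨H₁, hH₁0, hH₁⟩ := hM₀ M hM1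
  have hWn : ∀ q, 0 ≤ WW K T δ q := by
    intro q
    unfold WW
    split_ifs
    · have h4 : 0 ≤ ker T q.1 q.2 := le_min zero_le_one (by positivity)
      positivity
    · exact le_rfl
  obtain ⟨H₂, hH₂0, hH₂⟩ := hMS c hc0 hcn hcs T hT0 (fun q => S ^ 2 * WW K T δ q)
    (fun q => mul_nonneg (sq_nonneg _) (hWn q)) (hWs.mul_left _)
    (fun a b ha hb _ hab => ratio_le hSub hk hK1 hkK M hcs a b ha hb hab) (S ^ 2 * (1 / 400 * ε ^ 3)) (by positivity)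
  refine ⟨max H₁ H₂, fun H hH => ?_⟩
  have hHa : H₁ ≤ H := (le_max_left _ _).trans hH
  have hHb : H₂ ≤ H := (le_max_right _ _).trans hH
  have hH0 : 0 < H := by linarith
  have hms : ∫ α in (0:ℝ)..H, (JD c T α - S) ^ 2 ≤ 2 * S ^ 2 * (1 / 400 * ε ^ 3) * H := by
    refine (hH₂ H hHb).trans ?_
    refine mul_le_mul_of_nonneg_right ?_ hH0.le
    rw [tsum_mul_left]
    have := mul_le_mul_of_nonneg_left hWle' (sq_nonneg S)
    linarith
  have hch := cheb (fun α => JD c T α - S) ((JD_cont c T hc0 hcn hcs).sub continuous_const) H (η * S) _ hH0.le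
    (by positivity) hms
  have hB2 : 2 * S ^ 2 * (1 / 400 * ε ^ 3) * H / (η * S) ^ 2 ≤ ε / 2 * H := by
    rw [div_le_iff₀ (by positivity), hηdef]
    have h2 : 0 ≤ S ^ 2 * H * ε ^ 3 := by positivity
    have e1 : 2 * S ^ 2 * (1 / 400 * ε ^ 3) * H = 1 / 200 * (S ^ 2 * H * ε ^ 3) := by ring
    have e2 : ε / 2 * H * (ε / 7 * S) ^ 2 = 1 / 98 * (S ^ 2 * H * ε ^ 3) := by ring
    rw [e1, e2]
    linarith
  refine (measure_mono (t := {α : ℝ | 0 ≤ α ∧ α ≤ H ∧ η * S < |JD c T α - S|} ∪ {α : ℝ | 0 ≤ α ∧ α ≤ H ∧ ∃ t : ℝ, 0 ≤ t ∧ t ≤ T ∧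
      ρ < ‖riemannZeta (((1 / 2 + δ : ℝ) : ℂ) + ((α + t : ℝ) : ℂ) * Complex.I) *
        ZU.EM M (fun _ => 1) (((1 / 2 + δ : ℝ) : ℂ) + ((α + t : ℝ) : ℂ) * Complex.I) - 1‖}) ?_).trans
      ((measure_union_le _ _).trans ?_)
  swap
  · calc _ ≤ ENNReal.ofReal (ε / 2 * H) + ENNReal.ofReal (ε / 2 * H) :=
          add_le_add (hch.trans (ENNReal.ofReal_le_ofReal hB2)) (hH₁ H hHa)
      _ = ENNReal.ofReal (ε * H) := by
          rw [← ENNReal.ofReal_add (by positivity) (by positivity)]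
          congr 1
          ring
  · rintro α ⟨hα0, hαH, hα⟩
    by_contra hn
    rw [Set.mem_union, not_or] at hn
    obtain ⟨hn1, hn2⟩ := hn
    have hJ : |JD c T α - S| ≤ η * S := by
      by_contra h
      exact hn1 ⟨hα0, hαH, lt_of_not_ge h⟩
    have hz : ∀ t : ℝ, 0 ≤ t → t ≤ T → ‖riemannZeta (((1 / 2 + δ : ℝ) : ℂ) + ((α + t : ℝ) : ℂ) * Complex.I) *
        ZU.EM M (fun _ => 1) (((1 / 2 + δ : ℝ) : ℂ) + ((α + t : ℝ) : ℂ) * Complex.I) - 1‖ ≤ ρ := by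
      intro t ht0 htT
      by_contra h
      exact hn2 ⟨hα0, hαH, t, ht0, htT, lt_of_not_ge h⟩
    obtain ⟨hI1, hI2⟩ := mean_near (η := η) hk (by linarith) hT0 hρ0 hρ1 hρa hρb hcs hpow hz
    have heq : ∫ t in α..(α + T), ‖riemannZeta (1 / 2 + (δ : ℂ) + (t : ℂ) * Complex.I)‖ ^ (2 * k) =
        ∫ t in α..(α + T), Z k δ t := by
      refine intervalIntegral.integral_congr fun t _ => ?_
      simp only [Z]
      push_cast
      rfl
    rw [heq] at hα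
    have := final_ineq2 hη0 hη1 hm0 hJ hM2 hI1 hI2
    have e7 : 7 * η = ε := by rw [hηdef]; ring
    linarith

end Pool.Agent.T2H19.ZA.Fin
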