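import Pool.Agent.T2H19.ZA.FINB

set_option autoImplicit false

namespace Pool.Agent.T2H19.ZA.Fin

open Finset Filter Topology MeasureTheory Pool.Agent.H306R2

/-- the asymptotic form -/
theorem finL (F : ℝ → ℝ → ℝ → ℝ) (m : ℝ → ℝ) (a k : ℝ) (ha : 0 < a) (hm : ∀ δ, 0 < δ → δ ≤ 1 / 8 → 0 < m δ)
    (hlim : Tendsto (fun δ => (2 * δ) ^ (k ^ 2) * m δ) (𝓝[>] 0) (𝓝 a))
    (hfin : ∃ C : ℝ, 0 < C ∧ ∀ δ : ℝ, 0 < δ → δ ≤ 1 / 8 → ∀ T : ℝ, 1 ≤ T →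
      ∃ H₀ : ℝ, ∀ H : ℝ, H₀ ≤ H →
        volume {α : ℝ | 0 ≤ α ∧ α ≤ H ∧ δ ^ (-C) * T ^ (-(1 / 24) : ℝ) < |F δ T α / m δ - 1|} ≤
            ENNReal.ofReal (δ ^ (-C) * T ^ (-(1 / 24) : ℝ) * H)) :
    ∃ C : ℝ, 0 < C ∧ ∀ ε : ℝ, 0 < ε → ∃ δ₀ : ℝ, 0 < δ₀ ∧ ∀ δ : ℝ, 0 < δ → δ ≤ δ₀ → ∀ T : ℝ, δ ^ (-C) ≤ T →
      ∃ H₀ : ℝ, ∀ H : ℝ, H₀ ≤ H →
        volume {α : ℝ | 0 ≤ α ∧ α ≤ H ∧ ε < |F δ T α / (a * (2 * δ) ^ (-(k ^ 2))) - 1|} ≤ ENNReal.ofReal (ε * H) := by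
  obtain ⟨C, hC, h⟩ := hfin
  refine ⟨24 * (C + 1), by positivity, fun ε hε => ?_⟩
  set ε₁ : ℝ := min (ε / 4) 1 with hε₁def
  have hε₁ : 0 < ε₁ := by positivity
  rw [Metric.tendsto_nhdsWithin_nhds] at hlim
  obtain ⟨d, hd, hlim⟩ := hlim (ε₁ * a) (by positivity)
  refine ⟨min (min (d / 2) (1 / 8)) ε₁, by positivity, fun δ hδ hδ₀ T hT => ?_⟩
  have hδd : δ < d := by
    have := (hδ₀.trans (min_le_left _ _)).trans (min_le_left _ _)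
    linarith
  have hδ8 : δ ≤ 1 / 8 := (hδ₀.trans (min_le_left _ _)).trans (min_le_right _ _)
  have hδε : δ ≤ ε₁ := hδ₀.trans (min_le_right _ _)
  have hE := hlim (show δ ∈ Set.Ioi (0:ℝ) from hδ) (by rw [Real.dist_eq, sub_zero, abs_of_pos hδ]; exact hδd)
  rw [Real.dist_eq] at hE
  have hT1 : 1 ≤ T := le_trans (Real.one_le_rpow_of_pos_of_le_one_of_nonpos hδ (by linarith) (by linarith)) hT
  have hT0 : 0 < T := by linarith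
  obtain ⟨H₀, hH⟩ := h δ hδ hδ8 T hT1
  have hsmall : δ ^ (-C) * T ^ (-(1 / 24) : ℝ) ≤ δ := by
    have h1 : T ^ (-(1 / 24) : ℝ) ≤ δ ^ (C + 1) := by
      calc T ^ (-(1 / 24) : ℝ) ≤ (δ ^ (-(24 * (C + 1)))) ^ (-(1 / 24) : ℝ) :=
            Real.rpow_le_rpow_of_nonpos (Real.rpow_pos_of_pos hδ _) hT (by norm_num)
        _ = δ ^ (C + 1) := by
            rw [← Real.rpow_mul hδ.le]
            congr 1
            ring
    calc δ ^ (-C) * T ^ (-(1 / 24) : ℝ) ≤ δ ^ (-C) * δ ^ (C + 1) := by gcongr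
      _ = δ := by
          rw [← Real.rpow_add hδ, show -C + (C + 1) = 1 by ring, Real.rpow_one]
  refine ⟨max H₀ 0, fun H hH' => ?_⟩
  have hH0 : 0 ≤ H := (le_max_right _ _).trans hH'
  have hH1 := hH H ((le_max_left _ _).trans hH')
  have hm0 := hm δ hδ hδ8
  have hP : 0 < (2 * δ) ^ (k ^ 2) := by positivity
  refine (measure_mono ?_).trans (hH1.trans (ENNReal.ofReal_le_ofReal ?_))
  · rintro α ⟨h0, h1, h2⟩
    refine ⟨h0, h1, ?_⟩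
    by_contra h3
    have h3 := not_lt.1 h3
    have hx : |F δ T α / m δ - 1| ≤ ε₁ := (h3.trans hsmall).trans hδε
    have hy : |(2 * δ) ^ (k ^ 2) * m δ / a - 1| ≤ ε₁ := by
      have : (2 * δ) ^ (k ^ 2) * m δ / a - 1 = ((2 * δ) ^ (k ^ 2) * m δ - a) / a := by
        field_simp
      rw [this, abs_div, abs_of_pos ha, div_le_iff₀ ha]
      exact hE.le
    have hy2 : |(2 * δ) ^ (k ^ 2) * m δ / a| ≤ 2 := by
      have : |(2 * δ) ^ (k ^ 2) * m δ / a| ≤ |(2 * δ) ^ (k ^ 2) * m δ / a - 1| + |(1:ℝ)| := by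
        calc _ = |((2 * δ) ^ (k ^ 2) * m δ / a - 1) + 1| := by ring_nf
          _ ≤ _ := abs_add_le _ _
      rw [abs_one] at this
      have h4 : ε₁ ≤ 1 := min_le_right _ _
      linarith
    have e : F δ T α / (a * (2 * δ) ^ (-(k ^ 2))) - 1 =
        (F δ T α / m δ - 1) * ((2 * δ) ^ (k ^ 2) * m δ / a) + ((2 * δ) ^ (k ^ 2) * m δ / a - 1) := by
      rw [Real.rpow_neg (by positivity)]
      field_simp
      ring
    have h5 : ε₁ ≤ ε / 4 := min_le_left _ _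
    have : |F δ T α / (a * (2 * δ) ^ (-(k ^ 2))) - 1| ≤ ε := by
      rw [e]
      calc _ ≤ |(F δ T α / m δ - 1) * ((2 * δ) ^ (k ^ 2) * m δ / a)| + |(2 * δ) ^ (k ^ 2) * m δ / a - 1| := abs_add_le _ _
        _ ≤ ε₁ * 2 + ε₁ := by
            rw [abs_mul]
            gcongr
        _ ≤ ε := by linarith
    linarith
  · have h5 : ε₁ ≤ ε / 4 := min_le_left _ _
    have : δ ^ (-C) * T ^ (-(1 / 24) : ℝ) ≤ ε := by linarith
    exact mul_le_mul_of_nonneg_right this hH0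

end Pool.Agent.T2H19.ZA.Fin
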