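import Pool.Agent.H306R2.Defs
import Pool.Agent.Helper240.ZU.Defs

/-! # Moments of zeta in almost all intervals near the critical line: definitions and statements

Target `MP_973905_nt` (Keating-Snaith, all real `k > 0`). THEOREM: for every real `k > 0` there is `C` such that, as `δ → 0`,
for all `T ≥ δ ^ (-C)`, for almost all `α` (density, `H → ∞`)
`(1 / T) ∫_α^(α+T) |ζ(1/2 + δ + i t)|^(2k) dt = (1 + o(1)) a(k) (2 δ) ^ (- k ^ 2)`.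

Proof. `ζ(s)` is close to the Euler product `1 / EM M (s)` on almost all segments (package APX, library `Helper240/ZU`, Voronin's
theorem). `|EM M (σ + i τ)|^(-2k) = |∑ c_n n^(-i τ)|^2` with `c_n = d_k(n) n^(-σ)`, `n` composed of primes `≤ M` (POW). So the mean
over `[α, α + T]` is an absolutely convergent sum of `(m/n)^(-i α)`; by Parseval its mean square distance over `α` from `∑ c_n^2` is
at most `(∑ c_n^2)^2 · V`, `V = ∑_{a ≠ b} d_K(a)^2 d_K(b)^2 (a b)^(-1-2δ) min (1, 4 / (T log (a/b))^2)` (PAR, MS, SUBM), which is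
`≤ C T^(-1/8) δ^(-C)` (HALF, ROU, SHO, VB).

Library: `Pool.Agent.H306R2` (`lc`, `dv`, `aF`; files `Arith`, `EP`, `EPLim`, `Tw`), `Helper240/ZU` (`EM`, `rect`, `rough_mv`, `sup_le_area`).

Package `X`: file `Pool/Agent/T2H19/ZA/T_X.lean`, `theorem T_X (hyp : P_Y) … : P_X`, namespace `Pool.Agent.T2H19.ZA`,
your lemmas in the namespace `Pool.Agent.T2H19.ZA.PkgX`; import `Pool.Agent.T2H19.ZA.Stm` (and library files). -/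

set_option autoImplicit false

namespace Pool.Agent.T2H19.ZA

open Finset Filter Topology MeasureTheory Pool.Agent.H306R2

open Classical in
/-- the coefficients `d_k(n) n^(-σ)`, `n` without prime factors `> M` -/
noncomputable def co (k σ : ℝ) (M n : ℕ) : ℝ :=
  if n ≠ 0 ∧ ∀ p : ℕ, p.Prime → p ∣ n → p ≤ M then dv k n * (n : ℝ) ^ (-σ) else 0

/-- `∑ d_k(n)^2 n^(-1-2δ)` -/
noncomputable def mo (k δ : ℝ) : ℝ := ∑' n : ℕ, dv k n ^ 2 * (n : ℝ) ^ (-(1 + 2 * δ))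

/-- the mean of `|∑ c_n n^(-i τ)|^2` over `[α, α + T]` -/
noncomputable def JD (c : ℕ → ℝ) (T α : ℝ) : ℝ :=
  1 / T * ∫ t in (0 : ℝ)..T, ‖∑' n : ℕ, (c n : ℂ) * (n : ℂ) ^ (-(((α + t : ℝ) : ℂ) * Complex.I))‖ ^ 2

/-- `min (1, 4 / (T log (a/b))^2)` -/
noncomputable def ker (T : ℝ) (a b : ℕ) : ℝ := min 1 (4 / (T * Real.log ((a : ℝ) / b)) ^ 2)

/-- the terms of `V` -/
noncomputable def WW (K : ℕ) (T δ : ℝ) (q : ℕ × ℕ) : ℝ :=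
  if 1 ≤ q.1 ∧ 1 ≤ q.2 ∧ q.1 ≠ q.2 then
    dv K q.1 ^ 2 * dv K q.2 ^ 2 * ((q.1 : ℝ) * q.2) ^ (-(1 + 2 * δ)) * ker T q.1 q.2 else 0

open Classical in
/-- `G^(2 Ω(e)) e^(-1-2δ)` on the `e` without prime factors `≤ 2 G ^ 2` -/
noncomputable def ro (G : ℕ) (δ : ℝ) (e : ℕ) : ℝ :=
  if e ≠ 0 ∧ ∀ p : ℕ, p.Prime → p ∣ e → 2 * G ^ 2 < p then
    (G : ℝ) ^ (2 * e.primeFactorsList.length) * (e : ℝ) ^ (-(1 + 2 * δ)) else 0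

/-- the sum of `d_K(b)^2 b^(-1-2δ)` over `x ≤ b ≤ x e^η` -/
noncomputable def sh (K : ℕ) (δ x η : ℝ) : ℝ :=
  ∑ b ∈ Icc ⌈x⌉₊ ⌊x * Real.exp η⌋₊, dv K b ^ 2 * (b : ℝ) ^ (-(1 + 2 * δ))

/-! ## Arithmetic -/

/-- SUMM. Proof: `dv κ n ^ 2 ≤ dv (κ ^ 2) n` (`H306R2.dv_sq_le` in `EP.lean`) `≤ dv J n` for an integer `J ≥ κ ^ 2`
(`dv_mono`), and `∑ dv J n n^(-1-2δ) = ζ(1+2δ)^J ≤ (1 + 1/(2δ))^J` (`dA_nat`, `dvJ_summable` and the lemmas in `EP.lean`). -/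
def P_SUMM : Prop :=
  ∀ κ : ℝ, 0 < κ → ∃ C : ℝ, 0 < C ∧ ∀ δ : ℝ, 0 < δ → δ ≤ 1 / 2 →
    Summable (fun n : ℕ => dv κ n ^ 2 * (n : ℝ) ^ (-(1 + 2 * δ))) ∧ mo κ δ ≤ C * δ ^ (-C)

/-- ROU. Proof: `ro` is (completely) multiplicative on the `e ≠ 0`, with Euler product over `p > 2 G^2`:
`∏ (1 - G^2 p^(-1-2δ))^(-1) ≤ ∏ exp (2 G^2 p^(-1-2δ)) ≤ exp (2 G^2 ∑_p p^(-1-2δ))`, as `G^2 p^(-1-2δ) ≤ 1/2`, and
`exp (∑_p p^(-s)) ≤ ∏_p (1 - p^(-s))^(-1) = ζ(s) ≤ 1 + 1/(2δ)`, `s = 1 + 2δ`. (E.g. finite partial sums over the `e ≤ N` are bounded by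
the finite product over `p ≤ N`: `EulerProduct.summable_and_hasSum_smoothNumbers_prod_primesBelow_tsum` in Mathlib; so the series
of nonnegative terms is summable with the same bound.) -/
def P_ROU : Prop :=
  ∀ G : ℕ, 1 ≤ G → ∃ C : ℝ, 0 < C ∧ ∀ δ : ℝ, 0 < δ → δ ≤ 1 / 2 → Summable (ro G δ) ∧ ∑' e : ℕ, ro G δ e ≤ C * δ ^ (-C)

/-- HALF. Proof: strong induction on `r`. If `Ω r ≤ 1` take `e = 1`. Otherwise `p = minFac r`, `q = minFac (r / p) ≥ p`,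
`r = p q r'`, `e'` for `r'`, `e = p e'`: `e e = p p e' e' ≤ p q r'`, `Ω r = Ω r' + 2`. -/
def P_HALF : Prop :=
  ∀ r : ℕ, 1 ≤ r → ∃ e : ℕ, e ∣ r ∧ e * e ≤ r ∧ r.primeFactorsList.length ≤ 2 * e.primeFactorsList.length + 1

/-- SHO (from SUMM, ROU, HALF). Proof: let `G = K ^ 2`, `p₀ = 2 G ^ 2`, and write `b = s r`, `s` composed of primes `≤ p₀`,
`r` of primes `> p₀`; `dv K b = dv K s dv K r` and `dv K r ^ 2 ≤ G ^ Ω(r)` (as `lc K j ≤ K ^ j`).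
(a) the `b` with `s > √x`: at most `x^(-1/4) ∑_s dv K s ^2 s^(-1/2) · mo K δ` (`∑_s dv K s ^2 s^(-1/2)` is a finite product of convergent
series over `p ≤ p₀`).
(b) `s ≤ √x`: let `x' = x / s ≥ √x`. By HALF every `r` has a divisor `e`, `e^2 ≤ r ≤ 3 x'`, with `G ^ Ω(r) ≤ G ^ (2 Ω(e) + 1)`, and
there are at most `2 η x' / e + 1` multiples of `e` in `[x', x' e^η]`. So
`∑_r dv K r ^2 r^(-1-2δ) ≤ x'^(-1-2δ) ∑_{e ≤ √(3x')} G^(2Ω(e)+1) (2 η x'/e + 1) ≤ G (2 η + 2 x'^(-1/2)) x'^(-2δ) ∑_e G^(2Ω(e)) / e` and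
`1/e ≤ (3 x')^δ e^(-1-2δ)` for `e^2 ≤ 3 x'`: at most `4 G (η + x^(-1/4)) ∑_e ro G δ e`; sum over `s` with `dv K s ^2 s^(-1-2δ)`. -/
def P_SHO : Prop :=
  ∀ K : ℕ, 1 ≤ K → ∃ C : ℝ, 0 < C ∧ ∀ δ : ℝ, 0 < δ → δ ≤ 1 / 2 → ∀ x : ℝ, 1 ≤ x → ∀ η : ℝ, 0 < η → η ≤ 1 →
    sh K δ x η ≤ C * (η + x ^ (-(1 / 4) : ℝ)) * δ ^ (-C)

/-- VB (from SUMM, SHO). Proof: `η = T^(-1/2)`. The pairs with `|log (a/b)| ≥ η`: `ker ≤ 4 / T`, in total `≤ 4 / T · (mo K δ)^2`.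
The pairs `a ≠ b` with `|log (a/b)| < η`: `ker ≤ 1`; `|log (a/b)| ≥ 1 / max (a, b)`, so `a, b ≥ 1 / (3 η)`; for given `a` the `b` lie in
`[a e^(-η), a]` or in `[a, a e^η]`: at most `sh K δ (max 1 (a e^(-η))) η + sh K δ a η ≤ C (η + (a/3)^(-1/4)) δ^(-C) ≤ C' η^(1/4) δ^(-C)`
(if `a e^(-η) < 1` then `a ≤ 2`, `η ≥ 1/6`: enlarge the constant); sum over `a` with `dv K a ^2 a^(-1-2δ)`. -/
def P_VB : Prop :=
  ∀ K : ℕ, 1 ≤ K → ∃ C : ℝ, 0 < C ∧ ∀ δ : ℝ, 0 < δ → δ ≤ 1 / 2 → ∀ T : ℝ, 1 ≤ T →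
    Summable (WW K T δ) ∧ ∑' q : ℕ × ℕ, WW K T δ q ≤ C * T ^ (-(1 / 8) : ℝ) * δ ^ (-C)

/-- SUBM. Proof: `lc k (i + j) ≤ lc k i * lc K j`, because `lc k (i + j) / lc k i = ∏_{l < j} (k + i + l) / (i + l + 1)` and
`(k + i + l) / (i + l + 1) = 1 + (k - 1) / (i + l + 1) ≤ 1 + (K - 1) / (l + 1) = (K + l) / (l + 1)`; `dv` is the product of the `lc` over
the factorization (for `g = 0` or `a = 0` both sides are `0`). -/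
def P_SUBM : Prop :=
  ∀ (k : ℝ) (K : ℕ), 0 < k → 1 ≤ K → k ≤ K → ∀ g a : ℕ, dv k (g * a) ≤ dv k g * dv K a

/-- POW. Proof: for `|z| < 1` the series `∑ lc k j z^j` is the binomial series of `(1 - z)^(-k)` (principal branch), whose norm
is `|1 - z|^(-k)`. With `z = p^(-s)` and the Euler product over the `p ≤ M`
(`EulerProduct.summable_and_hasSum_smoothNumbers_prod_primesBelow_tsum`, `N = M + 1`, `f n = dv k n n^(-s)`, multiplicative: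
`H306R2.dA_mult`, `dv_prime_pow`) `|∑_n co k σ M n n^(-i τ)| = ∏_{p ≤ M} |1 - p^(-s)|^(-k)`, `s = σ + i τ`. -/
def P_POW : Prop :=
  ∀ (k σ : ℝ) (M : ℕ), 0 < k → 0 < σ → Summable (co k σ M) ∧
    ∀ τ : ℝ, ‖ZU.EM M (fun _ => 1) ((σ : ℂ) + (τ : ℂ) * Complex.I)‖ ^ (-(2 * k)) =
      ‖∑' n : ℕ, (co k σ M n : ℂ) * (n : ℂ) ^ (-((τ : ℂ) * Complex.I))‖ ^ 2

/-- LIM. Proof: `Pool.Agent.H306R2.cf_tsum_tendsto` (file `EPLim.lean`) with `ι = Fin 1`, `e = k`, `s = 2`, `L = 1 / δ`: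
`cf e (2 / L) n = dv k n * (dv k n * n^(-2/L)) / n`. -/
def P_LIM : Prop :=
  ∀ k : ℝ, 0 < k → Tendsto (fun δ : ℝ => (2 * δ) ^ (k ^ 2) * mo k δ) (𝓝[>] 0) (𝓝 (aF k))

/-- MMM (from SUMM). Proof: `co k (1/2 + δ) M n ^ 2 = dv k n ^2 n^(-1-2δ)` for `1 ≤ n ≤ M`, `0 ≤ … ≤` always: dominated convergence.
The term `n = 1` is `1`. -/
def P_MMM : Prop :=
  ∀ k δ : ℝ, 0 < k → 0 < δ → δ ≤ 1 / 2 →
    Tendsto (fun M : ℕ => ∑' n : ℕ, co k (1 / 2 + δ) M n ^ 2) atTop (𝓝 (mo k δ)) ∧ 1 ≤ mo k δ ∧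
      ∀ M : ℕ, 1 ≤ ∑' n : ℕ, co k (1 / 2 + δ) M n ^ 2

/-! ## Analysis -/

/-- PAR. Parseval for absolutely convergent almost periodic series. Proof: expand the square; `(1/H) ∫_0^H e^(-i (λ i - λ j) α) dα`
is `1` for `i = j` and tends to `0` otherwise; `tendsto_tsum_of_dominated_convergence` with the bound `|x i| |x j|`. -/
def P_PAR : Prop :=
  ∀ (ι : Type) [Countable ι] (x : ι → ℂ) (lam : ι → ℝ), Summable (fun i => ‖x i‖) → Function.Injective lam →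
    Tendsto (fun H : ℝ => 1 / H * ∫ α in (0 : ℝ)..H, ‖∑' i, x i * Complex.exp (-((lam i * α : ℝ) : ℂ) * Complex.I)‖ ^ 2)
      atTop (𝓝 (∑' i, ‖x i‖ ^ 2))

/-- MS (from PAR). Proof: `JD c T α = ∑_{m, n} c m c n (m/n)^(-i α) φ (m/n)`, `φ q = (1/T) ∫_0^T q^(-i t) dt`, `|φ q| ≤ 1` and
`|φ q| ≤ 2 / (T |log q|)` for `q ≠ 1`, `φ 1 = 1`. The terms `m = n` give `∑ c n ^ 2`. Group the other ones by the ratio `m / n = a / b`,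
`a`, `b` coprime, `m = g a`, `n = g b`: the coefficient of `(a/b)^(-i α)` is `φ (a/b) ∑_g c (g a) c (g b)`. Now PAR
(`ι` = the coprime pairs `≠ (1,1)`, `lam (a,b) = log (a/b)` is injective). -/
def P_MS : Prop :=
  ∀ c : ℕ → ℝ, c 0 = 0 → (∀ n, 0 ≤ c n) → Summable c → ∀ T : ℝ, 0 < T → ∀ W : ℕ × ℕ → ℝ, (∀ q, 0 ≤ W q) → Summable W →
    (∀ a b : ℕ, 1 ≤ a → 1 ≤ b → a.Coprime b → a ≠ b → (∑' g : ℕ, c (g * a) * c (g * b)) ^ 2 * ker T a b ≤ W (a, b)) →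
    ∀ ε : ℝ, 0 < ε → ∃ H₀ : ℝ, 0 < H₀ ∧ ∀ H : ℝ, H₀ ≤ H →
      ∫ α in (0 : ℝ)..H, (JD c T α - ∑' n : ℕ, c n ^ 2) ^ 2 ≤ (∑' q : ℕ × ℕ, W q + ε) * H

/-- APX. Proof: library `Helper240/ZU`: `rough_mv` (file `C3.lean`, with `S = {1}`, `b = 1`, `σ1 = 1/2 + δ/2`, `σ2 = 1/2 + 3δ/2`,
`B = T + 1`; `tail σ1 M → 0`, file `C1.lean`) bounds `∫_0^H |ζ EM (s + i α) - 1|^2 dα` uniformly for `s` in the rectangle, and
`sup_le_area` (file `D.lean`) bounds `|ζ EM (1/2 + δ + i (α + t)) - 1|^2` for `0 ≤ t ≤ T` by `C ∫_rect |ζ EM (w + i α) - 1|^2 dw`. Integrate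
over `α` (Tonelli) and use Markov's inequality. (Compare `density_of_euler` in `E1.lean`, where the same is done.) -/
def P_APX : Prop :=
  ∀ δ T ρ ε : ℝ, 0 < δ → δ < 1 / 4 → 0 < T → 0 < ρ → 0 < ε → ∃ M₀ : ℕ, ∀ M : ℕ, M₀ ≤ M → ∃ H₀ : ℝ, 0 < H₀ ∧ ∀ H : ℝ, H₀ ≤ H →
    volume {α : ℝ | 0 ≤ α ∧ α ≤ H ∧ ∃ t : ℝ, 0 ≤ t ∧ t ≤ T ∧
      ρ < ‖riemannZeta (((1 / 2 + δ : ℝ) : ℂ) + ((α + t : ℝ) : ℂ) * Complex.I) *
        ZU.EM M (fun _ => 1) (((1 / 2 + δ : ℝ) : ℂ) + ((α + t : ℝ) : ℂ) * Complex.I) - 1‖} ≤ ENNReal.ofReal (ε * H)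

end Pool.Agent.T2H19.ZA
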