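import Pool.Agent.T2H19.ZA.Stm

set_option autoImplicit false

namespace Pool.Agent.T2H19.ZA

open Finset Filter Topology MeasureTheory Pool.Agent.H306R2

namespace PkgVB

/-- the terms of `mo` -/
noncomputable def ft (K : ℕ) (δ : ℝ) (n : ℕ) : ℝ := dv K n ^ 2 * (n : ℝ) ^ (-(1 + 2 * δ))

lemma ft_nonneg (K : ℕ) (δ : ℝ) (n : ℕ) : 0 ≤ ft K δ n := by
  unfold ft
  positivity

lemma ker_nonneg (T : ℝ) (a b : ℕ) : 0 ≤ ker T a b := by
  unfold ker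
  exact le_min zero_le_one (by positivity)

lemma ker_le_one (T : ℝ) (a b : ℕ) : ker T a b ≤ 1 := min_le_left _ _

lemma log_abs (a b : ℕ) : |Real.log ((a : ℝ) / b)| = |Real.log ((b : ℝ) / a)| := by
  rw [← abs_neg, ← Real.log_inv, inv_div]

lemma log_gap {a b : ℕ} (hb : 1 ≤ b) (hab : b < a) : 1 / (a : ℝ) ≤ Real.log ((a : ℝ) / b) := by
  have hb0 : (0 : ℝ) < b := by exact_mod_cast hb
  have ha0 : (0 : ℝ) < a := by
    have : 0 < a := by omega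
    exact_mod_cast this
  have h1 := Real.one_sub_inv_le_log_of_pos (show 0 < (a : ℝ) / b by positivity)
  refine le_trans ?_ h1
  rw [inv_div, div_le_iff₀ ha0, sub_mul, div_mul_cancel₀ _ ha0.ne']
  have : (b : ℝ) + 1 ≤ a := by exact_mod_cast hab
  linarith

/-- close pairs are large -/
lemma close_large {a b : ℕ} {η : ℝ} (ha : 1 ≤ a) (hb : 1 ≤ b) (hab : a ≠ b) (hη : 0 < η)
    (hη1 : η ≤ 1) (h : |Real.log ((a : ℝ) / b)| < η) : 1 / (3 * η) ≤ (a : ℝ) ∧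
    (a : ℝ) * Real.exp (-η) ≤ b ∧ (b : ℝ) ≤ a * Real.exp η := by
  have ha0 : (0 : ℝ) < a := by exact_mod_cast ha
  have hb0 : (0 : ℝ) < b := by exact_mod_cast hb
  obtain ⟨h1, h2⟩ := abs_lt.1 h
  have e1 : Real.log ((a : ℝ) / b) = Real.log a - Real.log b := Real.log_div ha0.ne' hb0.ne'
  have k1 : (a : ℝ) * Real.exp (-η) ≤ b := by
    rw [← Real.log_le_log_iff (by positivity) hb0, Real.log_mul ha0.ne' (Real.exp_pos _).ne',
      Real.log_exp]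
    linarith
  have k2 : (b : ℝ) ≤ a * Real.exp η := by
    rw [← Real.log_le_log_iff hb0 (by positivity), Real.log_mul ha0.ne' (Real.exp_pos _).ne',
      Real.log_exp]
    linarith
  refine ⟨?_, k1, k2⟩
  have hexp : Real.exp η ≤ 3 := by
    have h3 := Real.exp_le_exp.2 hη1
    have := Real.exp_one_lt_d9
    linarith
  rw [div_le_iff₀ (by positivity)]
  rcases Nat.lt_or_gt_of_ne hab with hlt | hlt
  · have h3 := log_gap ha hlt
    have h4 : 1 / (b : ℝ) < η := by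
      refine lt_of_le_of_lt (h3.trans (le_abs_self _)) ?_
      rw [log_abs]
      exact h
    rw [div_lt_iff₀ hb0] at h4
    have h5 : η * b ≤ η * (a * 3) := by
      apply mul_le_mul_of_nonneg_left _ hη.le
      exact k2.trans (mul_le_mul_of_nonneg_left hexp ha0.le)
    linarith
  · have h3 := log_gap hb hlt
    have h4 : 1 / (a : ℝ) < η := lt_of_le_of_lt (h3.trans (le_abs_self _)) h
    rw [div_lt_iff₀ ha0] at h4
    nlinarith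

/-- the close pairs -/
noncomputable def NN (K : ℕ) (δ η : ℝ) (q : ℕ × ℕ) : ℝ :=
  if 1 ≤ q.1 ∧ 1 ≤ q.2 ∧ q.1 ≠ q.2 ∧ |Real.log ((q.1 : ℝ) / q.2)| < η then
    ft K δ q.1 * ft K δ q.2 else 0

lemma NN_nonneg (K : ℕ) (δ η : ℝ) (q : ℕ × ℕ) : 0 ≤ NN K δ η q := by
  unfold NN
  split_ifs
  · exact mul_nonneg (ft_nonneg _ _ _) (ft_nonneg _ _ _)
  · exact le_refl _

lemma NN_le (K : ℕ) (δ η : ℝ) (q : ℕ × ℕ) : NN K δ η q ≤ ft K δ q.1 * ft K δ q.2 := by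
  unfold NN
  split_ifs
  · exact le_refl _
  · exact mul_nonneg (ft_nonneg _ _ _) (ft_nonneg _ _ _)

lemma WW_eq (K : ℕ) (T δ : ℝ) (q : ℕ × ℕ) : WW K T δ q =
    if 1 ≤ q.1 ∧ 1 ≤ q.2 ∧ q.1 ≠ q.2 then ft K δ q.1 * ft K δ q.2 * ker T q.1 q.2 else 0 := by
  unfold WW ft
  split_ifs with h
  · rw [Real.mul_rpow (Nat.cast_nonneg _) (Nat.cast_nonneg _)]
    ring
  · rfl

lemma WW_nonneg (K : ℕ) (T δ : ℝ) (q : ℕ × ℕ) : 0 ≤ WW K T δ q := by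
  rw [WW_eq]
  split_ifs
  · exact mul_nonneg (mul_nonneg (ft_nonneg _ _ _) (ft_nonneg _ _ _)) (ker_nonneg _ _ _)
  · exact le_refl _

lemma WW_le (K : ℕ) (T δ : ℝ) (q : ℕ × ℕ) : WW K T δ q ≤ ft K δ q.1 * ft K δ q.2 := by
  have h0 := mul_nonneg (ft_nonneg K δ q.1) (ft_nonneg K δ q.2)
  rw [WW_eq]
  split_ifs
  · exact mul_le_of_le_one_right h0 (ker_le_one _ _ _)
  · exact h0

lemma WW_split (K : ℕ) (T δ η : ℝ) (hT : 0 < T) (hη : 0 < η) (hTη : T * η ^ 2 = 1) (q : ℕ × ℕ) :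
    WW K T δ q ≤ 4 / T * (ft K δ q.1 * ft K δ q.2) + NN K δ η q := by
  have h0 := mul_nonneg (ft_nonneg K δ q.1) (ft_nonneg K δ q.2)
  have hN := NN_nonneg K δ η q
  have h4 : 0 ≤ 4 / T * (ft K δ q.1 * ft K δ q.2) := by positivity
  by_cases h : 1 ≤ q.1 ∧ 1 ≤ q.2 ∧ q.1 ≠ q.2
  · by_cases h2 : |Real.log ((q.1 : ℝ) / q.2)| < η
    · have : NN K δ η q = ft K δ q.1 * ft K δ q.2 := by
        unfold NN
        rw [if_pos ⟨h.1, h.2.1, h.2.2, h2⟩]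
      have h3 := WW_le K T δ q
      linarith
    · push Not at h2
      have hk : ker T q.1 q.2 ≤ 4 / T := by
        unfold ker
        refine (min_le_right _ _).trans ?_
        have h3 : η ^ 2 ≤ Real.log ((q.1 : ℝ) / q.2) ^ 2 := by
          rw [← sq_abs (Real.log _)]
          exact pow_le_pow_left₀ hη.le h2 2
        have h5 : T ≤ (T * Real.log ((q.1 : ℝ) / q.2)) ^ 2 := by
          rw [mul_pow]
          calc T = T ^ 2 * η ^ 2 := by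
                rw [pow_two, mul_assoc, hTη, mul_one]
            _ ≤ _ := by gcongr
        exact div_le_div_of_nonneg_left (by norm_num) hT h5
      rw [WW_eq, if_pos h]
      have : ft K δ q.1 * ft K δ q.2 * ker T q.1 q.2 ≤ ft K δ q.1 * ft K δ q.2 * (4 / T) :=
        mul_le_mul_of_nonneg_left hk h0
      linarith
  · rw [WW_eq, if_neg h]
    linarith

lemma fibre (K : ℕ) (δ η C2 : ℝ) (hη : 0 < η) (hη1 : η ≤ 1) (hC2 : 0 < C2) (hδ : 0 < δ)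
    (hsh : ∀ x : ℝ, 1 ≤ x → sh K δ x η ≤ C2 * (η + x ^ (-(1 / 4) : ℝ)) * δ ^ (-C2)) (a : ℕ) :
    ∑' b : ℕ, NN K δ η (a, b) ≤ ft K δ a * (6 * C2 * η ^ (1 / 4 : ℝ) * δ ^ (-C2)) := by
  have hf := ft_nonneg K δ a
  have hη4 : 0 < η ^ (1 / 4 : ℝ) := Real.rpow_pos_of_pos hη _
  have hδp : 0 < δ ^ (-C2) := Real.rpow_pos_of_pos hδ _
  have hR : 0 ≤ ft K δ a * (6 * C2 * η ^ (1 / 4 : ℝ) * δ ^ (-C2)) := by positivity
  by_cases hex : ∃ b, 1 ≤ a ∧ 1 ≤ b ∧ a ≠ b ∧ |Real.log ((a : ℝ) / b)| < η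
  swap
  · have h0 : ∀ b, NN K δ η (a, b) = 0 := by
      intro b
      unfold NN
      rw [if_neg]
      intro h
      exact hex ⟨b, h⟩
    simp only [h0, tsum_zero]
    exact hR
  obtain ⟨b₀, ha, hb₀, hab₀, hl₀⟩ := hex
  obtain ⟨hlarge, -, -⟩ := close_large ha hb₀ hab₀ hη hη1 hl₀
  have ha0 : (0 : ℝ) < a := by exact_mod_cast ha
  have ha1 : (1 : ℝ) ≤ a := by exact_mod_cast ha
  obtain ⟨x1, hx1⟩ : ∃ x1 : ℝ, x1 = max 1 (a * Real.exp (-η)) := ⟨_, rfl⟩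
  have hx11 : 1 ≤ x1 := by rw [hx1]; exact le_max_left _ _
  have hx12 : (a : ℝ) * Real.exp (-η) ≤ x1 := by rw [hx1]; exact le_max_right _ _
  have hexp : 1 / 3 ≤ Real.exp (-η) := by
    have h3 : Real.exp (-1) ≤ Real.exp (-η) := Real.exp_le_exp.2 (by linarith)
    have h4 := Real.exp_one_lt_d9
    have h5 : Real.exp (-1) = 1 / Real.exp 1 := by rw [Real.exp_neg, one_div]
    have h6 : (1 : ℝ) / 3 ≤ 1 / Real.exp 1 := by
      apply one_div_le_one_div_of_le (Real.exp_pos 1)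
      linarith
    linarith
  -- sizes
  have hb1 : ∀ x : ℝ, 1 / (9 * η) ≤ x → x ^ (-(1 / 4) : ℝ) ≤ 2 * η ^ (1 / 4 : ℝ) := by
    intro x hx
    have h9 : 0 < 1 / (9 * η) := by positivity
    calc x ^ (-(1 / 4) : ℝ) ≤ (1 / (9 * η)) ^ (-(1 / 4) : ℝ) :=
          Real.rpow_le_rpow_of_nonpos h9 hx (by norm_num)
      _ = (9 * η) ^ (1 / 4 : ℝ) := by
          rw [one_div, Real.inv_rpow (by positivity), Real.rpow_neg (by positivity), inv_inv]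
      _ = 9 ^ (1 / 4 : ℝ) * η ^ (1 / 4 : ℝ) := Real.mul_rpow (by norm_num) hη.le
      _ ≤ 2 * η ^ (1 / 4 : ℝ) := by
          apply mul_le_mul_of_nonneg_right _ hη4.le
          calc (9 : ℝ) ^ (1 / 4 : ℝ) ≤ 16 ^ (1 / 4 : ℝ) :=
                Real.rpow_le_rpow (by norm_num) (by norm_num) (by norm_num)
            _ = 2 := by
                rw [show (16 : ℝ) = 2 ^ (4 : ℝ) by norm_num, ← Real.rpow_mul (by norm_num)]
                norm_num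
  have hηη : η ≤ η ^ (1 / 4 : ℝ) := by
    calc η = η ^ (1 : ℝ) := (Real.rpow_one _).symm
      _ ≤ η ^ (1 / 4 : ℝ) := Real.rpow_le_rpow_of_exponent_ge hη hη1 (by norm_num)
  have hs : ∀ x : ℝ, 1 ≤ x → 1 / (9 * η) ≤ x → sh K δ x η ≤ 3 * C2 * η ^ (1 / 4 : ℝ) * δ ^ (-C2) := by
    intro x hx1 hx2
    refine (hsh x hx1).trans ?_
    have := hb1 x hx2
    have h3 : η + x ^ (-(1 / 4) : ℝ) ≤ 3 * η ^ (1 / 4 : ℝ) := by linarith
    calc C2 * (η + x ^ (-(1 / 4) : ℝ)) * δ ^ (-C2) ≤ C2 * (3 * η ^ (1 / 4 : ℝ)) * δ ^ (-C2) := by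
          gcongr
      _ = _ := by ring
  have hA : 1 / (9 * η) ≤ (a : ℝ) := by
    refine le_trans ?_ hlarge
    apply one_div_le_one_div_of_le (by positivity)
    linarith
  have hX : 1 / (9 * η) ≤ x1 := by
    refine le_trans ?_ hx12
    have h3 : 1 / (9 * η) = 1 / (3 * η) * (1 / 3) := by
      field_simp
      norm_num
    rw [h3]
    gcongr
  have s1 := hs x1 hx11 hX
  have s2 := hs a ha1 hA
  unfold sh at s1 s2
  -- the sum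
  obtain ⟨S1, hS1⟩ : ∃ S : Finset ℕ, S = Icc ⌈x1⌉₊ ⌊x1 * Real.exp η⌋₊ := ⟨_, rfl⟩
  obtain ⟨S2, hS2⟩ : ∃ S : Finset ℕ, S = Icc ⌈(a : ℝ)⌉₊ ⌊(a : ℝ) * Real.exp η⌋₊ := ⟨_, rfl⟩
  rw [← hS1] at s1
  rw [← hS2] at s2
  have hzero : ∀ b ∉ S1 ∪ S2, NN K δ η (a, b) = 0 := by
    intro b hb
    unfold NN
    rw [if_neg]
    rintro ⟨-, h2, h3, h4⟩
    simp only at h2 h3 h4
    apply hb
    obtain ⟨-, k1, k2⟩ := close_large ha h2 h3 hη hη1 h4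
    have hb1 : (1 : ℝ) ≤ b := by exact_mod_cast h2
    rcases le_total a b with hle | hle
    · rw [mem_union]
      right
      rw [hS2, mem_Icc]
      refine ⟨?_, Nat.le_floor k2⟩
      rw [Nat.ceil_natCast]
      exact hle
    · rw [mem_union]
      left
      rw [hS1, mem_Icc]
      have hler : (b : ℝ) ≤ a := by exact_mod_cast hle
      refine ⟨Nat.ceil_le.2 ?_, Nat.le_floor ?_⟩
      · rw [hx1]
        exact max_le hb1 k1
      · have h5 : (a : ℝ) * Real.exp (-η) * Real.exp η = a := by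
          rw [mul_assoc, ← Real.exp_add]
          simp
        have h6 := mul_le_mul_of_nonneg_right hx12 (Real.exp_pos η).le
        linarith
  rw [tsum_eq_sum hzero]
  have h7 : ∑ b ∈ S1 ∪ S2, ft K δ b ≤ ∑ b ∈ S1, ft K δ b + ∑ b ∈ S2, ft K δ b := by
    rw [← sum_union_inter]
    have : 0 ≤ ∑ b ∈ S1 ∩ S2, ft K δ b := sum_nonneg fun b _ => ft_nonneg K δ b
    linarith
  have h8 : ∑ b ∈ S1, ft K δ b ≤ 3 * C2 * η ^ (1 / 4 : ℝ) * δ ^ (-C2) := s1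
  have h9 : ∑ b ∈ S2, ft K δ b ≤ 3 * C2 * η ^ (1 / 4 : ℝ) * δ ^ (-C2) := s2
  calc ∑ b ∈ S1 ∪ S2, NN K δ η (a, b) ≤ ∑ b ∈ S1 ∪ S2, ft K δ a * ft K δ b :=
        sum_le_sum fun b _ => NN_le K δ η (a, b)
    _ = ft K δ a * ∑ b ∈ S1 ∪ S2, ft K δ b := by rw [mul_sum]
    _ ≤ ft K δ a * (6 * C2 * η ^ (1 / 4 : ℝ) * δ ^ (-C2)) := by
        apply mul_le_mul_of_nonneg_left _ hf
        linarith

end PkgVB

open PkgVB

theorem T_VB (hS : P_SUMM) (hO : P_SHO) : P_VB := by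
  intro K hK
  obtain ⟨C1, hC1, h1⟩ := hS K (by exact_mod_cast hK)
  obtain ⟨C2, hC2, h2⟩ := hO K hK
  refine ⟨4 * C1 ^ 2 + 6 * C1 * C2 + 2 * C1 + C2, by positivity, fun δ hδ hδ2 T hT => ?_⟩
  obtain ⟨hsum, hmo⟩ := h1 δ hδ hδ2
  have hsum' : Summable (ft K δ) := hsum
  have hmo' : mo K δ = ∑' n, ft K δ n := rfl
  have hT0 : 0 < T := by linarith
  have hff : Summable (fun q : ℕ × ℕ => ft K δ q.1 * ft K δ q.2) :=
    hsum'.mul_of_nonneg hsum' (ft_nonneg K δ) (ft_nonneg K δ)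
  have hW : Summable (WW K T δ) :=
    Summable.of_nonneg_of_le (WW_nonneg K T δ) (WW_le K T δ) hff
  refine ⟨hW, ?_⟩
  obtain ⟨η, hη⟩ : ∃ η : ℝ, η = T ^ (-(1 / 2) : ℝ) := ⟨_, rfl⟩
  have hη0 : 0 < η := by rw [hη]; exact Real.rpow_pos_of_pos hT0 _
  have hη1 : η ≤ 1 := by
    rw [hη]
    exact Real.rpow_le_one_of_one_le_of_nonpos hT (by norm_num)
  have hTη : T * η ^ 2 = 1 := by
    rw [hη, ← Real.rpow_natCast, ← Real.rpow_mul hT0.le]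
    norm_num
    rw [Real.rpow_neg hT0.le, Real.rpow_one, mul_inv_cancel₀ hT0.ne']
  have hη4 : η ^ (1 / 4 : ℝ) = T ^ (-(1 / 8) : ℝ) := by
    rw [hη, ← Real.rpow_mul hT0.le]
    norm_num
  have hN : Summable (NN K δ η) :=
    Summable.of_nonneg_of_le (NN_nonneg K δ η) (NN_le K δ η) hff
  have hm0 : 0 ≤ mo K δ := by rw [hmo']; exact tsum_nonneg (ft_nonneg K δ)
  have e1 : ∑' q : ℕ × ℕ, ft K δ q.1 * ft K δ q.2 = mo K δ * mo K δ := by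
    rw [hmo', hsum'.tsum_mul_tsum hsum' hff]
  have e2 : ∑' q : ℕ × ℕ, NN K δ η q ≤ mo K δ * (6 * C2 * η ^ (1 / 4 : ℝ) * δ ^ (-C2)) := by
    rw [hN.tsum_prod, hmo', ← tsum_mul_right]
    refine Summable.tsum_le_tsum (fibre K δ η C2 hη0 hη1 hC2 hδ fun x hx => ?_) hN.prod
      (hsum'.mul_right _)
    exact h2 δ hδ hδ2 x hx η hη0 hη1
  have e3 : ∑' q : ℕ × ℕ, WW K T δ q ≤ 4 / T * (mo K δ * mo K δ) +
      mo K δ * (6 * C2 * η ^ (1 / 4 : ℝ) * δ ^ (-C2)) := by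
    have h3 := Summable.tsum_le_tsum (WW_split K T δ η hT0 hη0 hTη) hW
      ((hff.mul_left (4 / T)).add hN)
    rw [(hff.mul_left (4 / T)).tsum_add hN, tsum_mul_left, e1] at h3
    linarith
  refine e3.trans ?_
  rw [hη4]
  have hD1 : 0 < δ ^ (-C1) := Real.rpow_pos_of_pos hδ _
  have hD2 : 0 < δ ^ (-C2) := Real.rpow_pos_of_pos hδ _
  have hT8 : 0 < T ^ (-(1 / 8) : ℝ) := Real.rpow_pos_of_pos hT0 _
  obtain ⟨C, hC⟩ : ∃ C : ℝ, C = 4 * C1 ^ 2 + 6 * C1 * C2 + 2 * C1 + C2 := ⟨_, rfl⟩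
  rw [← hC]
  have hδ1 : δ ≤ 1 := by linarith
  have hc1 : δ ^ (-C1) * δ ^ (-C1) ≤ δ ^ (-C) := by
    rw [← Real.rpow_add hδ]
    apply Real.rpow_le_rpow_of_exponent_ge hδ hδ1
    have : 0 ≤ 4 * C1 ^ 2 + 6 * C1 * C2 := by positivity
    linarith
  have hc2 : δ ^ (-C1) * δ ^ (-C2) ≤ δ ^ (-C) := by
    rw [← Real.rpow_add hδ]
    apply Real.rpow_le_rpow_of_exponent_ge hδ hδ1
    have : 0 ≤ 4 * C1 ^ 2 + 6 * C1 * C2 := by positivity
    linarith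
  have hTT : 1 / T ≤ T ^ (-(1 / 8) : ℝ) := by
    rw [one_div, ← Real.rpow_neg_one]
    exact Real.rpow_le_rpow_of_exponent_le hT (by norm_num)
  have hDC : 0 < δ ^ (-C) := Real.rpow_pos_of_pos hδ _
  have f1 : 4 / T * (mo K δ * mo K δ) ≤ 4 * C1 ^ 2 * (T ^ (-(1 / 8) : ℝ) * δ ^ (-C)) := by
    calc 4 / T * (mo K δ * mo K δ) = 4 * (1 / T) * (mo K δ * mo K δ) := by ring
      _ ≤ 4 * T ^ (-(1 / 8) : ℝ) * ((C1 * δ ^ (-C1)) * (C1 * δ ^ (-C1))) := by gcongr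
      _ = 4 * C1 ^ 2 * T ^ (-(1 / 8) : ℝ) * (δ ^ (-C1) * δ ^ (-C1)) := by ring
      _ ≤ 4 * C1 ^ 2 * T ^ (-(1 / 8) : ℝ) * δ ^ (-C) := by gcongr
      _ = _ := by ring
  have f2 : mo K δ * (6 * C2 * T ^ (-(1 / 8) : ℝ) * δ ^ (-C2)) ≤
      6 * C1 * C2 * (T ^ (-(1 / 8) : ℝ) * δ ^ (-C)) := by
    calc mo K δ * (6 * C2 * T ^ (-(1 / 8) : ℝ) * δ ^ (-C2))
        ≤ (C1 * δ ^ (-C1)) * (6 * C2 * T ^ (-(1 / 8) : ℝ) * δ ^ (-C2)) := by gcongr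
      _ = 6 * C1 * C2 * T ^ (-(1 / 8) : ℝ) * (δ ^ (-C1) * δ ^ (-C2)) := by ring
      _ ≤ 6 * C1 * C2 * T ^ (-(1 / 8) : ℝ) * δ ^ (-C) := by gcongr
      _ = _ := by ring
  have hX : 0 < T ^ (-(1 / 8) : ℝ) * δ ^ (-C) := by positivity
  calc 4 / T * (mo K δ * mo K δ) + mo K δ * (6 * C2 * T ^ (-(1 / 8) : ℝ) * δ ^ (-C2))
      ≤ (4 * C1 ^ 2 + 6 * C1 * C2) * (T ^ (-(1 / 8) : ℝ) * δ ^ (-C)) := by linarith
    _ ≤ C * (T ^ (-(1 / 8) : ℝ) * δ ^ (-C)) := by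
        apply mul_le_mul_of_nonneg_right _ hX.le
        rw [hC]
        linarith
    _ = _ := by ring

end Pool.Agent.T2H19.ZA
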